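import Pool.Agent.Lib.MP_e7c4c5_co.Out.Defs

/-! From a recursive decomposition to an elimination order. -/

set_option autoImplicit false

namespace Pool.Agent.Lib.MP_e7c4c5_co.Out

open Pool.Agent.Lib.Common.Pl

variable {W : Type} {A : SimpleGraph W} {w : ℕ}

/-- The set `D` has an elimination order of width at most `w`. -/
def Ordr (A : SimpleGraph W) (w : ℕ) (D : Set W) : Prop :=
  ∃ r : W → ℕ, Set.InjOn r D ∧
    ∀ x ∈ D, (bd A (comp A {y | y ∈ D ∧ r x ≤ r y} x)).ncard ≤ w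

/- Put the elements of `B` first: `r' y = e y` on `B` and `M + r y` elsewhere, where `e` is
injective with values `< M`.  For `x ∈ D ∩ B` the boundary lies in `bd A D ∪ B`; for `x ∈ D \ B` the
set of later vertices is the same as before. -/
theorem Ordr.batch [Finite W] {D B : Set W} (h : Ordr A w (D \ B))
    (hB : (bd A D).ncard + B.ncard ≤ w) : Ordr A w D := by
  classical
  obtain ⟨r, hr, hw⟩ := h
  obtain ⟨M, e, he, hM⟩ : ∃ (M : ℕ) (e : W → ℕ), Function.Injective e ∧ ∀ y, e y < M :=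
    ⟨Nat.card W, fun y => Finite.equivFin W y,
      Fin.val_injective.comp (Finite.equivFin W).injective, fun y => (Finite.equivFin W y).2⟩
  refine ⟨fun y => if y ∈ B then e y else M + r y, fun x hx y hy hxy => ?_, fun x hx => ?_⟩
  · have h1 := hM x
    have h2 := hM y
    by_cases hxB : x ∈ B <;> by_cases hyB : y ∈ B <;> simp only [hxB, hyB, if_true, if_false] at hxy
    · exact he hxy
    · omega
    · omega
    · exact hr ⟨hx, hxB⟩ ⟨hy, hyB⟩ (by omega)
  · by_cases hxB : x ∈ B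
    · refine le_trans (Set.ncard_le_ncard (t := bd A D ∪ B) fun z hz => ?_)
        ((Set.ncard_union_le _ _).trans hB)
      by_cases hzB : z ∈ B
      · exact Or.inr hzB
      · obtain ⟨u, hu, hzu⟩ := hz.2
        refine Or.inl ⟨fun hzD => bd_comp_subset hz ⟨hzD, ?_⟩, u, (comp_subset hu).1, hzu⟩
        have := hM x
        simp only [hxB, hzB, if_true, if_false]
        omega
    · refine le_of_eq_of_le ?_ (hw x ⟨hx, hxB⟩)
      congr 3
      ext y
      have := hM y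
      by_cases hyB : y ∈ B <;> simp only [hxB, hyB, if_true, if_false, Set.mem_ofPred_eq,
        Set.mem_sdiff, not_true, not_false_iff, and_true, and_false, false_and, iff_false]
      · omega
      · exact and_congr_right fun _ => by omega

theorem DecOrder_comp {L L₁ : Set W} {x : W} (h : L₁ ⊆ L) (hx : x ∈ L₁)
    (hc : ∀ a ∈ L₁, ∀ b ∈ L, A.Adj a b → b ∈ L₁) : comp A L x = comp A L₁ x :=
  Set.Subset.antisymm (fun _ hz => RIn.induction (P := fun z => RIn A L₁ x z) hz (RIn.refl hx)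
    fun a b _ hb hab ih => ih.tail hab (hc a ih.right_mem b hb hab)) (comp_mono h)

/- `r = 2 * r₁` on `D₁`, `2 * r₂ + 1` elsewhere; a component stays inside its part
(`RIn.induction`). -/
theorem Ordr.union {D₁ D₂ : Set W} (h₁ : Ordr A w D₁) (h₂ : Ordr A w D₂) (hd : Disjoint D₁ D₂)
    (ha : ∀ x ∈ D₁, ∀ y ∈ D₂, ¬ A.Adj x y) : Ordr A w (D₁ ∪ D₂) := by
  classical
  obtain ⟨r₁, i₁, w₁⟩ := h₁
  obtain ⟨r₂, i₂, w₂⟩ := h₂
  have hn : ∀ y ∈ D₂, y ∉ D₁ := fun y hy hy' => Set.disjoint_left.1 hd hy' hy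
  refine ⟨fun y => if y ∈ D₁ then 2 * r₁ y else 2 * r₂ y + 1, fun x hx y hy hxy => ?_,
    fun x hx => ?_⟩
  · by_cases hx1 : x ∈ D₁ <;> by_cases hy1 : y ∈ D₁ <;>
      simp only [hx1, hy1, if_true, if_false] at hxy
    · exact i₁ hx1 hy1 (by omega)
    · omega
    · omega
    · exact i₂ (hx.resolve_left hx1) (hy.resolve_left hy1) (by omega)
  · rcases hx with hx | hx
    · rw [DecOrder_comp (L₁ := {y | y ∈ D₁ ∧ r₁ x ≤ r₁ y}) ?_ ⟨hx, le_rfl⟩ ?_]
      · exact w₁ x hx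
      · rintro y ⟨hy, hle⟩
        refine ⟨Or.inl hy, ?_⟩
        simp only [hx, hy, if_true]
        omega
      · rintro a ⟨ha1, -⟩ b ⟨hb | hb, hle⟩ hab
        · simp only [hx, hb, if_true] at hle
          exact ⟨hb, by omega⟩
        · exact absurd hab (ha a ha1 b hb)
    · rw [DecOrder_comp (L₁ := {y | y ∈ D₂ ∧ r₂ x ≤ r₂ y}) ?_ ⟨hx, le_rfl⟩ ?_]
      · exact w₂ x hx
      · rintro y ⟨hy, hle⟩
        refine ⟨Or.inr hy, ?_⟩
        simp only [hn x hx, hn y hy, if_false]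
        omega
      · rintro a ⟨ha1, -⟩ b ⟨hb | hb, hle⟩ hab
        · exact absurd hab.symm (ha b hb a ha1)
        · simp only [hn x hx, hn b hb, if_false] at hle
          exact ⟨hb, by omega⟩

theorem DecOrder_bd [Finite W] {U F : Set W} {g : W → Set W} (hU : (bd A U).ncard ≤ w)
    (hg : ∀ y, (g y).ncard ≤ w) (hF : ∀ x ∈ F, x ∈ U → ∃ y, y ∉ U ∧ A.Adj y x ∧ x ∈ g y) :
    (bd A (U \ F)).ncard ≤ w + w * w := by
  classical
  have h1 : (F ∩ U).ncard ≤ w * w := by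
    have h2 : F ∩ U ⊆ ((bd A U).toFinite.toFinset.biUnion fun y => (g y).toFinite.toFinset :
        Finset W) := by
      rintro x ⟨hx, hxU⟩
      obtain ⟨y, hy, hyx, hxg⟩ := hF x hx hxU
      simp only [Finset.coe_biUnion, Set.Finite.coe_toFinset, Set.mem_iUnion]
      exact ⟨y, ⟨hy, x, hxU, hyx⟩, hxg⟩
    refine (Set.ncard_le_ncard h2).trans ?_
    rw [Set.ncard_coe_finset]
    refine (Finset.card_biUnion_le_card_mul _ _ w fun y _ => ?_).trans ?_
    · rw [← Set.ncard_eq_toFinset_card]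
      exact hg y
    · rw [← Set.ncard_eq_toFinset_card]
      exact Nat.mul_le_mul_right w hU
  refine le_trans (Set.ncard_le_ncard (t := bd A U ∪ (F ∩ U)) ?_)
    ((Set.ncard_union_le _ _).trans (Nat.add_le_add hU h1))
  rintro z ⟨hz, u, hu, hzu⟩
  by_cases hzU : z ∈ U
  · exact Or.inr ⟨by_contra fun hzF => hz ⟨hzU, hzF⟩, hzU⟩
  · exact Or.inl ⟨hzU, u, hu.1, hzu⟩

theorem DecOrder_step {U₁ U₂ F : Set W} {g : W → Set W} (hd : Disjoint U₁ U₂)
    (h₂ : (bd A U₂).ncard ≤ w) (hg : ∀ y, (g y).ncard ≤ w)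
    (hF : ∀ x ∈ F, x ∈ U₁ ∪ U₂ → ∃ y, y ∉ U₁ ∪ U₂ ∧ A.Adj y x ∧ x ∈ g y) :
    ∃ g' : W → Set W, (∀ y, (g' y).ncard ≤ w) ∧
      ∀ x ∈ F ∪ bd A U₂, x ∈ U₁ → ∃ y, y ∉ U₁ ∧ A.Adj y x ∧ x ∈ g' y := by
  classical
  refine ⟨fun y => if y ∈ U₂ then bd A U₂ else g y, fun y => ?_, ?_⟩
  · by_cases hy : y ∈ U₂ <;> simp only [hy, if_true, if_false]
    exacts [h₂, hg y]
  · rintro x (hx | hx) hxU
    · obtain ⟨y, hy, hyx, hxg⟩ := hF x hx (Or.inl hxU)
      refine ⟨y, fun hh => hy (Or.inl hh), hyx, ?_⟩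
      have : y ∉ U₂ := fun hh => hy (Or.inr hh)
      simpa only [this, if_false] using hxg
    · obtain ⟨u, hu, hxu⟩ := hx.2
      refine ⟨u, fun hh => Set.disjoint_left.1 hd hh hu, hxu.symm, ?_⟩
      simpa only [hu, if_true] using hx

/- Claim, by induction on `U.ncard`: if `U ∈ 𝒰`, `g : W → Set W` has `(g y).ncard ≤ w` for all
`y`, and every `x ∈ F ∩ U` has some `y ∉ U` with `A.Adj y x` and `x ∈ g y`, then
`Ordr A (w * w + 3 * w) (U \ F)`.  Indeed `F ∩ U ⊆ ⋃ y ∈ bd A U, g y` has at most `w * w` elements and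
`bd A (U \ F) ⊆ bd A U ∪ (F ∩ U)`.  If `U \ Z ∈ 𝒰` use `batch` with `B = Z` and the same `F`, `g`.  If
`U = U₁ ∪ U₂` use `batch` with `B = bd A U₁ ∪ bd A U₂`, then `union` for `U₁ \ (F ∪ bd A U₂)` and
`U₂ \ (F ∪ bd A U₁)`; for the first one the new `g` is `bd A U₂` on `U₂` and the old one
elsewhere.  At the top use `batch` with `D = univ`, `B = Uᶜ`, `F = ∅`. -/
theorem width_of_dec [Finite W] (h : Dec A w) : ∃ rk, Width A rk (w * w + 3 * w) := by
  obtain ⟨𝒰, ⟨U₀, hU₀, hc⟩, h⟩ := h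
  have key : ∀ (n : ℕ) (U : Set W), U.ncard < n → U ∈ 𝒰 → ∀ (F : Set W) (g : W → Set W),
      (∀ y, (g y).ncard ≤ w) → (∀ x ∈ F, x ∈ U → ∃ y, y ∉ U ∧ A.Adj y x ∧ x ∈ g y) →
      Ordr A (w * w + 3 * w) (U \ F) := by
    intro n
    induction n with
    | zero => intro U hn; omega
    | succ n ih =>
      intro U hn hU F g hg hF
      have hb := DecOrder_bd (h U hU).1 hg hF
      rcases U.eq_empty_or_nonempty with rfl | hne
      · exact ⟨fun _ => 0, fun x hx => hx.1.elim, fun x hx => hx.1.elim⟩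
      rcases (h U hU).2 hne with ⟨Z, hZU, ⟨z, hz⟩, hZw, hZ⟩ | ⟨U₁, m₁, U₂, m₂, n₁, n₂, hd, rfl⟩
      · refine Ordr.batch (B := Z) ?_ (by omega)
        rw [Set.sdiff_sdiff_comm]
        have hlt : (U \ Z).ncard < U.ncard :=
          Set.ncard_lt_ncard ⟨Set.sdiff_subset, fun hh => (hh (hZU hz)).2 hz⟩
        refine ih _ (by omega) hZ F g hg fun x hx hxU => ?_
        obtain ⟨y, hy, hyx, hxg⟩ := hF x hx hxU.1
        exact ⟨y, fun hh => hy hh.1, hyx, hxg⟩
      · have b₁ := (h U₁ m₁).1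
        have b₂ := (h U₂ m₂).1
        have hu := Set.ncard_union_le (bd A U₁) (bd A U₂)
        refine Ordr.batch (B := bd A U₁ ∪ bd A U₂) ?_ (by omega)
        have e : ((U₁ ∪ U₂) \ F) \ (bd A U₁ ∪ bd A U₂) =
            (U₁ \ (F ∪ bd A U₂)) ∪ (U₂ \ (F ∪ bd A U₁)) := by
          ext x
          have k₁ : x ∈ bd A U₁ → x ∉ U₁ := fun hh => hh.1
          have k₂ : x ∈ bd A U₂ → x ∉ U₂ := fun hh => hh.1
          simp only [Set.mem_sdiff, Set.mem_union]
          tauto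
        have l₁ : U₁.ncard < (U₁ ∪ U₂).ncard := by
          obtain ⟨z, hz⟩ := n₂
          exact Set.ncard_lt_ncard ⟨Set.subset_union_left,
            fun hh => Set.disjoint_left.1 hd (hh (Or.inr hz)) hz⟩
        have l₂ : U₂.ncard < (U₁ ∪ U₂).ncard := by
          obtain ⟨z, hz⟩ := n₁
          exact Set.ncard_lt_ncard ⟨Set.subset_union_right,
            fun hh => Set.disjoint_left.1 hd hz (hh (Or.inl hz))⟩
        obtain ⟨g₁, a₁, c₁⟩ := DecOrder_step hd b₂ hg hF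
        obtain ⟨g₂, a₂, c₂⟩ := DecOrder_step hd.symm b₁ hg (Set.union_comm U₁ U₂ ▸ hF)
        rw [e]
        refine Ordr.union (ih _ (by omega) m₁ _ g₁ a₁ c₁) (ih _ (by omega) m₂ _ g₂ a₂ c₂)
          (hd.mono Set.sdiff_subset Set.sdiff_subset) fun x hx y hy hxy => ?_
        exact hx.2 (Or.inr ⟨Set.disjoint_left.1 hd hx.1, y, hy.1, hxy⟩)
  have h1 := key _ U₀ (Nat.lt_succ_self _) hU₀ ∅ (fun _ => ∅) (by simp) (by simp)
  have h2 : Ordr A (w * w + 3 * w) Set.univ := by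
    refine Ordr.batch (B := U₀ᶜ) (by simpa using h1) ?_
    have : bd A (Set.univ : Set W) = ∅ :=
      Set.eq_empty_of_forall_notMem fun x hx => hx.1 (Set.mem_univ x)
    rw [this, Set.ncard_empty]
    omega
  obtain ⟨r, hr, hw⟩ := h2
  exact ⟨r, Set.injOn_univ.1 hr, fun x => by simpa using hw x (Set.mem_univ x)⟩

end Pool.Agent.Lib.MP_e7c4c5_co.Out
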