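import Pool.Agent.Lib.MP_e7c4c5_co.Out.NoGrid
import Pool.Agent.Lib.MP_e7c4c5_co.Out.DecOrder
import Pool.Agent.Lib.Common.Planar.GridThm

/-! Chordal completions that see all short walks. -/

set_option autoImplicit false

namespace Pool.Agent.Lib.MP_e7c4c5_co.Out

open Pool.Agent.Lib.Common.Pl

theorem Augment_exit {W : Type} {A : SimpleGraph W} {S U : Set W} {c : ℕ} {u x : W}
    (h : Near A S c u x) (hu : u ∈ U) (hx : x ∉ U) :
    1 ≤ c ∧ ∃ b ∈ bd A U, Near A S (c - 1) b x := by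
  obtain ⟨p, h1, h2⟩ := h
  induction p generalizing c with
  | nil => exact absurd hu hx
  | @cons u v x huv p ih =>
    rw [SimpleGraph.Walk.length_cons] at h1
    have h3 : ∀ z ∈ p.support, z ∈ S := fun z hz => h2 z (by simp [hz])
    refine ⟨by omega, ?_⟩
    by_cases hv : v ∈ U
    · obtain ⟨-, b, hb, k⟩ := ih hv hx (le_refl _) h3
      exact ⟨b, hb, k.mono (by omega)⟩
    · exact ⟨v, ⟨hv, u, hu, huv.symm⟩, p, by omega, h3⟩

theorem Augment_card {W : Type} [Finite W] {B : Set W} {f : W → Set W} {w g : ℕ}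
    (hB : B.ncard ≤ w) (hf : ∀ b, (f b).ncard ≤ g) : (⋃ b ∈ B, f b).ncard ≤ w * g := by
  classical
  have e : (⋃ b ∈ B, f b) = ↑((Set.toFinite B).toFinset.biUnion
      fun b => (Set.toFinite (f b)).toFinset) := by
    ext x
    simp
  rw [e, Set.ncard_coe_finset]
  refine (Finset.card_biUnion_le_card_mul _ _ g fun b _ => ?_).trans (Nat.mul_le_mul_right _ ?_)
  · rw [← Set.ncard_eq_toFinset_card]
    exact hf b
  · rwa [← Set.ncard_eq_toFinset_card]

/- Write `U z = comp A {y | rk z ≤ rk y} z`.  Induction on `c`, with `g 0 = 1`,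
`g (c + 1) = 1 + w * g c`: if `x ≠ b` then `rk x < rk b`, so the walk from `b` to `x` leaves
`U b`, first at a vertex `b' ∈ bd A (U b)`, and the rest of it has length at most `c`.  (It helps to
prove first: a walk of length `≤ c + 1` inside `S` from `u ∈ U` to `x ∉ U` gives `b' ∈ bd A U` with
`Near A S c b' x`.) -/
theorem wreach (w c : ℕ) : ∃ g : ℕ, ∀ (W : Type) [Finite W] (A : SimpleGraph W) (rk : W → ℕ),
    Width A rk w → ∀ b, {x | Near A {y | rk x ≤ rk y} c b x}.ncard ≤ g := by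
  induction c with
  | zero =>
    refine ⟨1, fun W _ A rk _ b => ?_⟩
    rw [← Set.ncard_singleton b]
    refine Set.ncard_le_ncard (fun x hx => ?_) (Set.toFinite _)
    obtain ⟨p, h1, -⟩ := hx
    exact (p.eq_of_length_eq_zero (by omega)).symm
  | succ c ih =>
    obtain ⟨g, hg⟩ := ih
    refine ⟨w * g + 1, fun W _ A rk h b => ?_⟩
    have k := Augment_card (h.le b) (hg W A rk h)
    refine le_trans (Set.ncard_le_ncard (fun x hx => ?_) (Set.toFinite _))
      ((Set.ncard_insert_le b _).trans (Nat.add_le_add_right k 1))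
    by_cases hxb : x = b
    · exact Or.inl hxb
    · have h1 : rk x ≤ rk b := (Near.rIn hx).left_mem
      have h2 : rk x ≠ rk b := h.inj.ne hxb
      obtain ⟨-, b', hb', k'⟩ := Augment_exit (U := comp A {y | rk b ≤ rk y} b) hx
        (mem_comp_self (le_refl (rk _))) fun h3 => h2 (le_antisymm h1 (RIn.right_mem h3 :))
      exact Or.inr (Set.mem_biUnion hb' k')

/- For `rk x < rk z` let `x` and `z` be adjacent if `Near A {y | rk x ≤ rk y} c u x` for some
`u ∈ U z`.  Back-degree: the walk leaves `U z` at some `b ∈ bd A (U z)`, so it is at most `w * g`.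
Clique: if `rk x < rk y < rk z` and `y` is adjacent to `z` then `U z ⊆ U y`. -/
theorem augment (w c : ℕ) : ∃ w' : ℕ, ∀ (W : Type) [Finite W] (A : SimpleGraph W) (rk : W → ℕ),
    Width A rk w → ∃ H : SimpleGraph W, PEO H rk w' ∧
      ∀ z x, z ≠ x → Near A {y | rk x ≤ rk y} c z x → H.Adj x z := by
  obtain ⟨g, hg⟩ := wreach w c
  refine ⟨w * g, fun W _ A rk h => ?_⟩
  let R : W → W → Prop := fun x z => rk x < rk z ∧
    ∃ u ∈ comp A {y | rk z ≤ rk y} z, Near A {y | rk x ≤ rk y} c u x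
  have hR : ∀ x z, rk x < rk z → R x z ∨ R z x → R x z := fun x z h1 h2 =>
    h2.resolve_right fun h3 => h1.not_gt h3.1
  have hc : ∀ x y z, R x z → R y z → rk x < rk y → R x y := by
    rintro x y z ⟨-, u, hu, k⟩ ⟨h2, v, hv, k'⟩ h3
    have hs : {t | rk z ≤ rk t} ⊆ {t | rk y ≤ rk t} := fun t ht => h2.le.trans ht
    exact ⟨h3, u, k'.rIn.symm.trans ((RIn.symm hv).trans hu |>.mono hs), k⟩
  refine ⟨⟨fun x z => R x z ∨ R z x, ⟨fun _ _ k => k.symm⟩,
    ⟨fun x k => lt_irrefl _ (k.elim And.left And.left)⟩⟩,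
    ⟨h.inj, fun x y z h1 h2 h3 h4 => ?_, fun z => ?_⟩, fun z x h1 h2 => Or.inl ⟨?_, z, ?_, h2⟩⟩
  · rcases lt_trichotomy (rk x) (rk y) with h5 | h5 | h5
    · exact Or.inr (Or.inl (hc x y z (hR x z h3 h1) (hR y z h4 h2) h5))
    · exact Or.inl (h.inj h5)
    · exact Or.inr (Or.inr (hc y x z (hR y z h4 h2) (hR x z h3 h1) h5))
  · refine le_trans (Set.ncard_le_ncard (fun x hx => ?_) (Set.toFinite _))
      (Augment_card (h.le z) (hg W A rk h))
    obtain ⟨h1, u, hu, k⟩ := hR x z hx.2 hx.1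
    obtain ⟨-, b, hb, k'⟩ := Augment_exit k hu fun h3 => h1.not_ge (RIn.right_mem h3 :)
    exact Set.mem_biUnion hb (k'.mono (Nat.sub_le _ _))
  · exact lt_of_le_of_ne h2.rIn.left_mem (h.inj.ne h1.symm)
  · exact mem_comp_self (le_refl (rk _))

theorem planar_peo (ρ c : ℕ) : ∃ w : ℕ, ∀ (W : Type) [Finite W] (A : SimpleGraph W) (ω : W),
    Planar A → (∀ z ∈ A.support, Near A Set.univ ρ z ω) →
    ∃ (H : SimpleGraph W) (rk : W → ℕ), PEO H rk w ∧
      ∀ z x, z ≠ x → Near A {y | rk x ≤ rk y} c z x → H.Adj x z := by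
  obtain ⟨r, hr⟩ := no_grid ρ
  obtain ⟨w, hw⟩ := dec_or_grid r
  obtain ⟨w', hw'⟩ := augment (w * w + 3 * w) c
  refine ⟨w', fun W _ A ω h1 h2 => ?_⟩
  obtain ⟨rk, hrk⟩ := width_of_dec ((hw W A h1).resolve_right (hr W A ω h1 h2))
  obtain ⟨H, hH⟩ := hw' W A rk hrk
  exact ⟨H, rk, hH⟩

end Pool.Agent.Lib.MP_e7c4c5_co.Out
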