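import Pool.Agent.Lib.MP_e7c4c5_co.Out.Defs
import Pool.Agent.Lib.MP_e7c4c5_co.Sub.Ros

/-! A colouring of a path in which repetitive lazy walks are boring. -/

set_option autoImplicit false

namespace Pool.Agent.Lib.MP_e7c4c5_co.Out

/- `Sub.rosenfeld` on `Fin N` (or `Fin (N + 1)`) with `R u v := u + 1 = v ∨ v + 1 = u`, `M = 2`. -/
theorem exists_sqfree (N : ℕ) : ∃ ψ : ℕ → Fin 160, ∀ s d, 0 < d → s + 2 * d ≤ N →
    ∃ i < d, ψ (s + i) ≠ ψ (s + d + i) := by
  obtain ⟨ψ, hψ⟩ := Sub.rosenfeld (V := Fin (N + 1))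
    (fun u v => (u : ℕ) + 1 = v ∨ (v : ℕ) + 1 = u) 2 two_pos fun v => by
      have h1 : Fin.val '' {u : Fin (N + 1) | (v : ℕ) + 1 = u ∨ (u : ℕ) + 1 = v} ⊆
          {(v : ℕ) + 1, (v : ℕ) - 1} := by
        rintro _ ⟨u, hu | hu, rfl⟩
        · exact Or.inl hu.symm
        · exact Or.inr (by simp only [Set.mem_singleton_iff]; omega)
      rw [← Set.ncard_image_of_injective _ Fin.val_injective]
      exact (Set.ncard_le_ncard h1).trans ((Set.ncard_insert_le _ _).trans (by simp))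
  refine ⟨fun p => ψ ⟨min p N, by omega⟩, fun s d hd hs => ?_⟩
  obtain ⟨i, hi, h⟩ := hψ d (fun j => ⟨min (s + j) N, by omega⟩) hd
    (fun j hj => by simp only; omega)
    (fun i hi j hj h => by simp only [Fin.mk.injEq] at h; omega)
  exact ⟨i, hi, by simpa only [add_assoc] using h⟩

theorem Boring_const {T : ℕ} {b : ℕ → ℕ}
    (h1 : ∀ i, i + 1 < 2 * T → b i ≤ b (i + 1) + 1 ∧ b (i + 1) ≤ b i + 1)
    (h2 : ∀ i < T, b i % 3 = b (T + i) % 3) : ∀ i < T, b (T + i) + b 0 = b i + b T := by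
  intro i
  induction i with
  | zero => intro _; rw [add_zero, add_comm]
  | succ i ih =>
    intro hi
    have a1 := ih (by omega)
    have a2 := h1 i (by omega)
    have a3 := h1 (T + i) (by omega)
    have a4 := h2 i (by omega)
    have a5 := h2 (i + 1) hi
    rw [← add_assoc] at a5 ⊢
    omega

theorem Boring_ivt {M : ℕ} {b : ℕ → ℕ}
    (h1 : ∀ i, i + 1 < M → b i ≤ b (i + 1) + 1 ∧ b (i + 1) ≤ b i + 1) {p : ℕ} (hp : b 0 ≤ p) :
    ∀ n < M, p ≤ b n → ∃ i ≤ n, b i = p := by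
  intro n
  induction n with
  | zero => exact fun _ h => ⟨0, le_rfl, by omega⟩
  | succ n ih =>
    intro hn h
    by_cases h' : p ≤ b n
    · obtain ⟨i, hi, e⟩ := ih (by omega) h'
      exact ⟨i, by omega, e⟩
    · have := h1 n hn
      exact ⟨n + 1, le_rfl, by omega⟩

theorem Boring_core {α : Type} {N T : ℕ} {ψ : ℕ → α} {b : ℕ → ℕ}
    (hψ : ∀ s d, 0 < d → s + 2 * d ≤ N → ∃ i < d, ψ (s + i) ≠ ψ (s + d + i)) (hT : 0 < T)
    (h0 : ∀ i < 2 * T, b i < N)
    (h1 : ∀ i, i + 1 < 2 * T → b i ≤ b (i + 1) + 1 ∧ b (i + 1) ≤ b i + 1)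
    (h2 : ∀ i < T, b i % 3 = b (T + i) % 3) (h3 : ∀ i < T, ψ (b i) = ψ (b (T + i))) :
    b T ≤ b 0 := by
  by_contra hlt
  obtain ⟨d, hd⟩ : ∃ d, b T = b 0 + (d + 1) := ⟨b T - b 0 - 1, by omega⟩
  obtain ⟨n, rfl⟩ : ∃ n, T = n + 1 := ⟨T - 1, by omega⟩
  have hc := Boring_const h1 h2
  have a1 := h1 n (by omega)
  have a2 := hc n (by omega)
  have a3 := h0 (n + 1 + n) (by omega)
  obtain ⟨i, hi, h⟩ := hψ (b 0) (d + 1) (by omega) (by omega)
  obtain ⟨j, hj, e⟩ := Boring_ivt h1 (Nat.le_add_right (b 0) i) n (by omega) (by omega)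
  have a4 := hc j (by omega)
  apply h
  rw [← e, h3 j (by omega)]
  congr 1
  omega

/- `θ p = (ψ p, p % 3)`.  The residues force equal steps in both halves, so `b (T + i) - b i`
is a constant `d` (in `ℤ`) for `i < T`.  If `d > 0`, the walk `b 0, …, b (T - 1)` ends at a value
`≥ b 0 + d - 1` (as `b T = b 0 + d`), so it takes all values `p` in `[b 0, b 0 + d)` (discrete
intermediate values), and `ψ p = ψ (p + d)` for these; `b 0 + 2 * d ≤ N` because
`b 0 + d - 1 + d` is a value of the second half.  If `d < 0` apply this to the reversed walk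
`i ↦ b (2 * T - 1 - i)`. -/
theorem boring (N : ℕ) : ∃ θ : ℕ → Fin 160 × Fin 3, ∀ (T : ℕ) (b : ℕ → ℕ),
    (∀ i < 2 * T, b i < N) → (∀ i, i + 1 < 2 * T → b i ≤ b (i + 1) + 1 ∧ b (i + 1) ≤ b i + 1) →
    (∀ i < T, θ (b i) = θ (b (T + i))) → ∀ i < T, b i = b (T + i) := by
  obtain ⟨ψ, hψ⟩ := exists_sqfree N
  refine ⟨fun p => (ψ p, ⟨p % 3, Nat.mod_lt _ three_pos⟩), fun T b h0 h1 h i hi => ?_⟩
  have h2 : ∀ i < T, b i % 3 = b (T + i) % 3 := fun i hi => by
    simpa using congrArg Prod.snd (h i hi)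
  have h3 : ∀ i < T, ψ (b i) = ψ (b (T + i)) := fun i hi => congrArg Prod.fst (h i hi)
  have hc := Boring_const h1 h2
  have k1 := Boring_core hψ (by omega) h0 h1 h2 h3
  have k2 := Boring_core (T := T) (b := fun i => b (2 * T - 1 - i)) hψ (by omega)
    (fun i hi => h0 _ (by omega))
    (fun i hi => by
      have := h1 (2 * T - 1 - (i + 1)) (by omega)
      rw [show 2 * T - 1 - (i + 1) + 1 = 2 * T - 1 - i by omega] at this
      exact this.symm)
    (fun i hi => by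
      have := h2 (T - 1 - i) (by omega)
      rw [show 2 * T - 1 - i = T + (T - 1 - i) by omega,
        show 2 * T - 1 - (T + i) = T - 1 - i by omega]
      exact this.symm)
    (fun i hi => by
      have := h3 (T - 1 - i) (by omega)
      rw [show 2 * T - 1 - i = T + (T - 1 - i) by omega,
        show 2 * T - 1 - (T + i) = T - 1 - i by omega]
      exact this.symm)
  rw [show 2 * T - 1 - T = T - 1 by omega, show 2 * T - 1 - 0 = T + (T - 1) by omega] at k2
  have a1 := hc (T - 1) (by omega)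
  have a2 := hc i hi
  omega

end Pool.Agent.Lib.MP_e7c4c5_co.Out
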