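import Pool.Agent.Lib.MP_e7c4c5_co.Out.Defs
import Pool.Agent.Lib.Common.Planar.Wind

/-! The grid is planar; a planar graph of small radius has no large grid minor. -/

set_option autoImplicit false

namespace Pool.Agent.Lib.MP_e7c4c5_co.Out

open Pool.Agent.Lib.Common.Pl

/- `isVK_of_weakDrawing` with the obvious positions, `S x y` the box
`Set.uIcc x.1 y.1 ×ˢ Set.uIcc x.2 y.2` (or the segment), then `IsVK.planar`. -/
theorem grid_planar : Planar grid := by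
  refine IsVK.planar (isVK_of_weakDrawing grid (fun x => ((x.1 : ℝ), (x.2 : ℝ))) ?_
    (fun x y => Set.Icc ((min x.1 y.1 : ℕ) : ℝ) ((max x.1 y.1 : ℕ) : ℝ) ×ˢ
      Set.Icc ((min x.2 y.2 : ℕ) : ℝ) ((max x.2 y.2 : ℕ) : ℝ)) ?_ ?_ ?_ ?_)
  · intro x y h
    exact Prod.ext (Nat.cast_injective (congrArg Prod.fst h))
      (Nat.cast_injective (congrArg Prod.snd h))
  · intro x y
    rw [min_comm x.1, min_comm x.2, max_comm x.1, max_comm x.2]
  · intro x y _
    have hx : ((x.1 : ℝ), (x.2 : ℝ)) ∈ Set.Icc ((min x.1 y.1 : ℕ) : ℝ) ((max x.1 y.1 : ℕ) : ℝ) ×ˢ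
        Set.Icc ((min x.2 y.2 : ℕ) : ℝ) ((max x.2 y.2 : ℕ) : ℝ) :=
      ⟨⟨Nat.cast_le.2 (min_le_left _ _), Nat.cast_le.2 (le_max_left _ _)⟩,
        Nat.cast_le.2 (min_le_left _ _), Nat.cast_le.2 (le_max_left _ _)⟩
    exact (((convex_Icc _ _).prod (convex_Icc _ _)).isPathConnected ⟨_, hx⟩).joinedIn _ hx _
      ⟨⟨Nat.cast_le.2 (min_le_right _ _), Nat.cast_le.2 (le_max_right _ _)⟩,
        Nat.cast_le.2 (min_le_right _ _), Nat.cast_le.2 (le_max_right _ _)⟩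
  · rintro x y z h h1 h2 ⟨⟨a1, a2⟩, a3, a4⟩
    have b1 := Nat.cast_le.1 a1
    have b2 := Nat.cast_le.1 a2
    have b3 := Nat.cast_le.1 a3
    have b4 := Nat.cast_le.1 a4
    have h' : x.1 = y.1 ∧ (x.2 + 1 = y.2 ∨ y.2 + 1 = x.2) ∨
      x.2 = y.2 ∧ (x.1 + 1 = y.1 ∨ y.1 + 1 = x.1) := h
    rw [Ne, Prod.ext_iff] at h1 h2
    omega
  · intro x y u v h k h1 h2 h3 h4
    rw [Set.disjoint_left]
    rintro p ⟨⟨a1, a2⟩, a3, a4⟩ ⟨⟨c1, c2⟩, c3, c4⟩
    have b1 := Nat.cast_le.1 (a1.trans c2)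
    have b2 := Nat.cast_le.1 (c1.trans a2)
    have b3 := Nat.cast_le.1 (a3.trans c4)
    have b4 := Nat.cast_le.1 (c3.trans a4)
    have h' : x.1 = y.1 ∧ (x.2 + 1 = y.2 ∨ y.2 + 1 = x.2) ∨
      x.2 = y.2 ∧ (x.1 + 1 = y.1 ∨ y.1 + 1 = x.1) := h
    have k' : u.1 = v.1 ∧ (u.2 + 1 = v.2 ∨ v.2 + 1 = u.2) ∨
      u.2 = v.2 ∧ (u.1 + 1 = v.1 ∨ v.1 + 1 = u.1) := k
    rw [Ne, Prod.ext_iff] at h1 h2 h3 h4
    omega

/-- The union of the sets `C a` with `s ≤ a < t`. -/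
def NoGrid_seg {W : Type} (C : ℕ → Set W) (s t : ℕ) : Set W := {w | ∃ a, s ≤ a ∧ a < t ∧ w ∈ C a}

theorem NoGrid_sub {W : Type} (C : ℕ → Set W) {s t a : ℕ} (h1 : s ≤ a) (h2 : a < t) :
    C a ⊆ NoGrid_seg C s t := fun _ hw => ⟨a, h1, h2, hw⟩

theorem NoGrid_chain {W : Type} {A : SimpleGraph W} (C : ℕ → Set W) {s t : ℕ} (hst : s + 1 ≤ t)
    (hc : ∀ a, s ≤ a → a < t → ConnSet A (C a))
    (ha : ∀ a, s ≤ a → a + 1 < t → SAdj A (C a) (C (a + 1))) : ConnSet A (NoGrid_seg C s t) := by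
  induction t, hst using Nat.le_induction with
  | base =>
    have e : NoGrid_seg C s (s + 1) = C s := by
      refine Set.Subset.antisymm ?_ (NoGrid_sub C le_rfl (by omega))
      rintro w ⟨a, h1, h2, hw⟩
      obtain rfl : a = s := by omega
      exact hw
    rw [e]
    exact hc s le_rfl (by omega)
  | succ t hst ih =>
    have e : NoGrid_seg C s (t + 1) = NoGrid_seg C s t ∪ C t := by
      refine Set.Subset.antisymm ?_ (Set.union_subset ?_ (NoGrid_sub C (by omega) (by omega)))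
      · rintro w ⟨a, h1, h2, hw⟩
        by_cases h : a = t
        · exact Or.inr (h ▸ hw)
        · exact Or.inl ⟨a, h1, by omega, hw⟩
      · rintro w ⟨a, h1, h2, hw⟩
        exact ⟨a, h1, by omega, hw⟩
    obtain ⟨t, rfl⟩ : ∃ t', t = t' + 1 := ⟨t - 1, by omega⟩
    rw [e]
    exact (ih (fun a h1 h2 => hc a h1 (by omega)) fun a h1 h2 => ha a h1 (by omega)).union_of_sAdj
      (hc _ (by omega) (by omega))
      ((ha t (by omega) (by omega)).mono (NoGrid_sub C (by omega) (by omega)) le_rfl)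

theorem NoGrid_clean {W : Type} (U : Finset W) (C : ℕ → Set W) (s q : ℕ) (hU : U.card < q)
    (hC : ∀ a b w, a < s + q → b < s + q → w ∈ C a → w ∈ C b → a = b) :
    ∃ a, s ≤ a ∧ a < s + q ∧ ∀ w ∈ C a, w ∉ U := by
  by_contra hn
  have h1 : ∀ a, a ∈ Finset.Ico s (s + q) → ∃ w, w ∈ C a ∧ w ∈ U := by
    intro a ha
    by_contra h2
    exact hn ⟨a, (Finset.mem_Ico.1 ha).1, (Finset.mem_Ico.1 ha).2, fun w h3 h4 => h2 ⟨w, h3, h4⟩⟩
  have h2 : Nonempty W := ⟨(h1 s (Finset.mem_Ico.2 ⟨le_rfl, by omega⟩)).choose⟩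
  choose! f f1 f2 using h1
  have h3 := Finset.card_le_card_of_injOn f (s := Finset.Ico s (s + q)) (t := U)
    (fun a ha => f2 a ha) fun a ha b hb e =>
      hC a b (f a) (Finset.mem_Ico.1 ha).2 (Finset.mem_Ico.1 hb).2 (f1 a ha) (e ▸ f1 b hb)
  rw [Nat.card_Ico] at h3
  omega

theorem NoGrid_K33 {W : Type} {A : SimpleGraph W} {L R Z : Set W} {T : Fin 3 → Set W}
    (cL : ConnSet A L) (cR : ConnSet A R) (cZ : ConnSet A Z) (cT : ∀ i, ConnSet A (T i))
    (d1 : Disjoint L R) (d2 : Disjoint L Z) (d3 : Disjoint R Z)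
    (d4 : ∀ i j, i < j → Disjoint (T i) (T j)) (d5 : ∀ i, Disjoint L (T i))
    (d6 : ∀ i, Disjoint R (T i)) (d7 : ∀ i, Disjoint Z (T i)) (a1 : ∀ i, SAdj A L (T i))
    (a2 : ∀ i, SAdj A R (T i)) (a3 : ∀ i, SAdj A Z (T i)) : ¬ Planar A := by
  refine not_planar_of_K33 ![L, R, Z] T (fun x => ?_) cT (fun x y h => ?_) d4 (fun x y => ?_)
    fun x y => ?_
  · fin_cases x
    exacts [cL, cR, cZ]
  · fin_cases x <;> fin_cases y <;> first | exact absurd h (by decide) | assumption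
  · fin_cases x
    exacts [d5 y, d6 y, d7 y]
  · fin_cases x
    exacts [a1 y, a2 y, a3 y]

/- Put `q = 3 * (ρ + 1) + 1`, `r = 3 * (q + 1) + 1`, and let `B` be the grid model.  For
`i : Fin 3` let `m i = i * (q + 1)` and let `z i ∈ B (m i) q` be an end of an edge to
`B (m i + 1) q`; let `P i` be a walk of length at most `ρ` from `z i` to `ω`.  The union `U` of the
supports has at most `3 * (ρ + 1) < q` vertices, each in at most one branch set, so among any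
`q` rows (columns) one is clean (its branch sets avoid `U`).  Take clean rows
`n i ∈ (m i, m i + q]` and clean columns `l < q < l' ≤ 2 * q`.  Then `not_planar_of_K33` with
`L = ⋃ i < r, B i l`, `R = ⋃ i < r, B i l'`, `Z = U ∪ ⋃ i, ⋃ a ∈ [m i, n i), B a q` on one side and
`T i = ⋃ j ∈ (l, l'), B (n i) j` on the other side.  A lemma for chains of sets helps: if `C a` is
connected for `s ≤ a ≤ t` and consecutive ones are `SAdj`, then the union is connected. -/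
theorem no_grid (ρ : ℕ) : ∃ r : ℕ, ∀ (W : Type) (A : SimpleGraph W) (ω : W), Planar A →
    (∀ z ∈ A.support, Near A Set.univ ρ z ω) → ¬ Grid A r := by
  classical
  obtain ⟨q, hq⟩ : ∃ q, q = 3 * (ρ + 1) + 1 := ⟨_, rfl⟩
  obtain ⟨r, hr⟩ : ∃ r, r = 3 * (q + 1) + 1 := ⟨_, rfl⟩
  refine ⟨r, fun W A ω hP hρ ⟨B, g1, g2, g3, g4⟩ => ?_⟩
  have hd : ∀ {i j i' j' : ℕ} {w : W}, w ∈ B i j → w ∈ B i' j' → i < r → j < r → i' < r →
      j' < r → i = i' ∧ j = j' := by
    intro i j i' j' w h1 h2 a1 a2 a3 a4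
    by_contra hn
    exact Set.disjoint_left.1 (g2 i a1 j a2 i' a3 j' a4 fun e => hn (Prod.ext_iff.1 e)) h1 h2
  obtain ⟨m, hm1, hm2⟩ : ∃ m : Fin 3 → ℕ, (∀ i j, i < j → m i + q < m j) ∧
      ∀ i, m i + q + 1 < r := by
    refine ⟨fun i => i * (q + 1), fun i j h => ?_, fun i => ?_⟩
    · have h1 := Nat.mul_le_mul_right (q + 1) (show (i : ℕ) + 1 ≤ j from h)
      rw [Nat.succ_mul] at h1
      show i * (q + 1) + q < j * (q + 1)
      omega
    · have h1 := Nat.mul_le_mul_right (q + 1) (show (i : ℕ) ≤ 2 from Nat.le_of_lt_succ i.2)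
      show i * (q + 1) + q + 1 < r
      omega
  have hz : ∀ i : Fin 3, ∃ z ∈ B (m i) q, ∃ p : A.Walk z ω, p.length ≤ ρ := by
    intro i
    obtain ⟨z, h1, z', -, h2⟩ := g3 (m i) q (by have := hm2 i; omega) (by omega)
    obtain ⟨p, h3, -⟩ := hρ z h2.mem_support_left
    exact ⟨z, h1, p, h3⟩
  choose z hz p hp using hz
  obtain ⟨U, hU, mU⟩ : ∃ U : Finset W, U.card < q ∧ ∀ w, w ∈ U ↔ ∃ i, w ∈ (p i).support := by
    refine ⟨Finset.univ.biUnion fun i => (p i).support.toFinset, ?_, fun w => by simp⟩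
    refine (Finset.card_biUnion_le_card_mul _ _ (ρ + 1) fun i _ => ?_).trans_lt ?_
    · refine (List.toFinset_card_le _).trans ?_
      rw [SimpleGraph.Walk.length_support]
      exact Nat.add_le_add_right (hp i) 1
    · rw [Finset.card_univ, Fintype.card_fin]
      omega
  have hrow : ∀ i : Fin 3, ∃ a, m i + 1 ≤ a ∧ a < m i + 1 + q ∧
      ∀ w ∈ NoGrid_seg (B a) 0 r, w ∉ U := fun i =>
    NoGrid_clean U (fun a => NoGrid_seg (B a) 0 r) _ q hU
      fun a b w h1 h2 ⟨j, _, j1, j2⟩ ⟨j', _, j3, j4⟩ =>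
        (hd j2 j4 (by have := hm2 i; omega) j1 (by have := hm2 i; omega) j3).1
  have hcol : ∀ s, s + q ≤ r → ∃ b, s ≤ b ∧ b < s + q ∧
      ∀ w ∈ NoGrid_seg (fun a => B a b) 0 r, w ∉ U := fun s hs =>
    NoGrid_clean U (fun b => NoGrid_seg (fun a => B a b) 0 r) s q hU
      fun a b w h1 h2 ⟨j, _, j1, j2⟩ ⟨j', _, j3, j4⟩ =>
        (hd j2 j4 j1 (by omega) j3 (by omega)).2
  choose n n1 n2 n3 using hrow
  obtain ⟨l, -, l2, l3⟩ := hcol 0 (by omega)
  obtain ⟨l', k1, k2, k3⟩ := hcol (q + 1) (by omega)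
  have n4 : ∀ i, n i < r := fun i => by have := hm2 i; have := n2 i; omega
  have cC : ∀ b < r, ConnSet A (NoGrid_seg (fun a => B a b) 0 r) := fun b hb =>
    NoGrid_chain _ (by omega) (fun a _ h => g1 a h b hb) fun a _ h => g3 a b h hb
  have cU : ConnSet A (U : Set W) := by
    refine ConnSet.of_root (u := ω) ((mU ω).2 ⟨0, (p 0).end_mem_support⟩) fun v hv => ?_
    obtain ⟨i, hi⟩ := (mU v).1 hv
    exact (rIn_support (p i) (p i).end_mem_support hi).mono fun w hw => (mU w).2 ⟨i, hw⟩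
  have dZ : ∀ b < r, b ≠ q → (∀ w ∈ NoGrid_seg (fun a => B a b) 0 r, w ∉ U) →
      Disjoint (NoGrid_seg (fun a => B a b) 0 r)
        ((U : Set W) ∪ ⋃ i, NoGrid_seg (fun a => B a q) (m i) (n i)) := by
    intro b hb hbq hc
    rw [Set.disjoint_left]
    rintro w hw (h | h)
    · exact hc w hw h
    · obtain ⟨i, a, -, a2, a3⟩ := Set.mem_iUnion.1 h
      obtain ⟨a', -, b2, b3⟩ := hw
      exact hbq (hd b3 a3 b2 hb (a2.trans (n4 i)) (by omega)).2
  have dT : ∀ b < r, b ≤ l ∨ l' ≤ b → ∀ i, Disjoint (NoGrid_seg (fun a => B a b) 0 r)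
      (NoGrid_seg (B (n i)) (l + 1) l') := by
    intro b hb hbl i
    rw [Set.disjoint_left]
    rintro w ⟨a, -, a2, a3⟩ ⟨j, b1, b2, b3⟩
    have := (hd a3 b3 a2 hb (n4 i) (by omega)).2
    omega
  refine NoGrid_K33 (T := fun i => NoGrid_seg (B (n i)) (l + 1) l') (cC l (by omega))
    (cC l' (by omega)) (cU.union_iUnion (T := fun i => NoGrid_seg (fun a => B a q) (m i) (n i))
      fun i => cU.union (NoGrid_chain _ (n1 i)
        (fun a _ h => g1 a (h.trans (n4 i)) q (by omega))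
        fun a _ h => g3 a q (h.trans (n4 i)) (by omega))
        ⟨z i, (mU _).2 ⟨i, (p i).start_mem_support⟩, m i, le_rfl, n1 i, hz i⟩)
    (fun i => NoGrid_chain _ (by omega) (fun a _ h => g1 _ (n4 i) a (by omega))
      fun a _ h => g4 _ a (n4 i) (by omega))
    ?_ (dZ l (by omega) (by omega) l3) (dZ l' (by omega) (by omega) k3) (fun i j h => ?_)
    (dT l (by omega) (Or.inl le_rfl)) (dT l' (by omega) (Or.inr le_rfl)) (fun i => ?_)
    (fun i => ?_) (fun i => ?_) (fun i => ?_) hP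
  · rw [Set.disjoint_left]
    rintro w ⟨a, -, a2, a3⟩ ⟨b, -, b2, b3⟩
    have := (hd a3 b3 a2 (by omega) b2 (by omega)).2
    omega
  · rw [Set.disjoint_left]
    rintro w ⟨a, -, a2, a3⟩ ⟨b, -, b2, b3⟩
    have := (hd a3 b3 (n4 i) (by omega) (n4 j) (by omega)).1
    have := hm1 i j h
    have := n2 i
    have := n1 j
    omega
  · rw [Set.disjoint_left]
    rintro w (h | h) ⟨b, -, b2, b3⟩
    · exact n3 i w ⟨b, Nat.zero_le b, by omega, b3⟩ h
    · obtain ⟨j, a, a1, a2, a3⟩ := Set.mem_iUnion.1 h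
      have := (hd a3 b3 (a2.trans (n4 j)) (by omega) (n4 i) (by omega)).1
      have := n1 i
      have := n2 i
      have := n2 j
      rcases lt_trichotomy i j with e | e | e
      · have := hm1 i j e
        omega
      · subst e
        omega
      · have := hm1 j i e
        omega
  · exact (g4 (n i) l (n4 i) (by omega)).mono
      (NoGrid_sub (fun a => B a l) (Nat.zero_le _) (n4 i)) (NoGrid_sub _ le_rfl (by omega))
  · obtain ⟨b, rfl⟩ : ∃ b, l' = b + 1 := ⟨l' - 1, by omega⟩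
    exact (g4 (n i) b (n4 i) (by omega)).symm.mono
      (NoGrid_sub (fun a => B a (b + 1)) (Nat.zero_le _) (n4 i))
      (NoGrid_sub _ (by omega) (by omega))
  · obtain ⟨a, ha⟩ : ∃ a, n i = a + 1 := ⟨n i - 1, by have := n1 i; omega⟩
    have h1 := g3 a q (ha ▸ n4 i) (by omega)
    rw [← ha] at h1
    refine h1.mono (fun w hw => Or.inr (Set.mem_iUnion.2 ⟨i, a, ?_, ?_, hw⟩))
      (NoGrid_sub _ (by omega) (by omega))
    · have := n1 i
      omega
    · omega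

end Pool.Agent.Lib.MP_e7c4c5_co.Out
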