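import Pool.Agent.Lib.MP_e7c4c5_co.Out.RepDefs
import Pool.Agent.Lib.MP_e7c4c5_co.Out.NoGrid

/-! The branch sets form a minor of the grid. -/

set_option autoImplicit false

namespace Pool.Agent.Lib.MP_e7c4c5_co.Out

open Pool.Agent.Lib.Common.Pl

variable {V : Type} {G : SimpleGraph V} {pos : V → ℕ} {k : ℕ} (S : Slots G pos k)

namespace Slots

/- The next six facts are arithmetic: unfold, use the fields of `S`, `Prod.ext_iff`, `omega`. -/
theorem cell_adj (f : OE G pos) (τ : ℕ) : grid.Adj (S.cell f τ) (S.cell f (τ + 1)) := by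
  have h1 := S.al_lt f
  simp only [grid, cell]
  omega

theorem cell_inj (f : OE G pos) : Function.Injective (S.cell f) := by
  intro τ σ e
  have h1 := S.al_lt f
  simp only [cell, Prod.ext_iff] at e
  omega

theorem cell_above (f : OE G pos) {τ : ℕ} (h0 : 0 < τ) (h1 : τ < S.len f) :
    (S.cell f τ).1 < (S.cell f τ).2 := by
  have h2 := S.al_lt f
  simp only [cell, len] at h1 ⊢
  omega

theorem xt_spec {f g : OE G pos} (h : Crs pos f.e g.e) :
    0 < S.xt f g ∧ S.xt f g < S.len f ∧ S.xt f g % 2 = 0 ∧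
      S.cell f (S.xt f g) = S.cell g (S.xt g f) := by
  have h1 := (S.crs f g).1 h
  have h2 := S.al_even f
  have h3 := S.al_even g
  have h4 := S.de_even f
  have h5 := S.de_even g
  simp only [cell, len, xt, Prod.ext_iff]
  split_ifs <;> omega

theorem xt_inj {f g g' : OE G pos} (h : Crs pos f.e g.e) (h' : Crs pos f.e g'.e)
    (e : S.xt f g = S.xt f g') : g = g' := by
  have h1 := (S.crs f g).1 h
  have h2 := (S.crs f g').1 h'
  simp only [xt] at e
  split_ifs at e
  · exact S.de_inj (by omega)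
  · omega
  · omega
  · exact S.al_inj (by omega)

theorem cell_meet {f g : OE G pos} (hfg : f ≠ g) {τ σ : ℕ} (h0 : 0 < τ) (h1 : τ < S.len f)
    (h2 : 0 < σ) (h3 : σ < S.len g) (e : S.cell f τ = S.cell g σ) :
    Crs pos f.e g.e ∧ τ = S.xt f g ∧ σ = S.xt g f := by
  have k1 : S.al f ≠ S.al g := fun e => hfg (S.al_inj e)
  have k2 : S.de f ≠ S.de g := fun e => hfg (S.de_inj e)
  have k3 := S.al_ne f g
  have k4 := S.al_ne g f
  have k5 := S.al_lt f
  have k6 := S.al_lt g
  rw [S.crs]
  simp only [cell, len, xt, Prod.ext_iff] at h1 h3 e ⊢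
  split_ifs <;> omega

/- `T f` is the image of `{g | S.pay f g}`. -/
theorem T_card [Finite V] (f : OE G pos) : (S.T f).Finite ∧ (S.T f).ncard ≤ k := by
  have e : S.T f = S.xt f '' {g | S.pay f g} := rfl
  rw [e]
  exact ⟨(Set.toFinite _).image _, (Set.ncard_image_le (Set.toFinite _)).trans (S.pay_card f)⟩

/- Two segments of different edges: `cell_meet` and `pay_iff` put one of the times into `T`. -/
theorem B_disj {x y : Nd G pos k} (h : x ≠ y) : Disjoint (S.B x) (S.B y) := by
  rw [Set.disjoint_left]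
  intro p hx hy
  have above : ∀ (f : OE G pos) (j : Fin (k + 1)), p ∈ S.B (some (.inr (f, j))) → p.1 < p.2 := by
    rintro f j ⟨τ, h0, h1, -, -, rfl⟩
    exact S.cell_above f h0 h1
  rcases x with _ | v | ⟨f, j⟩ <;> rcases y with _ | v' | ⟨f', j'⟩
  · exact h rfl
  · simp only [B, Set.mem_ofPred_eq] at hx hy
    omega
  · have := above _ _ hy
    simp only [B, Set.mem_ofPred_eq] at hx
    omega
  · simp only [B, Set.mem_ofPred_eq] at hx hy
    omega
  · have := S.sep v v' fun e => h (by rw [e])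
    simp only [B, Set.mem_ofPred_eq] at hx hy
    omega
  · have := above _ _ hy
    simp only [B, Set.mem_ofPred_eq] at hx
    omega
  · have := above _ _ hx
    simp only [B, Set.mem_ofPred_eq] at hy
    omega
  · have := above _ _ hx
    simp only [B, Set.mem_ofPred_eq] at hy
    omega
  · obtain ⟨τ, h0, h1, h2, h3, h4⟩ := hx
    obtain ⟨σ, k0, k1, k2, k3, k4⟩ := hy
    by_cases hf : f = f'
    · subst hf
      obtain rfl : τ = σ := S.cell_inj f (h4.trans k4.symm)
      exact h (by rw [Fin.ext (h3.symm.trans k3)])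
    · obtain ⟨hc, e1, e2⟩ := S.cell_meet hf h0 h1 k0 k1 (h4.trans k4.symm)
      by_cases hp : S.pay f' f
      · exact k2 ⟨f, hp, e2.symm⟩
      · exact h2 ⟨f', (S.pay_iff f f' hc).2 hp, e1.symm⟩

theorem Cells_mono [Finite V] (f : OE G pos) {τ σ : ℕ} (h : τ ≤ σ) : S.cnt f τ ≤ S.cnt f σ :=
  Set.ncard_le_ncard (fun _ hu => ⟨hu.1, hu.2.trans_le h⟩)
    ((S.T_card f).1.subset fun _ hu => hu.1)

theorem Cells_lt [Finite V] (f : OE G pos) {τ σ τ' : ℕ} (h : τ ≤ σ) (h' : σ < τ')
    (hσ : σ ∈ S.T f) : S.cnt f τ < S.cnt f τ' := by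
  refine Set.ncard_lt_ncard ⟨fun _ hu => ⟨hu.1, by have := hu.2; omega⟩, fun hs => ?_⟩
    ((S.T_card f).1.subset fun _ hu => hu.1)
  have := (hs ⟨hσ, h'⟩).2
  omega

theorem Cells_seg [Finite V] (f : OE G pos) (j : Fin (k + 1)) {τ τ' : ℕ} (h : τ ≤ τ') (h0 : 0 < τ)
    (h1 : τ' < S.len f) (h2 : τ' ∉ S.T f) (h3 : S.cnt f τ = j) (h4 : S.cnt f τ' = j) :
    RIn grid (S.B (some (.inr (f, j)))) (S.cell f τ) (S.cell f τ') := by
  have mem : ∀ σ, τ ≤ σ → σ ≤ τ' → S.cell f σ ∈ S.B (some (.inr (f, j))) := by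
    intro σ k1 k2
    refine ⟨σ, by omega, by omega, fun hσ => ?_, ?_, rfl⟩
    · rcases Nat.eq_or_lt_of_le k2 with e | e
      · exact h2 (e ▸ hσ)
      · have := S.Cells_lt f k1 e hσ
        omega
    · have k3 := S.Cells_mono f k1
      have k4 := S.Cells_mono f k2
      omega
  have key : ∀ σ, τ ≤ σ → σ ≤ τ' →
      RIn grid (S.B (some (.inr (f, j)))) (S.cell f τ) (S.cell f σ) := by
    intro σ k1
    induction σ, k1 using Nat.le_induction with
    | base => exact fun k2 => RIn.refl (mem τ le_rfl k2)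
    | succ σ k1 ih =>
      exact fun k2 => (ih (by omega)).tail (S.cell_adj f σ) (mem _ (by omega) k2)
  exact key τ' h le_rfl

/- The outer set is joined to `(2, 0)` (go down, then left); a staircase is joined to
`(bl v, bl v)`; if `τ ≤ τ'` are times of one segment then no element of `T f` lies in `[τ, τ']`
(else the counts differ), so all times in between belong to the segment. -/
theorem B_conn [Finite V] {x : Nd G pos k} (h : (S.B x).Nonempty) : ConnSet grid (S.B x) := by
  rcases x with _ | v | ⟨f, j⟩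
  · have k1 : ∀ a, 2 ≤ a → RIn grid (S.B none) (2, 0) (a, 0) := by
      intro a ha
      induction a, ha using Nat.le_induction with
      | base => exact RIn.refl (by simp [B])
      | succ a ha ih =>
        exact ih.tail (by simp [grid]) (by simp only [B, Set.mem_ofPred_eq]; omega)
    have k2 : ∀ b a, b + 2 ≤ a → RIn grid (S.B none) (2, 0) (a, b) := by
      intro b
      induction b with
      | zero => exact fun a ha => k1 a (by omega)
      | succ b ih =>
        exact fun a ha => (ih a (by omega)).tail (by simp [grid])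
          (by simp only [B, Set.mem_ofPred_eq]; omega)
    exact ConnSet.of_root (u := (2, 0)) (by simp [B]) fun p hp => k2 p.2 p.1 hp
  · have hb := S.bl_le v
    have k1 : ∀ n, S.bl v ≤ n → n ≤ S.br v →
        RIn grid (S.B (some (.inl v))) (S.bl v, S.bl v) (n, n) := by
      intro n hn
      induction n, hn using Nat.le_induction with
      | base => exact fun _ => RIn.refl (by simp only [B, Set.mem_ofPred_eq]; omega)
      | succ n hn ih =>
        intro h1
        refine ((ih (by omega)).tail (w := (n + 1, n)) (by simp [grid]) ?_).tail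
          (by simp [grid]) ?_ <;>
        · simp only [B, Set.mem_ofPred_eq]
          omega
    refine ConnSet.of_root (u := (S.bl v, S.bl v)) (by simp only [B, Set.mem_ofPred_eq]; omega) ?_
    rintro ⟨a, b⟩ hp
    have hp' := hp
    simp only [B, Set.mem_ofPred_eq] at hp'
    rcases (show a = b ∨ a = b + 1 by omega) with rfl | rfl
    · exact k1 a hp'.1 hp'.2.1
    · exact (k1 b hp'.1 hp'.2.1).tail (by simp [grid]) hp
  · refine ⟨h, ?_⟩
    rintro _ ⟨τ, h0, h1, h2, h3, rfl⟩ _ ⟨σ, k0, k1, k2, k3, rfl⟩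
    rcases le_total τ σ with e | e
    · exact S.Cells_seg f j e h0 k1 k2 h3 k3
    · exact (S.Cells_seg f j e k0 h1 h2 k3 h3).symm

theorem A_planar [Finite V] : Planar S.A :=
  grid_planar.of_minorOn ⟨S.B, fun _ ⟨_, _, a, ha, _⟩ => S.B_conn ⟨a, ha⟩,
    fun _ _ _ _ h => S.B_disj h, fun _ _ h => h.2⟩

end Slots

end Pool.Agent.Lib.MP_e7c4c5_co.Out
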