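import Pool.Agent.Lib.MP_e7c4c5_co.Out.Colour
import Pool.Agent.Lib.MP_e7c4c5_co.Sub.Sample

/-! A good order and colouring of an outer gap-planar graph. -/

set_option autoImplicit false

namespace Pool.Agent.Lib.MP_e7c4c5_co.Out

variable {V : Type}

private theorem Chords_half {pos : V → ℕ} (hp : Function.Injective pos) (S : Finset V)
    (F : Finset (V × V)) (h1 : ∀ p ∈ F, p.1 ∈ S ∧ p.2 ∈ S ∧ pos p.1 < pos p.2)
    (h2 : ∀ p ∈ F, ∀ q ∈ F, ¬ Crs pos s(p.1, p.2) s(q.1, q.2)) : F.card ≤ 2 * S.card := by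
  classical
  have key := Finset.card_le_card_of_injOn (s := F) (t := S ×ˢ (Finset.univ : Finset Bool))
    (fun p => if ∃ b, (p.1, b) ∈ F ∧ pos p.2 < pos b then (p.2, true) else (p.1, false))
    (fun p hp' => by
      have := h1 p hp'
      simp only [Finset.coe_product, Finset.coe_univ, Set.mem_prod, Finset.mem_coe, Set.mem_univ,
        and_true]
      split_ifs
      exacts [this.2.1, this.1])
    (by
      rintro ⟨a, b⟩ hab ⟨a', b'⟩ hab' h
      have k1 := (h1 _ hab).2.2
      have k2 := (h1 _ hab').2.2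
      simp only at h k1 k2
      split_ifs at h with c1 c2 c2
      · obtain rfl : b = b' := congrArg Prod.fst h
        obtain ⟨d, d1, d2⟩ := c1
        obtain ⟨d', d1', d2'⟩ := c2
        have k3 := h2 _ hab' _ d1
        have k4 := h2 _ hab _ d1'
        simp only [crs_iff] at k3 k4
        rw [hp (show pos a = pos a' by omega)]
      · exact absurd (congrArg Prod.snd h) (by simp)
      · exact absurd (congrArg Prod.snd h) (by simp)
      · obtain rfl : a = a' := congrArg Prod.fst h
        have k3 : ¬ pos b < pos b' := fun h' => c1 ⟨b', hab', h'⟩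
        have k4 : ¬ pos b' < pos b := fun h' => c2 ⟨b, hab, h'⟩
        rw [hp (show pos b = pos b' by omega)])
  simpa [mul_comm] using key

private theorem Chords_ends [DecidableEq V] (T : Finset (Sym2 V)) :
    (T.biUnion Sym2.toFinset).card ≤ T.card * 2 :=
  Finset.card_biUnion_le_card_mul _ _ _ fun e _ => by
    rw [Sym2.card_toFinset]
    split_ifs <;> omega

private theorem Chords_mem [DecidableEq V] {T : Finset (Sym2 V)} {e : Sym2 V} (h : e ∈ T) {v : V}
    (hv : v ∈ e) : v ∈ T.biUnion Sym2.toFinset :=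
  Finset.mem_biUnion.mpr ⟨e, h, Sym2.mem_toFinset.mpr hv⟩

/- For the pairs with `pos p.1 < pos p.2` use the map to `S × Bool`: `(a, b) ↦ (a, false)` if no
`b'` with `pos b < pos b'` has `(a, b')` or `(b', a)` in `F`, and `(b, true)` otherwise.  In the second case
no `a'` with `pos a' < pos a` is joined to `b` (the chords `a' b` and `a b'` would cross), so
the map is injective.  The pairs with `pos p.2 < pos p.1` are symmetric (`Prod.swap`). -/
theorem card_noncross {pos : V → ℕ} (hp : Function.Injective pos) (S : Finset V)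
    (F : Finset (V × V)) (h1 : ∀ p ∈ F, p.1 ∈ S ∧ p.2 ∈ S ∧ p.1 ≠ p.2)
    (h2 : ∀ p ∈ F, ∀ q ∈ F, ¬ Crs pos s(p.1, p.2) s(q.1, q.2)) : F.card ≤ 4 * S.card := by
  classical
  have a1 := Chords_half hp S (F.filter fun p => pos p.1 < pos p.2)
    (fun p h => by
      rw [Finset.mem_filter] at h
      exact ⟨(h1 p h.1).1, (h1 p h.1).2.1, h.2⟩)
    fun p h q h' => h2 p (Finset.mem_filter.mp h).1 q (Finset.mem_filter.mp h').1
  have a2 := Chords_half hp S ((F.filter fun p => ¬ pos p.1 < pos p.2).image Prod.swap)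
    (fun p h => by
      obtain ⟨q, hq, rfl⟩ := Finset.mem_image.mp h
      rw [Finset.mem_filter] at hq
      have := h1 q hq.1
      exact ⟨this.2.1, this.1, lt_of_le_of_ne (not_lt.mp hq.2) fun h' => this.2.2 (hp h').symm⟩)
    fun p h q h' => by
      obtain ⟨p', hp', rfl⟩ := Finset.mem_image.mp h
      obtain ⟨q', hq', rfl⟩ := Finset.mem_image.mp h'
      have := h2 p' (Finset.mem_filter.mp hp').1 q' (Finset.mem_filter.mp hq').1
      rwa [Sym2.eq_swap, Sym2.eq_swap (a := q'.1)] at this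
  rw [Finset.card_image_of_injective _ Prod.swap_injective] at a2
  have a3 := Finset.card_filter_add_card_filter_not (s := F) fun p => pos p.1 < pos p.2
  omega

private theorem Chords_ne {pos : V → ℕ} {a b c d : V} (h : Crs pos s(a, b) s(c, d)) :
    pos a ≠ pos c ∧ pos a ≠ pos d ∧ pos b ≠ pos c ∧ pos b ≠ pos d := by
  rw [crs_iff] at h
  omega

private theorem Chords_par {pos : V → ℕ} {a b c d : V} (h1 : pos a ≠ pos c) (h2 : pos a ≠ pos d)
    (h3 : pos b ≠ pos c) (h4 : pos b ≠ pos d) : Crs pos s(a, b) s(c, d) ↔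
      xor (xor (decide (pos a < pos c)) (decide (pos b < pos c)))
        (xor (decide (pos a < pos d)) (decide (pos b < pos d))) = true := by
  rw [crs_iff]
  by_cases k1 : pos a < pos c <;> by_cases k2 : pos b < pos c <;> by_cases k3 : pos a < pos d <;>
    by_cases k4 : pos b < pos d <;> simp only [k1, k2, k3, k4, decide_true, decide_false,
      Bool.xor_self, Bool.xor_false, Bool.xor_true, Bool.not_false,
      Bool.false_eq_true, iff_true, iff_false] <;> omega

/- Two disjoint paths of length two with alternating ends cross (`crs_iff`, `omega`). -/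
theorem crs_path {pos : V → ℕ} (hp : Function.Injective pos) {a b c d v w : V}
    (h : Crs pos s(a, b) s(c, d)) (hvw : v ≠ w) (hv : v ≠ a ∧ v ≠ b ∧ v ≠ c ∧ v ≠ d)
    (hw : w ≠ a ∧ w ≠ b ∧ w ≠ c ∧ w ≠ d) :
    Crs pos s(v, a) s(w, c) ∨ Crs pos s(v, a) s(w, d) ∨ Crs pos s(v, b) s(w, c) ∨
      Crs pos s(v, b) s(w, d) := by
  have a0 := hp.ne hvw
  have a3 := hp.ne hv.2.2.1
  have a4 := hp.ne hv.2.2.2
  have b1 := hp.ne hw.1
  have b2 := hp.ne hw.2.1
  obtain ⟨c1, c2, c3, c4⟩ := Chords_ne h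
  rw [Chords_par c1 c2 c3 c4] at h
  rw [Chords_par a0 a3 b1.symm c1, Chords_par a0 a4 b1.symm c2, Chords_par a0 a3 b2.symm c3,
    Chords_par a0 a4 b2.symm c4]
  revert h
  generalize decide (pos a < pos c) = x1, decide (pos a < pos d) = x2, decide (pos b < pos c) = x3,
    decide (pos b < pos d) = x4, decide (pos v < pos w) = x5, decide (pos a < pos w) = x6,
    decide (pos b < pos w) = x7, decide (pos v < pos c) = x8, decide (pos v < pos d) = x9
  revert x1 x2 x3 x4 x5 x6 x7 x8 x9
  decide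

/- `Sub.sample` with `κ = 2 * k + 1`, the cover of `(a, b)` is the set of ends of the edges in
`ch s(a, b)`; the surviving pairs do not cross, so `card_noncross` applies.  Then
`order_of_sparse`. -/
theorem exists_order {k : ℕ} [Finite V] {G : SimpleGraph V} {pos : V → ℕ}
    {ch : Sym2 V → Finset (Sym2 V)} (h : Outer G k pos ch) :
    ∃ rk : V → ℕ, Function.Injective rk ∧
      ∀ v, {u | G.Adj u v ∧ rk u < rk v}.ncard ≤ 32 * (2 * k + 1) := by
  classical
  cases nonempty_fintype V
  refine order_of_sparse G _ fun X F hF => ?_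
  refine Sub.sample (2 * k + 1) (by omega) X F (fun e => (ch s(e.1, e.2)).biUnion Sym2.toFinset)
    (fun e he => ⟨(hF e he).1, (hF e he).2.1, (hF e he).2.2.ne⟩) (fun e _ => ?_)
    fun S F' _ hF' hS => ?_
  · have a1 := Chords_ends (ch s(e.1, e.2))
    have a2 := h.card s(e.1, e.2)
    omega
  · have key : ∀ p ∈ F', ∀ q ∈ F', Crs pos s(p.1, p.2) s(q.1, q.2) →
        s(q.1, q.2) ∉ ch s(p.1, p.2) := fun p hp q hq hc hm => by
      refine hc.symm.not_mem (Sym2.mem_mk_left _ _) ?_
      rw [Sym2.mem_iff]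
      exact (hS p hp).2.2 q.1 (Chords_mem hm (Sym2.mem_mk_left _ _)) (hS q hq).1
    have a1 := card_noncross h.inj S F'
      (fun p hp => ⟨(hS p hp).1, (hS p hp).2.1, (hF p (hF' hp)).2.2.ne⟩) fun p hp q hq hc =>
        (h.pay _ (hF p (hF' hp)).2.2 _ (hF q (hF' hq)).2.2 hc).elim (key p hp q hq hc)
          (key q hq p hp hc.symm)
    omega

/- Take `rk` from `exists_order`, `d = 32 * (2 * k + 1)`.  First colouring: `colour_out` for
`R v u :=` (`u` is an earlier neighbour of `v`, or an earlier neighbour of an earlier neighbour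
of `v`), out-degree at most `d + d * d`.  Second colouring: let `Q.Adj a b` mean `a ≠ b` and
some `v` has both as earlier neighbours.  `Q` is sparse by `Sub.sample` with `κ = d + 1 + 4 * k`:
fix a witness `v` for each pair `(a, b)`, its cover consists of `v`, the earlier neighbours of
`v` and the ends of the edges in `ch s(v, a) ∪ ch s(v, b)`.  If two surviving pairs `(a, b)`,
`(c, d)` with witnesses `v`, `w` cross then `v, w ∉ S`, `v ≠ w` (else `c` is in the first cover),
`crs_path` gives crossing edges, one is charged to the other, and its end among `a, b, c, d`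
lies in the cover of the other pair, which contradicts `Crs.not_mem`.  Then `order_of_sparse`
and `greedy`.  Take the product of the colourings (`finProdFinEquiv`). -/
theorem exists_display (k : ℕ) : ∃ m : ℕ, ∀ (V : Type) [Finite V] (G : SimpleGraph V)
    (pos : V → ℕ) (ch : Sym2 V → Finset (Sym2 V)), Outer G k pos ch →
    ∃ (rk : V → ℕ) (φ : V → Fin m), Function.Injective rk ∧ (∀ u v, G.Adj u v → φ u ≠ φ v) ∧
      (∀ u u' v, G.Adj u v → G.Adj u' v → rk u < rk v → rk u' < rk v → φ u = φ u' → u = u') ∧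
      ∀ u v w, G.Adj u v → G.Adj v w → rk u < rk v → rk v < rk w → φ u ≠ φ w := by
  classical
  obtain ⟨d, hd⟩ : ∃ d, d = 32 * (2 * k + 1) := ⟨_, rfl⟩
  refine ⟨(2 * (d + d * d) + 1) * (32 * (d + 1 + 4 * k) + 1), fun V _ G pos ch h => ?_⟩
  cases nonempty_fintype V
  obtain ⟨rk, hrk, hdeg⟩ := exists_order h
  obtain ⟨E, hE, hEc⟩ : ∃ E : V → Finset V, (∀ v u, u ∈ E v ↔ G.Adj u v ∧ rk u < rk v) ∧
      ∀ v, (E v).card ≤ d := by
    refine ⟨fun v => Finset.univ.filter fun u => G.Adj u v ∧ rk u < rk v, fun v u => by simp,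
      fun v => ?_⟩
    have := hdeg v
    rwa [← hd, Set.ncard_eq_toFinset_card', Set.toFinset_ofPred] at this
  obtain ⟨c1, hc1⟩ := colour_out (fun v u => u ∈ E v ∪ (E v).biUnion E) (d + d * d) fun v => by
    rw [Finset.setOfPred_mem, Set.ncard_coe_finset]
    refine (Finset.card_union_le _ _).trans (Nat.add_le_add (hEc v) ?_)
    exact (Finset.card_biUnion_le_card_mul _ _ _ fun w _ => hEc w).trans
      (Nat.mul_le_mul_right d (hEc v))
  let Q : SimpleGraph V :=
    { Adj := fun a b => a ≠ b ∧ ∃ v, a ∈ E v ∧ b ∈ E v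
      symm := ⟨fun a b ⟨h1, v, h2, h3⟩ => ⟨h1.symm, v, h3, h2⟩⟩
      loopless := ⟨fun a h1 => h1.1 rfl⟩ }
  obtain ⟨rk2, hrk2, hdeg2⟩ := order_of_sparse Q (32 * (d + 1 + 4 * k)) fun X F hF => by
    have hw : ∀ e : V × V, ∃ v, e ∈ F → e.1 ∈ E v ∧ e.2 ∈ E v := fun e => by
      by_cases he : e ∈ F
      · obtain ⟨v, hv⟩ := (hF e he).2.2.2
        exact ⟨v, fun _ => hv⟩
      · exact ⟨e.1, fun h' => absurd h' he⟩
    choose wit hwit using hw
    refine Sub.sample (d + 1 + 4 * k) (by omega) X F (fun e => insert (wit e) (E (wit e)) ∪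
      (ch s(wit e, e.1) ∪ ch s(wit e, e.2)).biUnion Sym2.toFinset)
      (fun e he => ⟨(hF e he).1, (hF e he).2.1, (hF e he).2.2.1⟩) (fun e _ => ?_)
      fun S F' _ hF' hS => ?_
    · have a1 := Chords_ends (ch s(wit e, e.1) ∪ ch s(wit e, e.2))
      have a2 := h.card s(wit e, e.1)
      have a3 := h.card s(wit e, e.2)
      have a4 := Finset.card_union_le (ch s(wit e, e.1)) (ch s(wit e, e.2))
      have a5 := Finset.card_insert_le (wit e) (E (wit e))
      have a6 := hEc (wit e)
      refine (Finset.card_union_le _ _).trans ?_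
      omega
    · have adj : ∀ p ∈ F', ∀ x, x = p.1 ∨ x = p.2 → x ∈ S ∧ x ∈ E (wit p) := by
        rintro p hp _ (rfl | rfl)
        exacts [⟨(hS p hp).1, (hwit p (hF' hp)).1⟩, ⟨(hS p hp).2.1, (hwit p (hF' hp)).2⟩]
      have out : ∀ p ∈ F', ∀ x ∈ S, wit p ≠ x := by
        rintro p hp _ hx rfl
        have a1 := (hS p hp).2.2 _
          (Finset.mem_union_left _ (Finset.mem_insert_self _ _)) hx
        exact ((hE _ _).mp (adj p hp _ a1).2).1.ne rfl
      have key : ∀ p ∈ F', ∀ q ∈ F', Crs pos s(p.1, p.2) s(q.1, q.2) → ∀ x y,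
          x = p.1 ∨ x = p.2 → y = q.1 ∨ y = q.2 → s(wit q, y) ∉ ch s(wit p, x) := by
        intro p hp q hq hc x y hx hy hm
        refine hc.symm.not_mem (Sym2.mem_iff.mpr hy) (Sym2.mem_iff.mpr ?_)
        refine (hS p hp).2.2 y (Finset.mem_union_right _ 
          (Chords_mem ?_ (Sym2.mem_mk_right (wit q) _)))
          (adj q hq y hy).1
        rcases hx with rfl | rfl
        exacts [Finset.mem_union_left _ hm, Finset.mem_union_right _ hm]
      have a1 := card_noncross h.inj S F'
        (fun p hp => ⟨(hS p hp).1, (hS p hp).2.1, (hF p (hF' hp)).2.2.1⟩) fun p hp q hq hc => by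
          have fin : ∀ x y, x = p.1 ∨ x = p.2 → y = q.1 ∨ y = q.2 →
              ¬ Crs pos s(wit p, x) s(wit q, y) := fun x y hx hy hc' =>
            (h.pay _ ((hE _ _).mp (adj p hp x hx).2).1.symm _
              ((hE _ _).mp (adj q hq y hy).2).1.symm hc').elim (key p hp q hq hc x y hx hy)
              (key q hq p hp hc.symm y x hy hx)
          have hne : wit p ≠ wit q := fun he => by
            refine hc.symm.not_mem (Sym2.mem_mk_left _ _) (Sym2.mem_iff.mpr ?_)
            exact (hS p hp).2.2 q.1 (Finset.mem_union_left _ (Finset.mem_insert_of_mem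
              (he ▸ (adj q hq _ (Or.inl rfl)).2))) (hS q hq).1
          have b1 := hS p hp
          have b2 := hS q hq
          rcases crs_path h.inj hc hne
            ⟨out p hp _ b1.1, out p hp _ b1.2.1, out p hp _ b2.1, out p hp _ b2.2.1⟩
            ⟨out q hq _ b1.1, out q hq _ b1.2.1, out q hq _ b2.1, out q hq _ b2.2.1⟩ with
            h' | h' | h' | h'
          exacts [fin _ _ (Or.inl rfl) (Or.inl rfl) h', fin _ _ (Or.inl rfl) (Or.inr rfl) h',
            fin _ _ (Or.inr rfl) (Or.inl rfl) h', fin _ _ (Or.inr rfl) (Or.inr rfl) h']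
      omega
  obtain ⟨c2, hc2⟩ := greedy Q _ rk2 hrk2 hdeg2
  have inj : ∀ u v, finProdFinEquiv (c1 u, c2 u) = finProdFinEquiv (c1 v, c2 v) →
      c1 u = c1 v ∧ c2 u = c2 v := fun u v h' => Prod.mk.inj (finProdFinEquiv.injective h')
  refine ⟨rk, fun v => finProdFinEquiv (c1 v, c2 v), hrk, fun u v huv h' => ?_,
    fun u u' v h1 h2 h3 h4 h' => ?_, fun u v w h1 h2 h3 h4 h' => ?_⟩
  · rcases lt_or_gt_of_ne (hrk.ne huv.ne) with h1 | h1
    · exact hc1 v u huv.ne' (Finset.mem_union_left _ ((hE v u).mpr ⟨huv, h1⟩)) (inj u v h').1.symm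
    · exact hc1 u v huv.ne (Finset.mem_union_left _ ((hE u v).mpr ⟨huv.symm, h1⟩)) (inj u v h').1
  · by_contra hne
    exact hc2 u u' ⟨hne, v, (hE v u).mpr ⟨h1, h3⟩, (hE v u').mpr ⟨h2, h4⟩⟩ (inj u u' h').2
  · refine hc1 w u (fun he => ?_) (Finset.mem_union_right _ (Finset.mem_biUnion.mpr
      ⟨v, (hE w v).mpr ⟨h2, h4⟩, (hE v u).mpr ⟨h1, h3⟩⟩)) (inj u w h').1.symm
    rw [he] at h4
    omega

end Pool.Agent.Lib.MP_e7c4c5_co.Out
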