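import Pool.Agent.Lib.MP_e7c4c5_co.Out.Defs

/-! Orders and colourings of sparse graphs. -/

set_option autoImplicit false

namespace Pool.Agent.Lib.MP_e7c4c5_co.Out

variable {V : Type}

/- Induction on a finite set `X`: there is `r`, injective on `X`, with the back-degree bound
inside `X`.  A nonempty `X` has a vertex `v` with at most `m` neighbours in `X` (double counting:
the pairs are fibred over the first coordinate); order `X \ {v}` and put `v` last. -/
theorem order_of_sparse [Finite V] (Q : SimpleGraph V) (m : ℕ)
    (h : ∀ (X : Finset V) (F : Finset (V × V)),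
      (∀ p ∈ F, p.1 ∈ X ∧ p.2 ∈ X ∧ Q.Adj p.1 p.2) → F.card ≤ m * X.card) :
    ∃ rk : V → ℕ, Function.Injective rk ∧ ∀ v, {u | Q.Adj u v ∧ rk u < rk v}.ncard ≤ m := by
  classical
  have low : ∀ X : Finset V, X.Nonempty → ∃ v ∈ X, (X.filter fun u => Q.Adj u v).card ≤ m := by
    intro X hX
    by_contra hc
    push Not at hc
    have e := h X ((X ×ˢ X).filter fun p => Q.Adj p.1 p.2) fun p hp => by
      simpa [and_assoc] using hp
    rw [Finset.card_filter, Finset.sum_product_right] at e
    have e1 : ∑ v ∈ X, m < ∑ v ∈ X, ∑ u ∈ X, if Q.Adj u v then 1 else 0 :=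
      Finset.sum_lt_sum_of_nonempty hX fun v hv => by
        rw [← Finset.card_filter]
        exact hc v hv
    rw [Finset.sum_const, smul_eq_mul, mul_comm] at e1
    exact absurd e (not_le.2 e1)
  have key : ∀ (n : ℕ) (X : Finset V), X.card = n → ∃ r : V → ℕ, Set.InjOn r X ∧
      (∀ u ∈ X, r u < n) ∧ ∀ v ∈ X, (X.filter fun u => Q.Adj u v ∧ r u < r v).card ≤ m := by
    intro n
    induction n with
    | zero =>
      intro X hX
      obtain rfl := Finset.card_eq_zero.1 hX
      exact ⟨fun _ => 0, by simp, by simp, by simp⟩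
    | succ n ih =>
      intro X hX
      obtain ⟨v, hv, hm⟩ := low X (Finset.card_pos.1 (by omega))
      obtain ⟨r, r1, r2, r3⟩ := ih (X.erase v) (by rw [Finset.card_erase_of_mem hv, hX]; rfl)
      have r4 : ∀ u ∈ X, u ≠ v → r u < n := fun u hu e => r2 u (Finset.mem_erase.2 ⟨e, hu⟩)
      refine ⟨Function.update r v n, fun a ha b hb e => ?_, fun u hu => ?_, fun w hw => ?_⟩
      · by_cases e1 : a = v <;> by_cases e2 : b = v
        · rw [e1, e2]
        · rw [e1, Function.update_self, Function.update_of_ne e2] at e
          exact absurd (r4 b hb e2) (by omega)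
        · rw [e2, Function.update_self, Function.update_of_ne e1] at e
          exact absurd (r4 a ha e1) (by omega)
        · rw [Function.update_of_ne e1, Function.update_of_ne e2] at e
          exact r1 (by simpa using ⟨ha, e1⟩) (by simpa using ⟨hb, e2⟩) e
      · by_cases e1 : u = v
        · rw [e1, Function.update_self]
          omega
        · rw [Function.update_of_ne e1]
          exact (r4 u hu e1).trans (Nat.lt_succ_self n)
      · by_cases e1 : w = v
        · subst e1
          refine le_trans (Finset.card_le_card fun u hu => ?_) hm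
          rw [Finset.mem_filter] at hu ⊢
          exact ⟨hu.1, hu.2.1⟩
        · refine le_trans (Finset.card_le_card fun u hu => ?_)
            (r3 w (Finset.mem_erase.2 ⟨e1, hw⟩))
          rw [Finset.mem_filter, Function.update_of_ne e1] at hu
          have e2 : u ≠ v := by
            rintro rfl
            rw [Function.update_self] at hu
            exact absurd (r4 w hw e1) (by omega)
          rw [Function.update_of_ne e2] at hu
          exact Finset.mem_filter.2 ⟨Finset.mem_erase.2 ⟨e2, hu.1⟩, hu.2⟩
  have := Fintype.ofFinite V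
  obtain ⟨r, r1, -, r3⟩ := key _ Finset.univ rfl
  refine ⟨r, fun a b e => r1 (by simp) (by simp) e, fun v => ?_⟩
  have e := r3 v (Finset.mem_univ v)
  rw [← Set.ncard_coe_finset] at e
  simpa using e

/- Greedy colouring along `rk`: induction on `n`, colour the vertices with `rk v < n`. -/
theorem greedy [Finite V] (Q : SimpleGraph V) (m : ℕ) (rk : V → ℕ) (hrk : Function.Injective rk)
    (h : ∀ v, {u | Q.Adj u v ∧ rk u < rk v}.ncard ≤ m) :
    ∃ c : V → Fin (m + 1), ∀ u v, Q.Adj u v → c u ≠ c v := by
  classical
  have key : ∀ n : ℕ, ∃ c : V → Fin (m + 1), ∀ u v, Q.Adj u v → rk u < n → rk v < n →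
      c u ≠ c v := by
    intro n
    induction n with
    | zero => exact ⟨fun _ => 0, fun _ _ _ h => by omega⟩
    | succ n ih =>
      obtain ⟨c, hc⟩ := ih
      by_cases hn : ∃ w, rk w = n
      · obtain ⟨w, hw⟩ := hn
        obtain ⟨a, ha⟩ : ∃ a, a ∉ c '' {u | Q.Adj u w ∧ rk u < rk w} := by
          by_contra hcon
          push Not at hcon
          have e := (Set.ncard_image_le (f := c) (s := {u | Q.Adj u w ∧ rk u < rk w})).trans (h w)
          rw [Set.eq_univ_of_forall hcon, Set.ncard_univ, Nat.card_eq_fintype_card,
            Fintype.card_fin] at e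
          omega
        have side : ∀ u, Q.Adj u w → rk u < n + 1 →
            Function.update c w a u ≠ Function.update c w a w := by
          intro u hu h1
          have e1 : rk u ≠ rk w := fun e => hu.ne (hrk e)
          rw [Function.update_self, Function.update_of_ne hu.ne]
          exact fun e => ha ⟨u, ⟨hu, by omega⟩, e⟩
        refine ⟨Function.update c w a, fun u v huv h1 h2 => ?_⟩
        by_cases e1 : v = w
        · subst e1
          exact side u huv h1
        by_cases e2 : u = w
        · subst e2
          exact (side v huv.symm h2).symm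
        have e3 : rk v ≠ rk w := fun e => e1 (hrk e)
        have e4 : rk u ≠ rk w := fun e => e2 (hrk e)
        rw [Function.update_of_ne e1, Function.update_of_ne e2]
        exact hc u v huv (by omega) (by omega)
      · push Not at hn
        refine ⟨c, fun u v huv h1 h2 => hc u v huv ?_ ?_⟩
        · have := hn u
          omega
        · have := hn v
          omega
  obtain ⟨M, hM⟩ := (Set.finite_range rk).bddAbove
  obtain ⟨c, hc⟩ := key (M + 1)
  exact ⟨c, fun u v huv => hc u v huv (Nat.lt_succ_of_le (hM ⟨u, rfl⟩))
    (Nat.lt_succ_of_le (hM ⟨v, rfl⟩))⟩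

/- `Q = SimpleGraph.fromRel R`; a set of adjacent pairs inside `X` is covered by the pairs with
`R p.1 p.2` and those with `R p.2 p.1`, at most `m * X.card` of each kind. -/
theorem colour_out [Finite V] (R : V → V → Prop) (m : ℕ) (h : ∀ v, {u | R v u}.ncard ≤ m) :
    ∃ c : V → Fin (2 * m + 1), ∀ u v, u ≠ v → R u v → c u ≠ c v := by
  classical
  have one : ∀ X : Finset V, ((X ×ˢ X).filter fun p => R p.1 p.2).card ≤ m * X.card := by
    intro X
    rw [Finset.card_filter, Finset.sum_product, mul_comm, ← smul_eq_mul]
    refine Finset.sum_le_card_nsmul _ _ _ fun v _ => ?_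
    rw [← Finset.card_filter (fun u => R v u), ← Set.ncard_coe_finset]
    exact (Set.ncard_le_ncard fun u hu => (Finset.mem_filter.1 hu).2).trans (h v)
  obtain ⟨rk, h1, h2⟩ := order_of_sparse (SimpleGraph.fromRel R) (2 * m) fun X F hF => by
    have e1 : F ⊆ ((X ×ˢ X).filter fun p => R p.1 p.2) ∪
        ((X ×ˢ X).filter fun p => R p.1 p.2).image Prod.swap := by
      intro p hp
      obtain ⟨a1, a2, a3⟩ := hF p hp
      rcases ((SimpleGraph.fromRel_adj R _ _).1 a3).2 with e | e
      · exact Finset.mem_union_left _ (by simp [a1, a2, e])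
      · exact Finset.mem_union_right _ (Finset.mem_image.2 ⟨p.swap, by simp [a1, a2, e], rfl⟩)
    have e2 := (Finset.card_le_card e1).trans (Finset.card_union_le _ _)
    have e3 := Finset.card_image_le (s := (X ×ˢ X).filter fun p => R p.1 p.2) (f := Prod.swap)
    have e4 := one X
    rw [mul_assoc]
    omega
  obtain ⟨c, hc⟩ := greedy _ _ rk h1 h2
  exact ⟨c, fun u v e hR => hc u v ((SimpleGraph.fromRel_adj R _ _).2 ⟨e, Or.inl hR⟩)⟩

end Pool.Agent.Lib.MP_e7c4c5_co.Out
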