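import Pool.Agent.Lib.Common.Planar.Basic

/-!
Vocabulary for the nonrepetitive colouring of outer gap-planar graphs.
-/

set_option autoImplicit false

namespace Pool.Agent.Lib.MP_e7c4c5_co.Out

open Pool.Agent.Lib.Common.Pl

variable {V W : Type}

/-- The chords `e` and `f` cross: their four ends alternate in the order given by `pos`. -/
def Crs (pos : V → ℕ) (e f : Sym2 V) : Prop :=
  ∃ a b c d, pos a < pos b ∧ pos b < pos c ∧ pos c < pos d ∧
    (e = s(a, c) ∧ f = s(b, d) ∨ f = s(a, c) ∧ e = s(b, d))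

theorem Crs.symm {pos : V → ℕ} {e f : Sym2 V} (h : Crs pos e f) : Crs pos f e := by
  obtain ⟨a, b, c, d, h1, h2, h3, h4⟩ := h
  exact ⟨a, b, c, d, h1, h2, h3, h4.symm⟩

/-- A form of `Crs` that `omega` understands. -/
theorem crs_iff {pos : V → ℕ} {a b c d : V} : Crs pos s(a, b) s(c, d) ↔
    (min (pos a) (pos b) < min (pos c) (pos d) ∧ min (pos c) (pos d) < max (pos a) (pos b) ∧
      max (pos a) (pos b) < max (pos c) (pos d)) ∨
    (min (pos c) (pos d) < min (pos a) (pos b) ∧ min (pos a) (pos b) < max (pos c) (pos d) ∧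
      max (pos c) (pos d) < max (pos a) (pos b)) := by
  have key : ∀ a b c d : V, min (pos a) (pos b) < min (pos c) (pos d) →
      min (pos c) (pos d) < max (pos a) (pos b) → max (pos a) (pos b) < max (pos c) (pos d) →
      Crs pos s(a, b) s(c, d) := by
    intro a b c d h1 h2 h3
    rcases le_total (pos a) (pos b) with k1 | k1 <;> rcases le_total (pos c) (pos d) with k2 | k2
    · exact ⟨a, c, b, d, by omega, by omega, by omega, Or.inl ⟨rfl, rfl⟩⟩
    · exact ⟨a, d, b, c, by omega, by omega, by omega, Or.inl ⟨rfl, Sym2.eq_swap⟩⟩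
    · exact ⟨b, c, a, d, by omega, by omega, by omega, Or.inl ⟨Sym2.eq_swap, rfl⟩⟩
    · exact ⟨b, d, a, c, by omega, by omega, by omega, Or.inl ⟨Sym2.eq_swap, Sym2.eq_swap⟩⟩
  constructor
  · rintro ⟨p, q, r, s, h1, h2, h3, ⟨h4, h5⟩ | ⟨h5, h4⟩⟩ <;>
      rcases Sym2.eq_iff.1 h4 with ⟨rfl, rfl⟩ | ⟨rfl, rfl⟩ <;>
      rcases Sym2.eq_iff.1 h5 with ⟨rfl, rfl⟩ | ⟨rfl, rfl⟩ <;> omega
  · rintro (⟨h1, h2, h3⟩ | ⟨h1, h2, h3⟩)
    · exact key a b c d h1 h2 h3
    · exact (key c d a b h1 h2 h3).symm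

theorem Crs.irrefl {pos : V → ℕ} {e : Sym2 V} : ¬ Crs pos e e := by
  induction e with | _ a b => rw [crs_iff]; omega

/-- Crossing chords have no common end. -/
theorem Crs.not_mem {pos : V → ℕ} {e f : Sym2 V} (h : Crs pos e f) {v : V} (he : v ∈ e) :
    v ∉ f := by
  intro hf
  obtain ⟨a, rfl⟩ := Sym2.mem_iff_exists.1 he
  obtain ⟨b, rfl⟩ := Sym2.mem_iff_exists.1 hf
  rw [crs_iff] at h
  omega

/-- A circular drawing in which every crossing is charged to one of its two edges, at most `k`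
to each edge. -/
structure Outer (G : SimpleGraph V) (k : ℕ) (pos : V → ℕ) (ch : Sym2 V → Finset (Sym2 V)) :
    Prop where
  inj : Function.Injective pos
  card : ∀ e, (ch e).card ≤ k
  pay : ∀ e ∈ G.edgeSet, ∀ f ∈ G.edgeSet, Crs pos e f → f ∈ ch e ∨ e ∈ ch f

/-- The earlier neighbours of every vertex form a clique with at most `w` vertices. -/
structure PEO (H : SimpleGraph W) (rk : W → ℕ) (w : ℕ) : Prop where
  inj : Function.Injective rk
  clique : ∀ x y z, H.Adj x z → H.Adj y z → rk x < rk z → rk y < rk z → x = y ∨ H.Adj x y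
  deg : ∀ z, {x | H.Adj x z ∧ rk x < rk z}.ncard ≤ w

/-- `a 0, …, a (m - 1)` is a lazy walk. -/
def Lazy (H : SimpleGraph W) (a : ℕ → W) (m : ℕ) : Prop :=
  ∀ i, i + 1 < m → a i = a (i + 1) ∨ H.Adj (a i) (a (i + 1))

/-- In every repetitively coloured lazy walk the two halves look alike from the earliest
vertex. -/
def KPcol {α : Type} (H : SimpleGraph W) (rk : W → ℕ) (c : W → α) : Prop :=
  ∀ (T : ℕ) (a : ℕ → W) (x : W), Lazy H a (2 * T) → (∀ i < T, c (a i) = c (a (T + i))) →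
    (∃ i < 2 * T, a i = x) → (∀ i < 2 * T, rk x ≤ rk (a i)) →
    ∀ i < T, (a i = x ↔ a (T + i) = x) ∧ (H.Adj x (a i) ↔ H.Adj x (a (T + i)))

/-- Such a colouring is proper. -/
theorem KPcol.proper {α : Type} {H : SimpleGraph W} {rk : W → ℕ} {c : W → α} (h : KPcol H rk c)
    {x y : W} (hxy : H.Adj x y) : c x ≠ c y := by
  intro e
  wlog hr : rk x ≤ rk y generalizing x y
  · exact this hxy.symm e.symm (by omega)
  have := h 1 (fun i => if i = 0 then x else y) x
    (fun i hi => by obtain rfl : i = 0 := by omega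
                    exact Or.inr (by simpa using hxy))
    (fun i hi => by obtain rfl : i = 0 := by omega
                    simpa using e)
    ⟨0, by omega, by simp⟩ (fun i _ => by split_ifs <;> omega) 0 (by omega)
  exact hxy.ne' (by simpa using this.1)

/-- Two equal positions in the two halves. -/
theorem KPcol.meet {α : Type} {H : SimpleGraph W} {rk : W → ℕ} {c : W → α} (h : KPcol H rk c)
    {T : ℕ} {a : ℕ → W} (hT : 0 < T) (ha : Lazy H a (2 * T))
    (hc : ∀ i < T, c (a i) = c (a (T + i))) :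
    ∃ j < T, a j = a (T + j) ∧ ∀ i < 2 * T, rk (a j) ≤ rk (a i) := by
  obtain ⟨j, hj, hm⟩ := (Finset.range (2 * T)).exists_min_image (fun i => rk (a i))
    ⟨0, by simp; omega⟩
  simp only [Finset.mem_range] at hj hm
  have k := h T a (a j) ha hc ⟨j, hj, rfl⟩ hm
  rcases lt_or_ge j T with h1 | h1
  · exact ⟨j, h1, ((k j h1).1.1 rfl).symm, hm⟩
  · obtain ⟨j, rfl⟩ := Nat.exists_eq_add_of_le h1
    have e := (k j (by omega)).1.2 rfl
    exact ⟨j, by omega, e, e ▸ hm⟩

/-- There is a walk of length at most `c` from `x` to `y` inside `S`. -/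
def Near (A : SimpleGraph W) (S : Set W) (c : ℕ) (x y : W) : Prop :=
  ∃ p : A.Walk x y, p.length ≤ c ∧ ∀ z ∈ p.support, z ∈ S

section near

variable {A : SimpleGraph W} {S : Set W} {c c' : ℕ} {x y z : W}

theorem Near.refl (h : x ∈ S) : Near A S c x x := ⟨.nil, by simp, by simpa using h⟩

theorem Near.symm (h : Near A S c x y) : Near A S c y x := by
  obtain ⟨p, h1, h2⟩ := h
  exact ⟨p.reverse, by simpa using h1, by simpa using h2⟩

theorem Near.trans (h : Near A S c x y) (h' : Near A S c' y z) : Near A S (c + c') x z := by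
  obtain ⟨p, h1, h2⟩ := h
  obtain ⟨q, k1, k2⟩ := h'
  refine ⟨p.append q, by simpa using Nat.add_le_add h1 k1, fun u hu => ?_⟩
  rcases (SimpleGraph.Walk.mem_support_append_iff p q).1 hu with h | h
  exacts [h2 u h, k2 u h]

theorem Near.mono (h : Near A S c x y) (hc : c ≤ c') : Near A S c' x y := by
  obtain ⟨p, h1, h2⟩ := h
  exact ⟨p, h1.trans hc, h2⟩

theorem Near.of_adj (h : A.Adj x y) (hx : x ∈ S) (hy : y ∈ S) : Near A S 1 x y :=
  ⟨h.toWalk, by simp, by simp [hx, hy]⟩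

theorem Near.rIn (h : Near A S c x y) : RIn A S x y := by
  obtain ⟨p, -, h2⟩ := h
  exact ⟨p, h2⟩

/-- A piece of a lazy walk. -/
theorem Lazy.near {a : ℕ → W} {m i j : ℕ} (h : Lazy A a m) (hij : i ≤ j) (hj : j < m)
    (hS : ∀ o, i ≤ o → o ≤ j → a o ∈ S) : Near A S (j - i) (a i) (a j) := by
  induction j, hij using Nat.le_induction with
  | base => exact Near.refl (hS i le_rfl le_rfl)
  | succ j hij ih =>
    have k := ih (by omega) fun o h1 h2 => hS o h1 (by omega)
    rcases h j hj with e | e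
    · exact e ▸ k.mono (by omega)
    · exact (k.trans (Near.of_adj e (hS j hij (by omega)) (hS _ (by omega) le_rfl))).mono
        (by omega)

end near

/-- An elimination order of width at most `w`. -/
structure Width (A : SimpleGraph W) (rk : W → ℕ) (w : ℕ) : Prop where
  inj : Function.Injective rk
  le : ∀ x, (bd A (comp A {y | rk x ≤ rk y} x)).ncard ≤ w

/-- The infinite grid. -/
def grid : SimpleGraph (ℕ × ℕ) where
  Adj p q := p.1 = q.1 ∧ (p.2 + 1 = q.2 ∨ q.2 + 1 = p.2) ∨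
    p.2 = q.2 ∧ (p.1 + 1 = q.1 ∨ q.1 + 1 = p.1)
  symm := ⟨fun _ _ h => by omega⟩
  loopless := ⟨fun _ h => by omega⟩

/-- The edges of `G` are drawn as lazy walks of length `L` in a planar graph of small radius.
An inner vertex of such a walk belongs to the edge itself or to an edge crossing it. -/
structure Rep (G : SimpleGraph V) (pos : V → ℕ) (L : ℕ) (W : Type) where
  A : SimpleGraph W
  ω : W
  ι : V → W
  own : W → Option (Sym2 V)
  lab : V → V → ℕ → W
  planar : Planar A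
  rad : ∀ z ∈ A.support, Near A Set.univ (L + 1) z ω
  ι_inj : Function.Injective ι
  own_ι : ∀ v, own (ι v) = none
  lab_zero : ∀ v u, G.Adj v u → lab v u 0 = ι v
  lab_rev : ∀ v u, G.Adj v u → ∀ o ≤ L, lab u v o = lab v u (L - o)
  lab_lazy : ∀ v u, G.Adj v u → Lazy A (lab v u) (L + 1)
  lab_int : ∀ v u, G.Adj v u → ∀ o, 0 < o → o < L →
    ∃ e, own (lab v u o) = some e ∧ (e = s(v, u) ∨ Crs pos e s(v, u))
  share : ∀ v u v' u', G.Adj v u → G.Adj v' u' → Crs pos s(v, u) s(v', u') →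
    ∃ o o', 0 < o ∧ o < L ∧ 0 < o' ∧ o' < L ∧ lab v u o = lab v' u' o'

/-- The chords of `𝓦` are walls `1, …, N` that cut the circle into consecutive pieces. -/
structure Lad (pos : V → ℕ) (𝓦 : Set (Sym2 V)) (N : ℕ) (wall : ℕ → Sym2 V) (lo hi : V → ℕ) :
    Prop where
  bij : Set.BijOn wall (Set.Icc 1 N) 𝓦
  le : ∀ v, lo v ≤ hi v
  le_N : ∀ v, hi v ≤ N
  mem : ∀ v i, 1 ≤ i → i ≤ N → (v ∈ wall i ↔ lo v < i ∧ i ≤ hi v)
  crs : ∀ v w i, 1 ≤ i → i ≤ N →
    (Crs pos s(v, w) (wall i) ↔ hi v < i ∧ i ≤ lo w ∨ hi w < i ∧ i ≤ lo v)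

end Pool.Agent.Lib.MP_e7c4c5_co.Out
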