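import Pool.Agent.Lib.MP_e7c4c5_co.Out.Chords

/-! Data attached to the edges can be displayed by the vertices. -/

set_option autoImplicit false

namespace Pool.Agent.Lib.MP_e7c4c5_co.Out

theorem Display_path {V α γ : Type} {G : SimpleGraph V} {η : V → V → α} {c : V → γ} {rk : V → ℕ}
    (h0 : ∀ u v, G.Adj u v → c u ≠ c v)
    (hA : ∀ v v' u, c v = c v' → G.Adj u v → rk u < rk v → ∃ z, G.Adj z v' ∧ η v' z = η v u)
    (hB : ∀ v u v' u', G.Adj v u → G.Adj v' u' → c v = c v' → c u = c u' → η v u = η v' u')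
    (t : ℕ) (w : ℕ → V) (h1 : ∀ j, j + 1 < 2 * (t + 1) → G.Adj (w j) (w (j + 1)))
    (h2 : ∀ i < 2 * (t + 1), ∀ j < 2 * (t + 1), w i = w j → i = j)
    (h3 : ∀ i < t + 1, c (w i) = c (w (t + 1 + i))) (h4 : rk (w (t + 1)) < rk (w t)) :
    ∃ y : ℕ → V, (∀ i < 2 * (t + 1), G.Adj (y i) (y (i + 1))) ∧
      (∀ i < t + 1, y i ≠ y (t + 1 + i)) ∧
      (∀ i < t + 1, s(y i, y (i + 1)) ≠ s(y (t + 1 + i), y (t + 1 + i + 1))) ∧
      ∀ i < t + 1, η (y i) (y (i + 1)) = η (y (t + 1 + i)) (y (t + 1 + i + 1)) := by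
  obtain ⟨z, z1, z2⟩ := hA _ _ _ (h3 t (by omega)) (h1 t (by omega)).symm h4
  obtain ⟨y, y1, y2⟩ : ∃ y : ℕ → V, (∀ i, i < 2 * (t + 1) → y i = w i) ∧
      y (t + 1 + t + 1) = z :=
    ⟨fun i => if i < 2 * (t + 1) then w i else z, fun i hi => if_pos hi, if_neg (by omega)⟩
  have y3 : ∀ i < t + 1, y i ≠ y (t + 1 + i) := by
    intro i hi e
    rw [y1 _ (by omega), y1 _ (by omega)] at e
    have := h2 _ (by omega) _ (by omega) e
    omega
  refine ⟨y, fun i hi => ?_, y3, fun i hi e => ?_, fun i hi => ?_⟩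
  · by_cases a : i = t + 1 + t
    · rw [a, y2, y1 _ (by omega)]
      exact z1.symm
    · rw [y1 _ hi, y1 _ (by omega)]
      exact h1 i (by omega)
  · rcases Sym2.eq_iff.1 e with ⟨a, -⟩ | ⟨-, a⟩
    · exact y3 i hi a
    · rw [y1 _ (by omega), y1 _ (by omega)] at a
      have a1 := h2 _ (by omega) _ (by omega) a
      obtain rfl : t = 0 := by omega
      exact h0 _ _ (h1 0 (by omega)) (h3 0 (by omega))
  · by_cases a : i = t
    · rw [a, y2, y1 _ (by omega), y1 _ (by omega), y1 _ (by omega), z2]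
    · rw [y1 _ (by omega), y1 _ (by omega), y1 _ (by omega), y1 _ (by omega)]
      exact hB _ _ _ _ (h1 i (by omega)) (h1 _ (by omega)) (h3 i hi) (h3 (i + 1) (by omega))

/- Take `rk`, `φ` from `exists_display`.  The colour of `v` is `φ v` together with the map
sending `γ` to `some (η v u, η u v)` if `u` is the earlier neighbour of `v` with `φ u = γ`, and
to `none` if there is no such neighbour (a finite type; transport with `Fintype.equivFin`).
(A) If `col v = col v'` and `u` is an earlier neighbour of `v` then `v'` has an earlier neighbour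
`z` with `φ z = φ u`, `η v' z = η v u`, `η z v' = η u v`.
(B) If `G.Adj v u`, `G.Adj v' u'`, `col v = col v'`, `col u = col u'` then `η v u = η v' u'`: say
`rk u < rk v`, take `z` from (A); if `rk u' < rk v'` then `z = u'`; otherwise `z, v', u'` is
increasing and `φ z = φ u'`, impossible.  The case `rk v < rk u` is symmetric.
If `rk (w t) < rk (w (t - 1))` put `y i = w i` for `i < 2 * t` and let `y (2 * t)` be the vertex
`z` of (A) for `v = w (t - 1)`, `u = w t`, `v' = w (2 * t - 1)`.  Otherwise do the same for the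
reversed path `i ↦ w (2 * t - 1 - i)`.  If an edge equals its mate then `y (i + 1) = y (t + i)`,
so `t = 1`, and `φ (w 0) = φ (w 1)` contradicts properness. -/
theorem display (k : ℕ) (α : Type) [Fintype α] : ∃ n : ℕ, ∀ (V : Type) [Finite V]
    (G : SimpleGraph V) (pos : V → ℕ) (ch : Sym2 V → Finset (Sym2 V)), Outer G k pos ch →
    ∀ η : V → V → α, ∃ col : V → Fin n, ∀ (t : ℕ) (w : ℕ → V), 0 < t →
      (∀ j, j + 1 < 2 * t → G.Adj (w j) (w (j + 1))) →
      (∀ i < 2 * t, ∀ j < 2 * t, w i = w j → i = j) → (∀ i < t, col (w i) = col (w (t + i))) →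
      ∃ y : ℕ → V, (∀ i < 2 * t, G.Adj (y i) (y (i + 1))) ∧ (∀ i < t, y i ≠ y (t + i)) ∧
        (∀ i < t, s(y i, y (i + 1)) ≠ s(y (t + i), y (t + i + 1))) ∧
        ∀ i < t, η (y i) (y (i + 1)) = η (y (t + i)) (y (t + i + 1)) := by
  classical
  obtain ⟨m, hm⟩ := exists_display k
  refine ⟨Fintype.card (Fin m × (Fin m → Option (α × α))), fun V _ G pos ch h η => ?_⟩
  obtain ⟨rk, φ, r1, r2, r3, r4⟩ := hm V G pos ch h
  obtain ⟨c, c1, c2⟩ : ∃ c : V → Fin m × (Fin m → Option (α × α)),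
      (∀ v v', c v = c v' → φ v = φ v') ∧ ∀ v v' u, c v = c v' → G.Adj u v → rk u < rk v →
        ∃ z, G.Adj z v' ∧ rk z < rk v' ∧ φ z = φ u ∧ η v' z = η v u ∧ η z v' = η u v := by
    refine ⟨fun v => (φ v, fun γ => if h : ∃ u, G.Adj u v ∧ rk u < rk v ∧ φ u = γ then
      some (η v h.choose, η h.choose v) else none), fun v v' e => congrArg Prod.fst e,
      fun v v' u e a1 a2 => ?_⟩
    have a3 : ∃ u', G.Adj u' v ∧ rk u' < rk v ∧ φ u' = φ u := ⟨u, a1, a2, rfl⟩
    have a4 : a3.choose = u :=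
      r3 _ _ v a3.choose_spec.1 a1 a3.choose_spec.2.1 a2 a3.choose_spec.2.2
    have a5 := congrFun (congrArg Prod.snd e) (φ u)
    simp only [dif_pos a3, a4] at a5
    split_ifs at a5 with a6
    have a7 := Prod.ext_iff.1 (Option.some_injective _ a5)
    exact ⟨a6.choose, a6.choose_spec.1, a6.choose_spec.2.1, a6.choose_spec.2.2, a7.1.symm,
      a7.2.symm⟩
  have hlt : ∀ u v, G.Adj u v → rk u < rk v ∨ rk v < rk u := fun u v a =>
    lt_or_gt_of_ne fun e => a.ne (r1 e)
  have h0 : ∀ u v, G.Adj u v → c u ≠ c v := fun u v a e => r2 u v a (c1 u v e)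
  have hA : ∀ v v' u, c v = c v' → G.Adj u v → rk u < rk v → ∃ z, G.Adj z v' ∧ η v' z = η v u :=
    fun v v' u e a1 a2 => (c2 v v' u e a1 a2).imp fun z a => ⟨a.1, a.2.2.2.1⟩
  have hB : ∀ v u v' u', G.Adj v u → G.Adj v' u' → c v = c v' → c u = c u' →
      η v u = η v' u' := by
    intro v u v' u' a1 a2 e1 e2
    rcases hlt v u a1 with a | a
    · obtain ⟨z, z1, z2, z3, -, z5⟩ := c2 u u' v e2 a1 a
      have z6 := z3.trans (c1 _ _ e1)
      rcases hlt v' u' a2 with b | b
      · rw [← r3 _ _ u' z1 a2 z2 b z6, z5]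
      · exact absurd z6 (r4 z u' v' z1 a2.symm z2 b)
    · obtain ⟨z, z1, z2, z3, z4, -⟩ := c2 v v' u e1 a1.symm a
      have z6 := z3.trans (c1 _ _ e2)
      rcases hlt v' u' a2 with b | b
      · exact absurd z6 (r4 z v' u' z1 a2 z2 b)
      · rw [← r3 _ _ v' z1 a2.symm z2 b z6, z4]
  refine ⟨fun v => Fintype.equivFin _ (c v), fun t w ht h1 h2 h3 => ?_⟩
  obtain ⟨t, rfl⟩ : ∃ t', t = t' + 1 := ⟨t - 1, by omega⟩
  have h4 : ∀ i < t + 1, c (w i) = c (w (t + 1 + i)) := fun i hi =>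
    (Fintype.equivFin _).injective (h3 i hi)
  rcases hlt _ _ (h1 t (by omega)) with a | a
  · refine Display_path h0 hA hB t (fun i => w (2 * t + 1 - i)) (fun j hj => ?_)
      (fun i hi j hj e => ?_) (fun i hi => ?_) ?_
    · have e : 2 * t + 1 - j = 2 * t + 1 - (j + 1) + 1 := by omega
      show G.Adj (w (2 * t + 1 - j)) (w (2 * t + 1 - (j + 1)))
      rw [e]
      exact (h1 _ (by omega)).symm
    · have := h2 _ (by omega) _ (by omega) e
      omega
    · have e1 : 2 * t + 1 - i = t + 1 + (t - i) := by omega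
      have e2 : 2 * t + 1 - (t + 1 + i) = t - i := by omega
      show c (w (2 * t + 1 - i)) = c (w (2 * t + 1 - (t + 1 + i)))
      rw [e1, e2]
      exact (h4 _ (by omega)).symm
    · have e1 : 2 * t + 1 - (t + 1) = t := by omega
      have e2 : 2 * t + 1 - t = t + 1 := by omega
      show rk (w (2 * t + 1 - (t + 1))) < rk (w (2 * t + 1 - t))
      rwa [e1, e2]
  · exact Display_path h0 hA hB t w h1 h2 h4 a

end Pool.Agent.Lib.MP_e7c4c5_co.Out
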