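import Pool.Agent.Lib.MP_e7c4c5_co.Out.KP

/-! Colouring families of intervals of bounded ply. -/

set_option autoImplicit false

namespace Pool.Agent.Lib.MP_e7c4c5_co.Out

theorem Interval_rk {W : Type} [Finite W] (l : W → ℕ) :
    ∃ rk : W → ℕ, Function.Injective rk ∧ ∀ x y, rk x < rk y → l x ≤ l y := by
  obtain ⟨M, ⟨e⟩⟩ := Finite.exists_equiv_fin W
  have key : ∀ x y, l x < l y → l x * M + (e x : ℕ) < l y * M + (e y : ℕ) := by
    intro x y h
    have h1 := (e x).2
    have h2 := Nat.mul_le_mul_right M (Nat.succ_le_of_lt h)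
    rw [Nat.succ_mul] at h2
    omega
  refine ⟨fun x => l x * M + (e x : ℕ), fun x y h => ?_, fun x y h => ?_⟩
  · dsimp only at h
    rcases lt_trichotomy (l x) (l y) with k | k | k
    · exact absurd h (key x y k).ne
    · rw [k] at h
      exact e.injective (Fin.ext (Nat.add_left_cancel h))
    · exact absurd h (key y x k).ne'
  · by_contra k
    exact lt_asymm h (key y x (not_le.1 k))

/- Apply `kp ((c + 1) * P)` to the graph on the subtype `S` in which distinct `o, o'` are adjacent
if `l o ≤ r o' + c ∧ l o' ≤ r o + c`, ordered by `l` with ties broken by an enumeration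
(`rk o = l o * M + e o`, `e o < M`).  An earlier neighbour `o` of `z` has `l o ≤ l z ≤ r o + c`,
so it contains one of the points `l z - j`, `j ≤ c`; two of them are equal or adjacent.
`KPcol.proper` and `KPcol.meet` give the two claims.  (If `n = 0` use `n + 1` colours.) -/
theorem interval (P c : ℕ) : ∃ n : ℕ, ∀ (O : Type) (S : Set O) (l r : O → ℕ), S.Finite →
    (∀ o ∈ S, l o ≤ r o) → (∀ p, {o | o ∈ S ∧ l o ≤ p ∧ p ≤ r o}.ncard ≤ P) →
    ∃ col : O → Fin n,
      (∀ o ∈ S, ∀ o' ∈ S, l o ≤ r o' + c → l o' ≤ r o + c → col o = col o' → o = o') ∧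
      ∀ (T : ℕ) (b : ℕ → O), 0 < T → (∀ i < 2 * T, b i ∈ S) →
        (∀ i, i + 1 < 2 * T → l (b i) ≤ r (b (i + 1)) ∧ l (b (i + 1)) ≤ r (b i)) →
        (∀ i < T, col (b i) = col (b (T + i))) → ∃ i < T, b i = b (T + i) := by
  classical
  obtain ⟨n, hn⟩ := kp ((c + 1) * P)
  refine ⟨n + 1, fun O S l r hS hlr hP => ?_⟩
  have : Finite S := hS
  obtain ⟨rk, hrk, hrl⟩ := Interval_rk fun o : S => l o
  let H : SimpleGraph S :=
    { Adj := fun o o' => o ≠ o' ∧ l o ≤ r o' + c ∧ l o' ≤ r o + c
      symm := ⟨fun _ _ h => ⟨h.1.symm, h.2.2, h.2.1⟩⟩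
      loopless := ⟨fun _ h => h.1 rfl⟩ }
  have hpeo : PEO H rk ((c + 1) * P) := by
    refine ⟨hrk, fun x y z hx hy kx ky => ?_, fun z => ?_⟩
    · by_cases e : x = y
      · exact Or.inl e
      · have h1 := hrl _ _ kx
        have h2 := hrl _ _ ky
        have h3 := hx.2.2
        have h4 := hy.2.2
        exact Or.inr ⟨e, by omega, by omega⟩
    · rw [← Set.ncard_image_of_injective _ Subtype.val_injective]
      have h1 : Subtype.val '' {x | H.Adj x z ∧ rk x < rk z} ⊆
          ⋃ j ∈ Finset.range (c + 1), {o | o ∈ S ∧ l o ≤ l z - j ∧ l z - j ≤ r o} := by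
        rintro _ ⟨x, ⟨hx, kx⟩, rfl⟩
        have h1 := hrl _ _ kx
        have h2 := hx.2.2
        have h3 := hlr x x.2
        exact Set.mem_biUnion (x := l z - r x) (Finset.mem_coe.2 (Finset.mem_range.2 (by omega)))
          ⟨x.2, by omega, by omega⟩
      refine (Set.ncard_le_ncard h1 (hS.subset ?_)).trans
        ((Finset.set_ncard_biUnion_le _ _).trans ?_)
      · exact Set.iUnion₂_subset fun _ _ _ h => h.1
      · refine (Finset.sum_le_sum fun j _ => hP _).trans ?_
        rw [Finset.sum_const, Finset.card_range, smul_eq_mul]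
  obtain ⟨col, hcol⟩ := hn S H rk hpeo
  refine ⟨fun o => if h : o ∈ S then (col ⟨o, h⟩).castSucc else 0, fun o ho o' ho' h1 h2 e => ?_,
    fun T b hT hb hw hc => ?_⟩
  · simp only [dif_pos ho, dif_pos ho', Fin.castSucc_inj] at e
    by_contra k
    exact hcol.proper (x := ⟨o, ho⟩) (y := ⟨o', ho'⟩) ⟨fun h => k (congrArg Subtype.val h), h1, h2⟩ e
  · let a : ℕ → S := fun i => if h : i < 2 * T then ⟨b i, hb i h⟩ else ⟨b 0, hb 0 (by omega)⟩
    have ha : ∀ i (h : i < 2 * T), a i = ⟨b i, hb i h⟩ := fun i h => dif_pos h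
    obtain ⟨j, hj, e, -⟩ := hcol.meet (a := a) hT (fun i hi => by
      by_cases e : a i = a (i + 1)
      · exact Or.inl e
      · refine Or.inr ⟨e, ?_⟩
        rw [ha i (by omega), ha (i + 1) hi]
        have := hw i hi
        dsimp only
        omega) (fun i hi => by
      have h1 := hc i hi
      simp only [dif_pos (hb i (by omega)), dif_pos (hb (T + i) (by omega)),
        Fin.castSucc_inj] at h1
      rw [ha i (by omega), ha (T + i) (by omega), h1])
    rw [ha j (by omega), ha (T + j) (by omega)] at e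
    exact ⟨j, hj, congrArg Subtype.val e⟩

end Pool.Agent.Lib.MP_e7c4c5_co.Out
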