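import Pool.Agent.Lib.MP_e7c4c5_co.Out.Layer
import Pool.Agent.Lib.MP_e7c4c5_co.Out.Boring
import Pool.Agent.Lib.MP_e7c4c5_co.Out.Colour

/-! The colouring of graphs with a perfect elimination order (after Kuendgen and Pelsmajer). -/

set_option autoImplicit false

namespace Pool.Agent.Lib.MP_e7c4c5_co.Out

variable {W : Type} {H : SimpleGraph W} {rk : W → ℕ} {w : ℕ}

/- There are no edges, so a lazy walk is constant. -/
theorem kp_zero [Finite W] (h : PEO H rk 0) {α : Type} (c : W → α) : KPcol H rk c := by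
  have key : ∀ u v, H.Adj u v → rk u < rk v → False := by
    intro u v huv hr
    have h1 := h.deg v
    rw [Nat.le_zero, Set.ncard_eq_zero (Set.toFinite _)] at h1
    have h2 : u ∈ {x | H.Adj x v ∧ rk x < rk v} := ⟨huv, hr⟩
    rw [h1] at h2
    exact h2
  have hno : ∀ u v, ¬ H.Adj u v := by
    intro u v huv
    rcases lt_trichotomy (rk u) (rk v) with h1 | h1 | h1
    · exact key u v huv h1
    · exact huv.ne (h.inj h1)
    · exact key v u huv.symm h1
  intro T a x ha _ hx _ i hi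
  have hconst : ∀ j, j < 2 * T → a j = a 0 := by
    intro j
    induction j with
    | zero => intro _; rfl
    | succ j ih =>
      intro hj
      rcases ha j hj with e | e
      · rw [← e]; exact ih (by omega)
      · exact absurd e (hno _ _)
  rw [hconst i (by omega), hconst (T + i) (by omega)]
  exact ⟨Iff.rfl, Iff.rfl⟩

/- Let `P` be the set of `i < T` with `f i = l`.  Put `g i` = the largest element of `P` that is
at most `i`, or the least element of `P` if there is none. -/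
theorem exists_nearest {T l : ℕ} {f : ℕ → ℕ} (h : ∃ i < T, f i = l) :
    ∃ g : ℕ → ℕ, (∀ i, g i < T ∧ f (g i) = l) ∧ (∀ i < T, f i = l → g i = i) ∧
      (∀ i < T, ∀ o, min i (g i) < o → o < max i (g i) → f o ≠ l) ∧
      (∀ i, i + 1 < T → g i ≤ g (i + 1) ∧ ∀ o, g i < o → o < g (i + 1) → f o ≠ l) ∧
      (∀ o < g 0, f o ≠ l) ∧ ∀ o, g (T - 1) < o → o < T → f o ≠ l := by
  classical
  have key : ∀ i, ∃ j, (j < T ∧ f j = l) ∧
      ((j ≤ i ∧ ∀ o, j < o → o ≤ i → o < T → f o ≠ l) ∨ (i < j ∧ ∀ o < j, f o ≠ l)) := by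
    intro i
    by_cases h1 : ∃ j ≤ i, j < T ∧ f j = l
    · obtain ⟨j, hj, hP⟩ := h1
      refine ⟨Nat.findGreatest (fun j => j < T ∧ f j = l) i,
        Nat.findGreatest_spec (P := fun j => j < T ∧ f j = l) hj hP,
        Or.inl ⟨Nat.findGreatest_le i, fun o h2 h3 h4 h5 => ?_⟩⟩
      exact Nat.findGreatest_is_greatest h2 h3 ⟨h4, h5⟩
    · refine ⟨Nat.find h, Nat.find_spec h, Or.inr ⟨?_, fun o h2 h3 => ?_⟩⟩
      · by_contra h2
        exact h1 ⟨Nat.find h, by omega, Nat.find_spec h⟩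
      · have h4 := (Nat.find_spec h).1
        exact Nat.find_min h h2 ⟨by omega, h3⟩
  choose g hg1 hg2 using key
  refine ⟨g, hg1, ?_, ?_, ?_, ?_, ?_⟩
  · intro i hi hf
    rcases hg2 i with ⟨h1, h2⟩ | ⟨h1, h2⟩
    · by_contra h3
      exact h2 i (by omega) le_rfl hi hf
    · exact absurd hf (h2 i h1)
  · intro i hi o h3 h4
    rcases hg2 i with ⟨h1, h2⟩ | ⟨h1, h2⟩
    · exact h2 o (by omega) (by omega) (by omega)
    · exact h2 o (by omega)
  · intro i hi
    have k1 := hg1 i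
    have k2 := hg1 (i + 1)
    rcases hg2 i with ⟨h1, h2⟩ | ⟨h1, h2⟩ <;> rcases hg2 (i + 1) with ⟨h3, h4⟩ | ⟨h3, h4⟩
    · refine ⟨?_, fun o h5 h6 => h2 o h5 (by omega) (by omega)⟩
      by_contra h5
      exact h4 (g i) (by omega) (by omega) k1.1 k1.2
    · exact ⟨by omega, fun o _ h6 => h4 o h6⟩
    · refine ⟨?_, fun o h5 h6 => by omega⟩
      by_contra h5
      exact h2 (g (i + 1)) (by omega) k2.2
    · refine ⟨?_, fun o _ h6 => h4 o h6⟩
      by_contra h5
      exact h2 (g (i + 1)) (by omega) k2.2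
  · intro o ho
    rcases hg2 0 with ⟨h1, h2⟩ | ⟨h1, h2⟩
    · omega
    · exact h2 o ho
  · intro o h3 h4
    have k1 := hg1 (T - 1)
    rcases hg2 (T - 1) with ⟨h1, h2⟩ | ⟨h1, h2⟩
    · exact h2 o h3 (by omega) h4
    · omega

theorem KP_core (h : PEO H rk w) {lv : W → ℕ} (hl : Lay H rk lv) {γ : Type} {χ : W → γ}
    (hχ : ∀ u v, H.Adj u v → χ u ≠ χ v) {x v v' u u' : W} (hv : lv x < lv v)
    (rv : rk x ≤ rk v) (ru : rk x ≤ rk u) (ru' : rk x ≤ rk u') (lu : lv u = lv x)
    (su : lv v = lv x + 1 → u ∈ Shadow H rk lv v) (su' : lv v = lv x + 1 → u' ∈ Shadow H rk lv v')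
    (cu : χ u = χ u')
    (hcol : ∀ p : γ × γ, (∃ u₁ ∈ Shadow H rk lv v, ∃ u₂ ∈ Shadow H rk lv v, χ u₁ = p.1 ∧
        χ u₂ = p.2 ∧ rk u₁ ≤ rk u₂ ∧ H.Adj u₁ v) → ∃ u₁ ∈ Shadow H rk lv v',
        ∃ u₂ ∈ Shadow H rk lv v', χ u₁ = p.1 ∧ χ u₂ = p.2 ∧ rk u₁ ≤ rk u₂ ∧ H.Adj u₁ v')
    (e1 : u = x → u' = x) (e2 : (layer H lv).Adj x u → (layer H lv).Adj x u')
    (hxv : H.Adj x v) : H.Adj x v' := by
  have lt_of : ∀ p q, H.Adj p q → rk p ≤ rk q → rk p < rk q := fun p q hpq hle =>
    lt_of_le_of_ne hle fun e => hpq.ne (h.inj e)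
  have h1 : lv v = lv x + 1 := by
    have := hl.lip x v hxv (lt_of _ _ hxv rv)
    omega
  have sx : x ∈ Shadow H rk lv v := ⟨hv, v, Relation.ReflTransGen.refl, rfl, hxv⟩
  obtain ⟨u₁, s₁, u₂, s₂, c₁, c₂, r₁₂, a₁⟩ :=
    hcol (χ x, χ u) ⟨x, sx, u, su h1, rfl, rfl, ru, hxv⟩
  have c₁' : χ u₁ = χ x := c₁
  have c₂' : χ u₂ = χ u' := c₂.trans cu
  have e₂ : u₂ = u' := by
    rcases shadow_clique h hl s₂ (su' h1) with e | e
    · exact e
    · exact absurd c₂' (hχ _ _ e)
  subst e₂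
  have hx : u₂ = x ∨ H.Adj x u₂ := by
    rcases shadow_clique h hl sx (su h1) with e | e
    · exact Or.inl (e1 e.symm)
    · exact Or.inr (e2 ⟨e, lu.symm⟩).1
  have e₁ : u₁ = x := by
    rcases hx with e | e <;> rcases shadow_clique h hl s₁ s₂ with e' | e'
    · exact e'.trans e
    · exact absurd c₁' (hχ _ _ (e ▸ e'))
    · exact absurd c₁'.symm (hχ _ _ (e' ▸ e))
    · rcases h.clique x u₁ u₂ e e' (lt_of _ _ e ru') (lt_of _ _ e' r₁₂) with e'' | e''
      · exact e''.symm
      · exact absurd c₁'.symm (hχ _ _ e'')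
  exact e₁ ▸ a₁

/- The induction step.  Let a repetitive lazy walk `a` and its earliest vertex `x` be given.
By `hθ`, `lv (a i) = lv (a (T + i))`; by `Lazy.desc` all vertices descend from `x`, so
`l = lv x ≤ lv (a i)`.  Take `g` from `exists_nearest` (`f i = lv (a i)`), and let
`a' i = a (g i)` for `i < T`, `a' (T + i) = a (T + g i)`.  By `Lazy.jump` this is a lazy walk in
`layer H lv`; it is repetitive for `c'` and visits `x`, so `hc` applies.  If `lv (a i) = l`
the claim is that of `hc`.  Otherwise `a i ≠ x ≠ a (T + i)`.  Let `H.Adj x v`, where `v, v'` are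
`a i, a (T + i)` in some order and `u, u'` are `a (g i), a (T + g i)` in the same order.  Then
`lv v = lv v' = l + 1`, `u ∈ Shadow v`, `u' ∈ Shadow v'` (`Lazy.shadow`), `x ∈ Shadow v`.  The last
component of the colour gives `u₁, u₂ ∈ Shadow v'` with `χ u₁ = χ x`, `χ u₂ = χ u = χ u'`,
`rk u₁ ≤ rk u₂`, `H.Adj u₁ v'`.  By `shadow_clique`, `u₂ = u'`.  Now `x = u` or `x` is adjacent to
`u` in the layer, so by `hc` the vertex `x` is `u'` or an earlier neighbour of `u'`; the same holds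
for `u₁`; so `x = u₁` or they are adjacent, and `χ u₁ = χ x` gives `u₁ = x`. -/
theorem kp_step (h : PEO H rk w) {lv : W → ℕ} (hl : Lay H rk lv) {α β γ : Type} (θ : ℕ → α)
    (hθ : ∀ (T : ℕ) (a : ℕ → W), Lazy H a (2 * T) →
      (∀ i < T, θ (lv (a i)) = θ (lv (a (T + i)))) → ∀ i < T, lv (a i) = lv (a (T + i)))
    (c' : W → β) (hc : KPcol (layer H lv) rk c') (χ : W → γ)
    (hχ : ∀ u v, H.Adj u v → χ u ≠ χ v) :
    KPcol H rk fun v => (θ (lv v), c' v, χ v, fun p : γ × γ =>
      ∃ u₁ ∈ Shadow H rk lv v, ∃ u₂ ∈ Shadow H rk lv v, χ u₁ = p.1 ∧ χ u₂ = p.2 ∧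
        rk u₁ ≤ rk u₂ ∧ H.Adj u₁ v) := by
  intro T a x ha hcol hx hmin
  simp only [Prod.mk.injEq] at hcol
  have hlv : ∀ i < T, lv (a i) = lv (a (T + i)) := hθ T a ha fun i hi => (hcol i hi).1
  obtain ⟨i₀, hi₀, e₀⟩ := hx
  have hge : ∀ i < 2 * T, lv x ≤ lv (a i) := by
    intro i hi
    have := Lazy.desc h (p := 0) (q := 2 * T - 1) (j := i₀) ha (by omega) (by omega) (by omega)
      (fun o _ ho => by rw [e₀]; exact hmin o (by omega)) i (by omega) (by omega)
    rw [e₀] at this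
    exact this.lv_le hl
  have hex : ∃ i < T, lv (a i) = lv x := by
    rcases lt_or_ge i₀ T with h1 | h1
    · exact ⟨i₀, h1, by rw [e₀]⟩
    · obtain ⟨j, rfl⟩ := Nat.exists_eq_add_of_le h1
      exact ⟨j, by omega, by rw [hlv j (by omega), e₀]⟩
  obtain ⟨g, g1, g2, g3, g4, g5, g6⟩ := exists_nearest (f := fun i => lv (a i)) hex
  have g1' : ∀ i, lv (a (T + g i)) = lv x := fun i => by
    rw [← hlv _ (g1 i).1]; exact (g1 i).2
  have hgt : ∀ o < T, lv (a o) ≠ lv x → lv x < lv (a o) := fun o ho hne =>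
    lt_of_le_of_ne (hge o (by omega)) hne.symm
  have hgt' : ∀ o < T, lv (a o) ≠ lv x → lv x < lv (a (T + o)) := fun o ho hne => by
    rw [← hlv o ho]; exact hgt o ho hne
  have jump : ∀ p q, q < 2 * T → p ≤ q → lv (a p) = lv x → lv (a q) = lv x →
      (∀ o, p < o → o < q → lv x < lv (a o)) → a p = a q ∨ (layer H lv).Adj (a p) (a q) := by
    intro p q hq hpq hp hq' hb
    rcases Nat.eq_or_lt_of_le hpq with e | e
    · exact Or.inl (by rw [e])
    · rcases Lazy.jump h hl ha hq e hp hq' hb with e' | e'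
      · exact Or.inl e'
      · exact Or.inr ⟨e', hp.trans hq'.symm⟩
  set a' : ℕ → W := fun i => if i < T then a (g i) else a (T + g (i - T)) with ha'
  have a1 : ∀ i < T, a' i = a (g i) := fun i hi => by simp only [ha', if_pos hi]
  have a2 : ∀ i, a' (T + i) = a (T + g i) := fun i => by
    simp only [ha', if_neg (show ¬ T + i < T by omega), Nat.add_sub_cancel_left]
  have lz : Lazy (layer H lv) a' (2 * T) := by
    intro i hi
    rcases lt_trichotomy (i + 1) T with h1 | h1 | h1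
    · rw [a1 i (by omega), a1 (i + 1) h1]
      have k2 := (g1 (i + 1)).1
      exact jump _ _ (by omega) (g4 i h1).1 (g1 i).2 (g1 (i + 1)).2 fun o h2 h3 =>
        hgt o (by omega) ((g4 i h1).2 o h2 h3)
    · have e : a' (i + 1) = a (T + g 0) := by rw [h1]; exact a2 0
      rw [a1 i (by omega), e]
      have k1 := (g1 i).1
      have k2 := (g1 0).1
      refine jump _ _ (by omega) (by omega) (g1 i).2 (g1' 0) fun o h2 h3 => ?_
      rcases lt_or_ge o T with h4 | h4
      · refine hgt o h4 (g6 o ?_ h4)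
        have : T - 1 = i := by omega
        rw [this]; exact h2
      · obtain ⟨o, rfl⟩ := Nat.exists_eq_add_of_le h4
        exact hgt' o (by omega) (g5 o (by omega))
    · obtain ⟨j, rfl⟩ := Nat.exists_eq_add_of_le (show T ≤ i by omega)
      rw [add_assoc, a2 j, a2 (j + 1)]
      have k2 := (g1 (j + 1)).1
      have k3 := g4 j (by omega)
      refine jump _ _ (by omega) (by omega) (g1' j) (g1' (j + 1)) fun o h2 h3 => ?_
      obtain ⟨o, rfl⟩ := Nat.exists_eq_add_of_le (show T ≤ o by omega)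
      exact hgt' o (by omega) (k3.2 o (by omega) (by omega))
  have main := hc T a' x lz
    (fun i hi => by rw [a1 i hi, a2 i]; exact (hcol _ (g1 i).1).2.1)
    (by
      rcases lt_or_ge i₀ T with h1 | h1
      · exact ⟨i₀, hi₀, by rw [a1 i₀ h1, g2 i₀ h1 (by simp only [e₀]), e₀]⟩
      · obtain ⟨j, rfl⟩ := Nat.exists_eq_add_of_le h1
        refine ⟨T + j, hi₀, ?_⟩
        rw [a2 j, g2 j (by omega) (by simp only [hlv j (by omega), e₀]), e₀])
    (by
      intro i hi
      rcases lt_or_ge i T with h1 | h1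
      · rw [a1 i h1]
        have := (g1 i).1
        exact hmin _ (by omega)
      · obtain ⟨j, rfl⟩ := Nat.exists_eq_add_of_le h1
        rw [a2 j]
        have := (g1 j).1
        exact hmin _ (by omega))
  intro i hi
  have mi := main i hi
  rw [a1 i hi, a2 i] at mi
  by_cases hli : lv (a i) = lv x
  · rw [g2 i hi hli] at mi
    refine ⟨mi.1, fun e => (mi.2.1 ⟨e, hli.symm⟩).1, fun e => (mi.2.2 ⟨e, ?_⟩).1⟩
    rw [← hlv i hi]; exact hli.symm
  · have k1 := (g1 i).1
    have l1 := hgt i hi hli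
    have l2 := hgt' i hi hli
    have s1 : lv (a i) = lv x + 1 → a (g i) ∈ Shadow H rk lv (a i) := fun e =>
      Lazy.shadow h hl ha (by omega) (by omega) (by rw [e, (g1 i).2]) fun o h2 h3 => by
        rw [(g1 i).2]
        exact hgt o (by omega) (g3 i hi o h2 h3)
    have s2 : lv (a i) = lv x + 1 → a (T + g i) ∈ Shadow H rk lv (a (T + i)) := fun e =>
      Lazy.shadow h hl ha (by omega) (by omega) (by rw [← hlv i hi, e, g1' i]) fun o h2 h3 => by
        rw [g1' i]
        obtain ⟨o, rfl⟩ := Nat.exists_eq_add_of_le (show T ≤ o by omega)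
        exact hgt' o (by omega) (g3 i hi o (by omega) (by omega))
    have cu := (hcol _ k1).2.2.1
    have cp := (hcol i hi).2.2.2
    refine ⟨⟨fun e => ?_, fun e => ?_⟩, fun e => ?_, fun e => ?_⟩
    · rw [e] at l1; exact absurd l1 (lt_irrefl _)
    · rw [e] at l2; exact absurd l2 (lt_irrefl _)
    · exact KP_core h hl hχ l1 (hmin _ (by omega)) (hmin _ (by omega)) (hmin _ (by omega))
        (g1 i).2 s1 s2 cu (fun p hp => (congrFun cp p).mp hp) mi.1.1 mi.2.1 e
    · exact KP_core h hl hχ l2 (hmin _ (by omega)) (hmin _ (by omega)) (hmin _ (by omega))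
        (g1' i) (fun e' => s2 ((hlv i hi).trans e')) (fun e' => s1 ((hlv i hi).trans e')) cu.symm
        (fun p hp => (congrFun cp p).mpr hp) mi.1.2 mi.2.2 e

theorem KP_comp {α β : Type} {c : W → α} (h : KPcol H rk c) {e : α → β}
    (he : Function.Injective e) : KPcol H rk fun v => e (c v) :=
  fun T a x ha hc => h T a x ha fun i hi => he (hc i hi)

/- Induction on `w` with `exists_lay`, `PEO.layer`, `boring` (`N` bounds `lv`), `greedy`,
`kp_step`; the colours form a finite type (`Prop` is finite), use `Fintype.equivFin`. -/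
theorem kp (w : ℕ) : ∃ n : ℕ, ∀ (W : Type) [Finite W] (H : SimpleGraph W) (rk : W → ℕ),
    PEO H rk w → ∃ c : W → Fin n, KPcol H rk c := by
  induction w with
  | zero => exact ⟨1, fun W _ H rk h => ⟨fun _ => 0, kp_zero h _⟩⟩
  | succ w ih =>
    obtain ⟨n, hn⟩ := ih
    refine ⟨Nat.card ((Fin 160 × Fin 3) × Fin n × Fin (w + 1 + 1) ×
      (Fin (w + 1 + 1) × Fin (w + 1 + 1) → Prop)), fun W _ H rk h => ?_⟩
    obtain ⟨lv, hl⟩ := exists_lay h
    obtain ⟨c', hc'⟩ := hn W (layer H lv) rk (h.layer hl)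
    obtain ⟨χ, hχ⟩ := greedy H (w + 1) rk h.inj h.deg
    obtain ⟨N, hN⟩ := (Set.finite_range lv).bddAbove
    obtain ⟨θ, hθ⟩ := boring (N + 1)
    have step := kp_step h hl θ (fun T a ha hc => hθ T (fun i => lv (a i))
      (fun i _ => Nat.lt_succ_of_le (hN ⟨a i, rfl⟩)) (fun i hi => ?_) hc) c' hc' χ hχ
    · exact ⟨_, KP_comp step (Finite.equivFin _).injective⟩
    · rcases ha i hi with e | e
      · simp only [e]; omega
      · rcases lt_trichotomy (rk (a i)) (rk (a (i + 1))) with h1 | h1 | h1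
        · have h2 := hl.mono _ _ e h1
          have h3 := hl.lip _ _ e h1
          constructor <;> omega
        · exact absurd (h.inj h1) e.ne
        · have h2 := hl.mono _ _ e.symm h1
          have h3 := hl.lip _ _ e.symm h1
          constructor <;> omega

end Pool.Agent.Lib.MP_e7c4c5_co.Out
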