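import Pool.Agent.Lib.MP_e7c4c5_co.Out.Defs

/-! Pairwise non-crossing chords that cross a fixed chord are linearly ordered. -/

set_option autoImplicit false

namespace Pool.Agent.Lib.MP_e7c4c5_co.Out

theorem Ladder_cut (N : ℕ) (P : ℕ → Prop) (h : ∀ i j, 1 ≤ i → i ≤ j → j ≤ N → P j → P i) :
    ∃ l, l ≤ N ∧ ∀ i, 1 ≤ i → i ≤ N → (i ≤ l ↔ P i) := by
  classical
  refine ⟨Nat.findGreatest P N, Nat.findGreatest_le N, fun i h1 h2 =>
    ⟨fun h3 => ?_, Nat.le_findGreatest h2⟩⟩
  exact h i _ h1 h3 (Nat.findGreatest_le N) (Nat.findGreatest_of_ne_zero rfl (by omega))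

theorem Ladder_enum {α : Type} (a₀ : α) (key : α → ℕ) (S : Finset α) :
    ∃ (N : ℕ) (wall : ℕ → α), Set.BijOn wall (Set.Icc 1 N) S ∧
      ∀ i j, 1 ≤ i → i ≤ j → j ≤ N → key (wall i) ≤ key (wall j) := by
  classical
  induction S using Finset.induction_on_max_value key with
  | empty => exact ⟨0, fun _ => a₀, by simp, fun i j _ _ _ => le_rfl⟩
  | insert a s ha hs ih =>
    obtain ⟨N, wall, h1, h2⟩ := ih
    refine ⟨N + 1, fun i => if i ≤ N then wall i else a, ⟨fun i hi => ?_, fun i hi j hj e => ?_,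
      fun x hx => ?_⟩, fun i j hi hij hj => ?_⟩
    · rw [Finset.coe_insert]
      dsimp only
      split_ifs with h
      · exact Or.inr (h1.mapsTo ⟨hi.1, h⟩)
      · exact Or.inl rfl
    · dsimp only at e
      split_ifs at e with h h' h'
      · exact h1.injOn ⟨hi.1, h⟩ ⟨hj.1, h'⟩ e
      · exact absurd (e ▸ h1.mapsTo ⟨hi.1, h⟩) ha
      · exact absurd (e ▸ h1.mapsTo ⟨hj.1, h'⟩) ha
      · have := hi.2
        have := hj.2
        omega
    · rw [Finset.coe_insert] at hx
      rcases hx with rfl | hx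
      · exact ⟨N + 1, ⟨by omega, le_rfl⟩, if_neg (by omega)⟩
      · obtain ⟨i, hi, rfl⟩ := h1.surjOn hx
        exact ⟨i, ⟨hi.1, hi.2.trans (by omega)⟩, if_pos hi.2⟩
    · dsimp only
      split_ifs with h h' h'
      · exact h2 i j hi hij h'
      · exact hs _ (h1.mapsTo ⟨hi, h⟩)
      · omega
      · exact le_rfl

/- Write `e = s(p, q)` with `pos p ≤ pos q`, call `v` inner if `pos p ≤ pos v ≤ pos q`, and let
`M` exceed all positions.  Put `σ v = pos v - pos p` for inner `v`, `σ v = pos p - pos v` if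
`pos v < pos p`, `σ v = M + pos p - pos v` if `pos q < pos v`.  Every `r ∈ 𝓦` is `s(a r, b r)`
with `a r` strictly between `p` and `q` and `b r` not inner.  Two chords of `𝓦` do not cross, so
they are comparable in the product order of `(σ (a r), σ (b r))`; `key r = σ (a r) + σ (b r)` is
injective on `𝓦`, enumerate `𝓦` by increasing key (`Finset.orderEmbOfFin` or
`Finset.sort`).  Then `A i = σ (a (wall i))` and `B i = σ (b (wall i))` are monotone on `[1, N]`.
For inner `v` let `lo v` (`hi v`) be the number of `i ∈ [1, N]` with `A i < σ v` (`A i ≤ σ v`), so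
`i ≤ lo v ↔ A i < σ v` and `i ≤ hi v ↔ A i ≤ σ v`; the same with `B` for the other `v`.  The
last claim is `crs_iff` and `omega` after a case distinction. -/
theorem ladder {V : Type} [Finite V] {pos : V → ℕ} (hp : Function.Injective pos) (e : Sym2 V)
    (𝓦 : Set (Sym2 V)) (h1 : ∀ r ∈ 𝓦, Crs pos e r) (h2 : ∀ r ∈ 𝓦, ∀ r' ∈ 𝓦, ¬ Crs pos r r') :
    ∃ N wall lo hi, Lad pos 𝓦 N wall lo hi := by
  classical
  obtain ⟨p, q, hpq, rfl⟩ : ∃ p q, pos p ≤ pos q ∧ e = s(p, q) := by
    induction e with
    | _ p q =>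
      rcases le_total (pos p) (pos q) with h | h
      · exact ⟨p, q, h, rfl⟩
      · exact ⟨q, p, h, Sym2.eq_swap⟩
  obtain ⟨M, hM⟩ : ∃ M, ∀ v, pos v < M := by
    obtain ⟨M, hM⟩ := (Set.finite_range pos).bddAbove
    exact ⟨M + 1, fun v => Nat.lt_succ_of_le (hM ⟨v, rfl⟩)⟩
  obtain ⟨σ, s1, s2, s3⟩ : ∃ σ : V → ℕ, (∀ v, pos v < pos p → σ v + pos v = pos p) ∧
      (∀ v, pos p ≤ pos v → pos v ≤ pos q → σ v = pos v) ∧
      ∀ v, pos q < pos v → σ v + pos v = M + pos p := by
    refine ⟨fun v => if pos v < pos p then pos p - pos v else if pos v ≤ pos q then pos v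
      else M + pos p - pos v, fun v h => ?_, fun v h h' => ?_, fun v h => ?_⟩
    all_goals
      have := hM v
      dsimp only
      split_ifs <;> omega
  have hab : ∀ r : Sym2 V, ∃ a b, r ∈ 𝓦 → r = s(a, b) ∧ pos p < pos a ∧ pos a < pos q ∧
      (pos b < pos p ∨ pos q < pos b) := by
    intro r
    induction r with
    | _ x y =>
      by_cases hr : s(x, y) ∈ 𝓦
      · have h := crs_iff.1 (h1 _ hr)
        by_cases hx : pos p < pos x ∧ pos x < pos q
        · exact ⟨x, y, fun _ => ⟨rfl, hx.1, hx.2, by omega⟩⟩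
        · exact ⟨y, x, fun _ => ⟨Sym2.eq_swap, by omega, by omega, by omega⟩⟩
      · exact ⟨x, y, fun h => absurd h hr⟩
  choose a b hab using hab
  obtain ⟨N, wall, hb, hk⟩ := Ladder_enum s(p, q) (fun r => σ (a r) + σ (b r))
    (Set.toFinite 𝓦).toFinset
  rw [Set.Finite.coe_toFinset] at hb
  have hmono : ∀ i j, 1 ≤ i → i ≤ j → j ≤ N →
      σ (a (wall i)) ≤ σ (a (wall j)) ∧ σ (b (wall i)) ≤ σ (b (wall j)) := by
    intro i j hi hij hj
    have m1 := hb.mapsTo ⟨hi, hij.trans hj⟩
    have m2 := hb.mapsTo ⟨hi.trans hij, hj⟩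
    have k := hk i j hi hij hj
    have c := h2 _ m1 _ m2
    obtain ⟨e1, a1, a2, a3⟩ := hab _ m1
    obtain ⟨e2, b1, b2, b3⟩ := hab _ m2
    rw [e1, e2, crs_iff] at c
    generalize a (wall i) = x at *
    generalize b (wall i) = y at *
    generalize a (wall j) = x' at *
    generalize b (wall j) = y' at *
    have := s2 x a1.le a2.le
    have := s2 x' b1.le b2.le
    have := hM y
    have := hM y'
    rcases a3 with a3 | a3 <;> rcases b3 with b3 | b3
    · have := s1 y a3
      have := s1 y' b3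
      rw [min_eq_right (a3.trans a1).le, max_eq_left (a3.trans a1).le,
        min_eq_right (b3.trans b1).le, max_eq_left (b3.trans b1).le] at c
      omega
    · have := s1 y a3
      have := s3 y' b3
      rw [min_eq_right (a3.trans a1).le, max_eq_left (a3.trans a1).le,
        min_eq_left (b2.trans b3).le, max_eq_right (b2.trans b3).le] at c
      omega
    · have := s3 y a3
      have := s1 y' b3
      rw [min_eq_left (a2.trans a3).le, max_eq_right (a2.trans a3).le,
        min_eq_right (b3.trans b1).le, max_eq_left (b3.trans b1).le] at c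
      omega
    · have := s3 y a3
      have := s3 y' b3
      rw [min_eq_left (a2.trans a3).le, max_eq_right (a2.trans a3).le,
        min_eq_left (b2.trans b3).le, max_eq_right (b2.trans b3).le] at c
      omega
  let T : V → ℕ → ℕ := fun v i =>
    if pos p ≤ pos v ∧ pos v ≤ pos q then σ (a (wall i)) else σ (b (wall i))
  have hT : ∀ v i j, 1 ≤ i → i ≤ j → j ≤ N → T v i ≤ T v j := by
    intro v i j hi hij hj
    simp only [T]
    split_ifs
    exacts [(hmono i j hi hij hj).1, (hmono i j hi hij hj).2]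
  choose lo l1 l2 using fun v => Ladder_cut N (fun i => T v i < σ v)
    fun i j hi hij hj h => (hT v i j hi hij hj).trans_lt h
  choose hi k1 k2 using fun v => Ladder_cut N (fun i => T v i ≤ σ v)
    fun i j hi hij hj h => (hT v i j hi hij hj).trans h
  have hside : ∀ v i, 1 ≤ i → i ≤ N →
      (pos (b (wall i)) < pos p →
        (i ≤ lo v ↔ pos v < pos (b (wall i)) ∨ pos (a (wall i)) < pos v) ∧
        (hi v < i ↔ pos (b (wall i)) < pos v ∧ pos v < pos (a (wall i)))) ∧
      (pos q < pos (b (wall i)) →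
        (i ≤ lo v ↔ pos (a (wall i)) < pos v ∧ pos v < pos (b (wall i))) ∧
        (hi v < i ↔ pos v < pos (a (wall i)) ∨ pos (b (wall i)) < pos v)) := by
    intro v i h3 h4
    obtain ⟨-, a1, a2, -⟩ := hab _ (hb.mapsTo ⟨h3, h4⟩)
    rw [l2 v i h3 h4, ← not_le (a := i), k2 v i h3 h4]
    simp only [T]
    have e1 := s2 _ a1.le a2.le
    have e2 := hM (b (wall i))
    have e3 := hM v
    refine ⟨fun a3 => ?_, fun a3 => ?_⟩
    · have e4 := s1 _ a3
      split_ifs with h
      · have := s2 v h.1 h.2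
        constructor <;> omega
      · rcases lt_or_ge (pos v) (pos p) with h' | h'
        · have := s1 v h'
          constructor <;> omega
        · have := s3 v (by omega)
          constructor <;> omega
    · have e4 := s3 _ a3
      split_ifs with h
      · have := s2 v h.1 h.2
        constructor <;> omega
      · rcases lt_or_ge (pos v) (pos p) with h' | h'
        · have := s1 v h'
          constructor <;> omega
        · have := s3 v (by omega)
          constructor <;> omega
  refine ⟨N, wall, lo, hi, hb, fun v => ?_, k1, fun v i h3 h4 => ?_, fun v w i h3 h4 => ?_⟩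
  · rcases Nat.eq_zero_or_pos (lo v) with h | h
    · omega
    · exact (k2 v _ h (l1 v)).2 ((l2 v _ h (l1 v)).1 le_rfl).le
  · obtain ⟨e1, a1, a2, a3⟩ := hab _ (hb.mapsTo ⟨h3, h4⟩)
    obtain ⟨u1, u2⟩ := hside v i h3 h4
    have e2 : v ∈ wall i ↔ pos v = pos (a (wall i)) ∨ pos v = pos (b (wall i)) := by
      rw [hp.eq_iff, hp.eq_iff, ← Sym2.mem_iff, ← e1]
    rw [e2, ← not_le (a := i), ← not_lt (a := hi v)]
    rcases a3 with a3 | a3
    · rw [(u1 a3).1, (u1 a3).2]
      clear u1 u2 e2
      omega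
    · rw [(u2 a3).1, (u2 a3).2]
      clear u1 u2 e2
      omega
  · obtain ⟨e1, a1, a2, a3⟩ := hab _ (hb.mapsTo ⟨h3, h4⟩)
    obtain ⟨u1, u2⟩ := hside v i h3 h4
    obtain ⟨u3, u4⟩ := hside w i h3 h4
    have e2 := crs_iff (pos := pos) (a := v) (b := w) (c := a (wall i)) (d := b (wall i))
    rw [← e1] at e2
    rw [e2]
    rcases a3 with a3 | a3
    · rw [(u1 a3).1, (u1 a3).2, (u3 a3).1, (u3 a3).2, min_eq_right (a3.trans a1).le,
        max_eq_left (a3.trans a1).le]
      clear u1 u2 u3 u4 e2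
      rcases le_total (pos v) (pos w) with h | h
      · rw [min_eq_left h, max_eq_right h]
        omega
      · rw [min_eq_right h, max_eq_left h]
        omega
    · rw [(u2 a3).1, (u2 a3).2, (u4 a3).1, (u4 a3).2, min_eq_left (a2.trans a3).le,
        max_eq_right (a2.trans a3).le]
      clear u1 u2 u3 u4 e2
      rcases le_total (pos v) (pos w) with h | h
      · rw [min_eq_left h, max_eq_right h]
        omega
      · rw [min_eq_right h, max_eq_left h]
        omega

end Pool.Agent.Lib.MP_e7c4c5_co.Out
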