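import Pool.Agent.Lib.MP_e7c4c5_co.Out.Defs

/-! Layers and shadows in a graph with a perfect elimination order. -/

set_option autoImplicit false

namespace Pool.Agent.Lib.MP_e7c4c5_co.Out

variable {W : Type} {H : SimpleGraph W} {rk : W → ℕ} {w : ℕ}

/-- There is an increasing path from `y` to `z`. -/
def Desc (H : SimpleGraph W) (rk : W → ℕ) (y z : W) : Prop :=
  Relation.ReflTransGen (fun p q => H.Adj p q ∧ rk p < rk q) y z

/-- A layering: every vertex with an earlier neighbour has one in a smaller layer. -/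
structure Lay (H : SimpleGraph W) (rk lv : W → ℕ) : Prop where
  mono : ∀ u v, H.Adj u v → rk u < rk v → lv u ≤ lv v
  lip : ∀ u v, H.Adj u v → rk u < rk v → lv v ≤ lv u + 1
  down : ∀ u v, H.Adj u v → rk u < rk v → ∃ u', H.Adj u' v ∧ rk u' < rk v ∧ lv u' < lv v

/-- The edges inside the layers. -/
def layer (H : SimpleGraph W) (lv : W → ℕ) : SimpleGraph W where
  Adj u v := H.Adj u v ∧ lv u = lv v
  symm := ⟨fun _ _ h => ⟨h.1.symm, h.2.symm⟩⟩
  loopless := ⟨fun _ h => h.1.ne rfl⟩

/-- The vertices of smaller layers adjacent to an ancestor of `v` in the layer of `v`. -/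
def Shadow (H : SimpleGraph W) (rk lv : W → ℕ) (v : W) : Set W :=
  {u | lv u < lv v ∧ ∃ y, Desc H rk y v ∧ lv y = lv v ∧ H.Adj u y}

/-- There is a decreasing path of length `n` from `v` to a vertex without earlier neighbours. -/
private def Layer_P (H : SimpleGraph W) (rk : W → ℕ) : ℕ → W → Prop
  | 0, v => ∀ u, H.Adj u v → ¬ rk u < rk v
  | n + 1, v => ∃ u, H.Adj u v ∧ rk u < rk v ∧ Layer_P H rk n u

private theorem Layer_ex (H : SimpleGraph W) (rk : W → ℕ) (v : W) : ∃ n, Layer_P H rk n v := by
  induction hd : rk v using Nat.strong_induction_on generalizing v with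
  | _ d ih =>
    by_cases h : ∃ u, H.Adj u v ∧ rk u < rk v
    · obtain ⟨u, h1, h2⟩ := h
      obtain ⟨n, hn⟩ := ih _ (hd ▸ h2) u rfl
      exact ⟨n + 1, u, h1, h2, hn⟩
    · exact ⟨0, fun u h1 h2 => h ⟨u, h1, h2⟩⟩

private theorem Layer_lt (h : PEO H rk w) {u v : W} (ha : H.Adj u v) :
    rk u < rk v ∨ rk v < rk u :=
  Nat.lt_or_gt_of_ne fun e => ha.ne (h.inj e)

private theorem Layer_rk (h : PEO H rk w) {lv : W → ℕ} (hl : Lay H rk lv) {u v : W}
    (ha : H.Adj u v) (hu : lv u < lv v) : rk u < rk v :=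
  (Layer_lt h ha).resolve_right fun e => absurd (hl.mono v u ha.symm e) (by omega)

private theorem Layer_min (f : ℕ → ℕ) {p q : ℕ} (h : p ≤ q) :
    ∃ j, p ≤ j ∧ j ≤ q ∧ ∀ i, p ≤ i → i ≤ q → f j ≤ f i := by
  obtain ⟨j, hj, hm⟩ := (Finset.Icc p q).exists_min_image f ⟨p, by simpa using h⟩
  simp only [Finset.mem_Icc] at hj hm
  exact ⟨j, hj.1, hj.2, fun i h1 h2 => hm i ⟨h1, h2⟩⟩

/- `lv v` is the least length of a decreasing path from `v` to a vertex without earlier
neighbours (`sInf` of the set of `n` with `P n v`, where `P 0 v` says that `v` has no earlier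
neighbour and `P (n + 1) v := ∃ u, H.Adj u v ∧ rk u < rk v ∧ P n u`; or well-founded recursion).
`mono` by strong induction on `rk v`: let `u'` be an earlier neighbour with `lv v = lv u' + 1`;
`u = u'`, or `u'` is an earlier neighbour of `u` (`lip`), or `u` is an earlier neighbour of `u'`
(induction). -/
theorem exists_lay (h : PEO H rk w) : ∃ lv, Lay H rk lv := by
  classical
  have lip : ∀ u v, H.Adj u v → rk u < rk v →
      Nat.find (Layer_ex H rk v) ≤ Nat.find (Layer_ex H rk u) + 1 := fun u v h1 h2 =>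
    Nat.find_min' _ ⟨u, h1, h2, Nat.find_spec (Layer_ex H rk u)⟩
  have down : ∀ u v, H.Adj u v → rk u < rk v → ∃ u', H.Adj u' v ∧ rk u' < rk v ∧
      Nat.find (Layer_ex H rk u') < Nat.find (Layer_ex H rk v) := fun u v h1 h2 => by
    have h3 := Nat.find_spec (Layer_ex H rk v)
    generalize Nat.find (Layer_ex H rk v) = n at h3
    cases n with
    | zero => exact absurd h2 (h3 u h1)
    | succ n =>
      obtain ⟨u', k1, k2, k3⟩ := h3
      exact ⟨u', k1, k2, Nat.lt_succ_of_le (Nat.find_min' _ k3)⟩
  refine ⟨fun v => Nat.find (Layer_ex H rk v), fun u v h1 h2 => ?_, lip, down⟩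
  induction hd : rk v using Nat.strong_induction_on generalizing u v with
  | _ d ih =>
    obtain ⟨u', k1, k2, k3⟩ := down u v h1 h2
    rcases h.clique u u' v h1 k1 h2 k2 with rfl | e
    · exact k3.le
    · rcases Layer_lt h e with e' | e'
      · exact (ih _ (hd ▸ k2) u u' e e' rfl).trans k3.le
      · exact (lip u' u e.symm e').trans k3

theorem Desc.rk_le {y z : W} (h : Desc H rk y z) : rk y ≤ rk z := by
  induction h with
  | refl => exact le_rfl
  | tail _ h2 ih => exact ih.trans h2.2.le

theorem Desc.lv_le {lv : W → ℕ} (hl : Lay H rk lv) {y z : W} (h : Desc H rk y z) :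
    lv y ≤ lv z := by
  induction h with
  | refl => exact le_rfl
  | tail _ h2 ih => exact ih.trans (hl.mono _ _ h2.1 h2.2)

/- Induction on the increasing path: if `rk p < rk q` extend it; otherwise `p ≠ x` or `q = x`,
and `q` and the predecessor of `p` are earlier neighbours of `p`, hence equal or adjacent. -/
theorem Desc.step (h : PEO H rk w) {x p q : W} (hd : Desc H rk x p) (ha : H.Adj p q)
    (hr : rk x ≤ rk q) : Desc H rk x q := by
  induction hd with
  | refl =>
    exact Relation.ReflTransGen.single ⟨ha, (Layer_lt h ha).resolve_right (by omega)⟩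
  | @tail p' p h1 h2 ih =>
    rcases Layer_lt h ha with e | e
    · exact (h1.tail h2).tail ⟨ha, e⟩
    · rcases h.clique p' q p h2.1 ha.symm h2.2 e with rfl | e'
      · exact h1
      · exact ih e'

/- Two ancestors of `v` are comparable: walk down from `v` along the path from `y'`, using
`Desc.step`. -/
theorem Desc.chain (h : PEO H rk w) {y y' v : W} (h1 : Desc H rk y v) (h2 : Desc H rk y' v)
    (hr : rk y ≤ rk y') : Desc H rk y y' := by
  induction h2 using Relation.ReflTransGen.head_induction_on with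
  | refl => exact h1
  | head k1 _ ih => exact Desc.step h (ih (hr.trans k1.2.le)) k1.1.symm hr

/- Induction on the path from `y` to `z`: `rk u < rk z` (otherwise `lv z ≤ lv u`), so `u` and the
predecessor of `z` are earlier neighbours of `z`. -/
theorem Desc.back (h : PEO H rk w) {lv : W → ℕ} (hl : Lay H rk lv) {y z u : W}
    (hd : Desc H rk y z) (ha : H.Adj u z) (hu : lv u < lv y) : H.Adj u y := by
  induction hd with
  | refl => exact ha
  | @tail z' z h1 h2 ih =>
    have k1 : lv y ≤ lv z' := Desc.lv_le hl h1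
    have k2 : lv z' ≤ lv z := hl.mono _ _ h2.1 h2.2
    rcases h.clique u z' z ha h2.1 (Layer_rk h hl ha (by omega)) h2.2 with rfl | e
    · omega
    · exact ih e

/- The vertex of least rank on a piece of a lazy walk is an ancestor of all the others
(`Desc.step` forwards and backwards). -/
theorem Lazy.desc (h : PEO H rk w) {a : ℕ → W} {m p q j : ℕ} (ha : Lazy H a m) (hq : q < m)
    (h1 : p ≤ j) (h2 : j ≤ q) (hj : ∀ i, p ≤ i → i ≤ q → rk (a j) ≤ rk (a i)) :
    ∀ i, p ≤ i → i ≤ q → Desc H rk (a j) (a i) := by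
  intro i k1 k2
  rcases le_total j i with k | k
  · induction i, k using Nat.le_induction with
    | base => exact Relation.ReflTransGen.refl
    | succ i hi ih =>
      have k3 := ih (by omega) (by omega)
      rcases ha i (by omega) with e | e
      · exact e ▸ k3
      · exact k3.step h e (hj _ k1 k2)
  · induction k using Nat.decreasingInduction with
    | self => exact Relation.ReflTransGen.refl
    | of_succ i hi ih =>
      have k3 := ih (by omega) (by omega)
      rcases ha i (by omega) with e | e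
      · exact e ▸ k3
      · exact k3.step h e.symm (hj _ k1 k2)

/- The back-degree drops by `Lay.down`. -/
theorem PEO.layer [Finite W] (h : PEO H rk (w + 1)) {lv : W → ℕ} (hl : Lay H rk lv) :
    PEO (layer H lv) rk w := by
  refine ⟨h.inj, fun x y z h1 h2 h3 h4 => (h.clique x y z h1.1 h2.1 h3 h4).imp_right
    fun e => ⟨e, h1.2.trans h2.2.symm⟩, fun z => ?_⟩
  rcases Set.eq_empty_or_nonempty {x | (Out.layer H lv).Adj x z ∧ rk x < rk z} with e | ⟨u, h1, h2⟩
  · rw [e, Set.ncard_empty]
    exact Nat.zero_le _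
  · obtain ⟨u', k1, k2, k3⟩ := hl.down u z h1.1 h2
    have k4 : {x | (Out.layer H lv).Adj x z ∧ rk x < rk z} ⊂ {x | H.Adj x z ∧ rk x < rk z} :=
      ⟨fun x hx => ⟨hx.1.1, hx.2⟩, fun hs => k3.ne (hs ⟨k1, k2⟩).1.2⟩
    exact Nat.le_of_lt_succ ((Set.ncard_lt_ncard k4).trans_le (h.deg z))

/- `Desc.chain` and `Desc.back` put both among the earlier neighbours of one vertex. -/
theorem shadow_clique (h : PEO H rk w) {lv : W → ℕ} (hl : Lay H rk lv) {v u u' : W}
    (hu : u ∈ Shadow H rk lv v) (hu' : u' ∈ Shadow H rk lv v) : u = u' ∨ H.Adj u u' := by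
  obtain ⟨h1, y, h2, h3, h4⟩ := hu
  obtain ⟨k1, y', k2, k3, k4⟩ := hu'
  rcases le_total (rk y) (rk y') with e | e
  · have k5 := (Desc.chain h h2 k2 e).back h hl k4 (by omega)
    exact h.clique u u' y h4 k5 (Layer_rk h hl h4 (by omega)) (Layer_rk h hl k5 (by omega))
  · have k5 := (Desc.chain h k2 h2 e).back h hl h4 (by omega)
    exact h.clique u u' y' k5 k4 (Layer_rk h hl k5 (by omega)) (Layer_rk h hl k4 (by omega))

/- Between two visits of the layer `l` the walk stays in larger layers.  If `p + 1 < q`, let `y`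
be the vertex of least rank among `a (p + 1), …, a (q - 1)`; by `Lazy.desc` and `Desc.back` both
`a p` and `a q` are earlier neighbours of `y`. -/
theorem Lazy.jump (h : PEO H rk w) {lv : W → ℕ} (hl : Lay H rk lv) {a : ℕ → W} {m p q l : ℕ}
    (ha : Lazy H a m) (hq : q < m) (hpq : p < q) (hp : lv (a p) = l) (hq' : lv (a q) = l)
    (hb : ∀ i, p < i → i < q → l < lv (a i)) : a p = a q ∨ H.Adj (a p) (a q) := by
  obtain ⟨q, rfl⟩ : ∃ q', q = q' + 1 := ⟨q - 1, by omega⟩
  rcases Nat.eq_or_lt_of_le (Nat.le_of_lt_succ hpq) with rfl | hlt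
  · exact ha p hq
  obtain ⟨j, h1, h2, h3⟩ := Layer_min (fun i => rk (a i)) (show p + 1 ≤ q from hlt)
  have hd := ha.desc h (show q < m by omega) h1 h2 h3
  have k0 := hb j (by omega) (by omega)
  have k1 := hb (p + 1) (by omega) (by omega)
  have k2 := hb q (by omega) (by omega)
  have k3 : H.Adj (a p) (a (p + 1)) := (ha p (by omega)).resolve_left fun e => by
    rw [← e] at k1
    omega
  have k4 : H.Adj (a q) (a (q + 1)) := (ha q hq).resolve_left fun e => by
    rw [e] at k2
    omega
  have k5 := (hd (p + 1) le_rfl hlt).back h hl k3 (by omega)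
  have k6 := (hd q hlt le_rfl).back h hl k4.symm (by omega)
  exact h.clique _ _ _ k5 k6 (Layer_rk h hl k5 (by omega)) (Layer_rk h hl k6 (by omega))

/- The walk goes from `a j` in layer `l` to `a i` in layer `l + 1` through layers larger than
`l` (here `j < i` or `i < j`).  Let `y` be the vertex of least rank on the piece without `a j`;
`l < lv y ≤ lv (a i)`, and `a j` is adjacent to the next vertex, so to `y` (`Desc.back`). -/
theorem Lazy.shadow (h : PEO H rk w) {lv : W → ℕ} (hl : Lay H rk lv) {a : ℕ → W} {m i j : ℕ}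
    (ha : Lazy H a m) (hi : i < m) (hj : j < m) (hv : lv (a i) = lv (a j) + 1)
    (hb : ∀ o, min i j < o → o < max i j → lv (a j) < lv (a o)) :
    a j ∈ Shadow H rk lv (a i) := by
  refine ⟨by omega, ?_⟩
  rcases lt_trichotomy j i with hlt | rfl | hlt
  · have hb' : ∀ o, j + 1 ≤ o → o ≤ i → lv (a j) < lv (a o) := fun o h1 h2 => by
      rcases Nat.eq_or_lt_of_le h2 with rfl | h3
      · omega
      · exact hb o (by omega) (by omega)
    obtain ⟨o, h1, h2, h3⟩ := Layer_min (fun i => rk (a i)) (show j + 1 ≤ i from hlt)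
    have hd := ha.desc h hi h1 h2 h3
    have k0 := hb' o h1 h2
    have k1 := hb' (j + 1) le_rfl hlt
    have k2 := (hd i hlt le_rfl).lv_le hl
    have k3 : H.Adj (a j) (a (j + 1)) := (ha j (by omega)).resolve_left fun e => by
      rw [← e] at k1
      omega
    exact ⟨a o, hd i hlt le_rfl, by omega, (hd (j + 1) le_rfl hlt).back h hl k3 k0⟩
  · omega
  · obtain ⟨j, rfl⟩ : ∃ j', j = j' + 1 := ⟨j - 1, by omega⟩
    have hb' : ∀ o, i ≤ o → o ≤ j → lv (a (j + 1)) < lv (a o) := fun o h1 h2 => by
      rcases Nat.eq_or_lt_of_le h1 with rfl | h3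
      · omega
      · exact hb o (by omega) (by omega)
    have hle : i ≤ j := by omega
    obtain ⟨o, h1, h2, h3⟩ := Layer_min (fun i => rk (a i)) hle
    have hd := ha.desc h (show j < m by omega) h1 h2 h3
    have k0 := hb' o h1 h2
    have k1 := hb' j hle le_rfl
    have k2 := (hd i le_rfl hle).lv_le hl
    have k3 : H.Adj (a j) (a (j + 1)) := (ha j hj).resolve_left fun e => by
      rw [e] at k1
      omega
    exact ⟨a o, hd i le_rfl hle, by omega, (hd j hle le_rfl).back h hl k3.symm k0⟩

end Pool.Agent.Lib.MP_e7c4c5_co.Out
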