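import Pool.Agent.Lib.MP_e7c4c5_co.Out.RepDefs

/-! Existence of the slots. -/

set_option autoImplicit false

namespace Pool.Agent.Lib.MP_e7c4c5_co.Out

variable {V : Type} {G : SimpleGraph V} {pos : V → ℕ} {k : ℕ}

theorem OE.e_inj : Function.Injective (OE.e : OE G pos → Sym2 V) := by
  rintro ⟨⟨a, b⟩, h1, h2⟩ ⟨⟨c, d⟩, h3, h4⟩ e
  rcases Sym2.eq_iff.1 e with ⟨e1, e2⟩ | ⟨e1, e2⟩
  · exact Subtype.ext (Prod.ext e1 e2)
  · simp only at e1 e2 h2 h4
    subst e1 e2
    omega

/- Let `N` exceed all positions, `bl v = 4 * N * pos v`, `br v = bl v + (4 * N - 1)`,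
`slot v u = bl v + 2 * (if pos u < pos v then pos v - pos u else 2 * N - (pos u - pos v))`,
`al f = slot f.1.1 f.1.2`, `de f = slot f.1.2 f.1.1`.  The only non-linear fact needed is
`pos v < pos w → bl v + 4 * N ≤ bl w` (and `bl v` is even); everything else is `crs_iff`, a case
distinction on the order of the positions, and `omega`.  Put
`pay f g := Crs pos f.e g.e ∧ g.e ∈ ch f.e ∧ (f.e ∈ ch g.e → al f < al g)`. -/
theorem exists_slots [Finite V] {ch : Sym2 V → Finset (Sym2 V)} (h : Outer G k pos ch) :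
    Nonempty (Slots G pos k) := by
  obtain ⟨N, hN⟩ : ∃ N, ∀ v, pos v < N := by
    obtain ⟨M, hM⟩ := (Set.finite_range pos).bddAbove
    exact ⟨M + 1, fun v => Nat.lt_succ_of_le (hM ⟨v, rfl⟩)⟩
  obtain ⟨B, hB, hE⟩ : ∃ B : V → ℕ, (∀ v w, pos v < pos w ∧ B v + 4 * N ≤ B w ∨
      pos v = pos w ∧ B v = B w ∨ pos w < pos v ∧ B w + 4 * N ≤ B v) ∧ ∀ v, B v % 2 = 0 := by
    have key : ∀ x y : ℕ, x < y → 4 * N * x + 4 * N ≤ 4 * N * y := fun x y hxy =>
      Nat.mul_le_mul_left (4 * N) hxy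
    refine ⟨fun v => 4 * N * pos v, fun v w => ?_, fun v => ?_⟩
    · rcases lt_trichotomy (pos v) (pos w) with e | e | e
      · exact Or.inl ⟨e, key _ _ e⟩
      · exact Or.inr (Or.inl ⟨e, by simp only [e]⟩)
      · exact Or.inr (Or.inr ⟨e, key _ _ e⟩)
    · simp only [mul_assoc]
      omega
  obtain ⟨al, hal⟩ : ∃ al : OE G pos → ℕ,
      ∀ f, al f = B f.1.1 + 2 * (2 * N - (pos f.1.2 - pos f.1.1)) := ⟨_, fun _ => rfl⟩
  obtain ⟨de, hde⟩ : ∃ de : OE G pos → ℕ,
      ∀ f, de f = B f.1.2 + 2 * (pos f.1.2 - pos f.1.1) := ⟨_, fun _ => rfl⟩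
  have hext : ∀ f g : OE G pos, pos f.1.1 = pos g.1.1 → pos f.1.2 = pos g.1.2 → f = g :=
    fun f g e1 e2 => Subtype.ext (Prod.ext (h.inj e1) (h.inj e2))
  have hcrs : ∀ f g : OE G pos, Crs pos f.e g.e ↔
      al f < al g ∧ al g < de f ∧ de f < de g ∨ al g < al f ∧ al f < de g ∧ de g < de f := by
    intro f g
    have a1 := f.2.2
    have a2 := g.2.2
    have a3 := hN f.1.2
    have a4 := hN g.1.2
    unfold OE.e
    rw [crs_iff, min_eq_left a1.le, max_eq_right a1.le, min_eq_left a2.le, max_eq_right a2.le,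
      hal, hal, hde, hde]
    rcases hB f.1.1 g.1.1 with b1 | b1 | b1 <;> rcases hB f.1.2 g.1.2 with b2 | b2 | b2 <;>
      rcases hB f.1.1 g.1.2 with b3 | b3 | b3 <;> rcases hB f.1.2 g.1.1 with b4 | b4 | b4 <;> omega
  refine ⟨{
    bl := B
    br := fun v => B v + (4 * N - 1)
    al := al
    de := de
    pay := fun f g => Crs pos f.e g.e ∧ g.e ∈ ch f.e ∧ (f.e ∈ ch g.e → al f < al g)
    bl_le := fun v => Nat.le_add_right _ _
    sep := fun v w hvw => ?_
    al_mem := fun f => ?_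
    de_mem := fun f => ?_
    al_lt := fun f => ?_
    al_even := fun f => ?_
    de_even := fun f => ?_
    al_inj := fun f g e => ?_
    de_inj := fun f g e => ?_
    al_ne := fun f g e => ?_
    crs := hcrs
    pay_crs := fun f g e => e.1
    pay_iff := fun f g e => ?_
    pay_card := fun f => ?_ }⟩
  · have a1 := hB v w
    have a2 := hN v
    have a3 : pos v ≠ pos w := fun e => hvw (h.inj e)
    omega
  · have a1 := f.2.2
    have a2 := hN f.1.2
    rw [hal]
    omega
  · have a1 := f.2.2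
    have a2 := hN f.1.2
    rw [hde]
    omega
  · have a1 := f.2.2
    have a2 := hN f.1.2
    have a3 := hB f.1.1 f.1.2
    rw [hal, hde]
    omega
  · have a1 := hE f.1.1
    rw [hal]
    omega
  · have a1 := hE f.1.2
    rw [hde]
    omega
  · have a1 := f.2.2
    have a2 := g.2.2
    have a3 := hN f.1.2
    have a4 := hN g.1.2
    have a5 := hB f.1.1 g.1.1
    rw [hal, hal] at e
    exact hext f g (by omega) (by omega)
  · have a1 := f.2.2
    have a2 := g.2.2
    have a3 := hN f.1.2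
    have a4 := hN g.1.2
    have a5 := hB f.1.2 g.1.2
    rw [hde, hde] at e
    exact hext f g (by omega) (by omega)
  · have a1 := f.2.2
    have a2 := g.2.2
    have a3 := hN f.1.2
    have a4 := hN g.1.2
    have a5 := hB f.1.1 g.1.2
    rw [hal, hde] at e
    omega
  · have a1 := (hcrs f g).1 e
    have a2 := h.pay f.e f.2.1 g.e g.2.1 e
    have a3 := e.symm
    by_cases b1 : g.e ∈ ch f.e <;> by_cases b2 : f.e ∈ ch g.e <;> simp_all
    omega
  · refine le_trans ?_ (h.card f.e)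
    rw [← Set.ncard_coe_finset]
    exact Set.ncard_le_ncard_of_injOn OE.e (fun g hg => hg.2.1) OE.e_inj.injOn
      (Finset.finite_toSet _)

end Pool.Agent.Lib.MP_e7c4c5_co.Out
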