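import Pool.Agent.Lib.MP_e7c4c5_co.Out.PreEx
import Pool.Agent.Lib.MP_e7c4c5_co.Out.SlotEx

/-! Reparametrising the walks to a common length. -/

set_option autoImplicit false

namespace Pool.Agent.Lib.MP_e7c4c5_co.Out

variable {V W : Type} {G : SimpleGraph V} {pos : V → ℕ} {L : ℕ}

/- Let `κ τ` be the number of changes before time `τ`: `κ 0 = 0`, `κ (τ + 1) = κ τ` if
`b τ = b (τ + 1)` and `κ τ + 1` otherwise; `κ 1 = 1`, `κ n = κ (n - 1) + 1 ≤ L`, and `κ τ = κ τ'`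
implies `b τ = b τ'`.  Every `o ≤ κ (n - 1)` is a value `κ τ` with `τ ≤ n - 1`, and for
`o < κ (n - 1)` there is `τ` with `κ τ = o`, `κ (τ + 1) = o + 1`.  Let `l o = b n` for `L ≤ o` and
`l o = b τ` with `κ τ = min o (κ (n - 1))`, `τ ≤ n - 1`, otherwise. -/
theorem compress {A : SimpleGraph W} {b : ℕ → W} {n : ℕ} (hn : 2 ≤ n) (hb : Lazy A b (n + 1))
    (h0 : b 0 ≠ b 1) (h1 : b (n - 1) ≠ b n) (hc : {τ | τ < n ∧ b τ ≠ b (τ + 1)}.ncard ≤ L) :
    ∃ l : ℕ → W, l 0 = b 0 ∧ l L = b n ∧ Lazy A l (L + 1) ∧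
      (∀ o, 0 < o → o < L → ∃ τ, 0 < τ ∧ τ < n ∧ l o = b τ) ∧
      ∀ τ, 0 < τ → τ < n → ∃ o, 0 < o ∧ o < L ∧ l o = b τ := by
  classical
  obtain ⟨κ, k0, ks, kn⟩ : ∃ κ : ℕ → ℕ, κ 0 = 0 ∧
      (∀ τ, κ (τ + 1) = κ τ + if b τ ≠ b (τ + 1) then 1 else 0) ∧ κ n ≤ L := by
    refine ⟨Nat.count fun τ => b τ ≠ b (τ + 1), Nat.count_zero _, Nat.count_succ _, ?_⟩
    rw [Nat.count_eq_card_filter_range, ← Set.ncard_coe_finset]
    simpa using hc
  have km : Monotone κ := monotone_nat_of_le_succ fun τ => by rw [ks]; omega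
  have ke : ∀ τ τ', τ ≤ τ' → κ τ' ≤ κ τ → b τ = b τ' := by
    intro τ τ' h
    induction τ', h using Nat.le_induction with
    | base => exact fun _ => rfl
    | succ τ' h ih =>
      intro h'
      have e1 := ks τ'
      have e2 := km h
      split_ifs at e1 with e3
      · omega
      · rw [ih (by omega)]
        exact not_not.1 e3
  have k1 : κ 1 = 1 := by
    have := ks 0
    rwa [if_pos h0, k0] at this
  have k2 : κ (n - 1) < L := by
    have := ks (n - 1)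
    rw [Nat.sub_add_cancel (by omega), if_pos h1] at this
    omega
  have k3 : 1 ≤ κ (n - 1) := k1 ▸ km (by omega)
  obtain ⟨g, g1, g2⟩ : ∃ g : ℕ → ℕ, (∀ o, g o ≤ n - 1) ∧
      ∀ o τ, τ ≤ n - 1 → (τ ≤ g o ↔ κ τ ≤ o) := by
    refine ⟨fun o => Nat.findGreatest (fun τ => κ τ ≤ o) (n - 1), fun o => Nat.findGreatest_le _,
      fun o τ hτ => ⟨fun h => (km h).trans ?_, Nat.le_findGreatest (P := fun τ => κ τ ≤ o) hτ⟩⟩
    exact Nat.findGreatest_spec (P := fun τ => κ τ ≤ o) (Nat.zero_le _) (by omega)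
  have g3 : ∀ o, κ (g o) ≤ o := fun o => (g2 o _ (g1 o)).1 le_rfl
  refine ⟨fun o => if o < L then b (g o) else b n, ?_, if_neg (lt_irrefl _), fun o ho => ?_,
    fun o h2 h3 => ?_, fun τ h2 h3 => ?_⟩
  · have := g2 0 1 (by omega)
    have e : g 0 = 0 := by omega
    dsimp only
    rw [if_pos (by omega), e]
  · dsimp only
    rw [if_pos (by omega)]
    split_ifs with h
    · have e1 := (g2 (o + 1) _ (g1 o)).2 ((g3 o).trans (by omega))
      rcases e1.eq_or_lt with e2 | e2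
      · exact Or.inl (by rw [e2])
      · have e3 := g1 (o + 1)
        have e4 := g2 o (g o + 1) (by omega)
        have e5 := g3 (o + 1)
        rw [← ke (g o + 1) (g (o + 1)) e2 (by omega)]
        exact hb _ (by omega)
    · have e1 := (g2 o (n - 1) le_rfl).2 (by omega)
      have e2 := g1 o
      have e3 : n = g o + 1 := by omega
      have := hb (g o) (by omega)
      rwa [← e3] at this
  · have e1 := (g2 o 1 (by omega)).2 (by omega)
    have e2 := g1 o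
    exact ⟨g o, e1, by omega, if_pos h3⟩
  · have e1 : κ 1 ≤ κ τ := km h2
    have e2 : κ τ ≤ κ (n - 1) := km (by omega)
    refine ⟨κ τ, by omega, by omega, ?_⟩
    dsimp only
    rw [if_pos (by omega)]
    exact (ke _ _ ((g2 _ τ (by omega)).2 le_rfl) (g3 _)).symm

/- Choose `l f` by `compress` (`b 0 ≠ b 1` because of `own`).  If `G.Adj v u` and `pos v < pos u`
put `lab v u o = l (v, u) o`; if `pos u < pos v` put `lab v u o = l (u, v) (L - o)`.  An inner node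
`l f o` is within `o ≤ L` steps of `ι f.1.1` (`Lazy.near`), which is adjacent to `ω`. -/
theorem PreRep.rep (hp : Function.Injective pos) (P : PreRep G pos L W) :
    Nonempty (Rep G pos L W) := by
  classical
  have hne : ∀ f τ v, 0 < τ → τ < P.n f → P.ι v ≠ P.b f τ := by
    intro f τ v h1 h2 e
    obtain ⟨e', h3, -⟩ := P.b_int f τ h1 h2
    rw [← e, P.own_ι] at h3
    cases h3
  choose l l0 lL ll li lo using fun f => compress (P.two_le f) (P.b_lazy f)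
    (by
      have := P.two_le f
      rw [P.b_zero]
      exact hne f 1 _ one_pos (by omega))
    (by
      have := P.two_le f
      rw [P.b_last]
      exact (hne f _ _ (by omega) (by omega)).symm) (P.change f)
  obtain ⟨lab, hlab⟩ : ∃ lab : V → V → ℕ → W, ∀ v u, G.Adj v u → ∃ f : OE G pos, f.e = s(v, u) ∧
      (f.1.1 = v ∧ (∀ o, lab v u o = l f o ∧ lab u v o = l f (L - o)) ∨
        f.1.2 = v ∧ ∀ o, lab v u o = l f (L - o) ∧ lab u v o = l f o) := by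
    refine ⟨fun v u o => if h : G.Adj v u ∧ pos v < pos u then l ⟨(v, u), h⟩ o
      else if h : G.Adj u v ∧ pos u < pos v then l ⟨(u, v), h⟩ (L - o) else P.ω, fun v u h => ?_⟩
    rcases lt_or_gt_of_ne (hp.ne h.ne) with h1 | h1
    · refine ⟨⟨(v, u), h, h1⟩, rfl, Or.inl ⟨rfl, fun o => ⟨dif_pos ⟨h, h1⟩, ?_⟩⟩⟩
      exact (dif_neg fun h2 => h1.not_gt h2.2).trans (dif_pos ⟨h, h1⟩)
    · refine ⟨⟨(u, v), h.symm, h1⟩, Sym2.eq_swap, Or.inr ⟨rfl, fun o =>
        ⟨?_, dif_pos ⟨h.symm, h1⟩⟩⟩⟩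
      exact (dif_neg fun h2 => h1.not_gt h2.2).trans (dif_pos ⟨h.symm, h1⟩)
  have hin : ∀ v u, G.Adj v u → ∃ f : OE G pos, f.e = s(v, u) ∧
      (∀ o, 0 < o → o < L → ∃ τ, 0 < τ ∧ τ < P.n f ∧ lab v u o = P.b f τ) ∧
      ∀ τ, 0 < τ → τ < P.n f → ∃ o, 0 < o ∧ o < L ∧ lab v u o = P.b f τ := by
    intro v u h
    obtain ⟨f, e, ⟨-, h1⟩ | ⟨-, h1⟩⟩ := hlab v u h
    · refine ⟨f, e, fun o h2 h3 => ?_, fun τ h2 h3 => ?_⟩
      · rw [(h1 o).1]
        exact li f o h2 h3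
      · obtain ⟨o, o1, o2, o3⟩ := lo f τ h2 h3
        exact ⟨o, o1, o2, (h1 o).1.trans o3⟩
    · refine ⟨f, e, fun o h2 h3 => ?_, fun τ h2 h3 => ?_⟩
      · rw [(h1 o).1]
        exact li f _ (by omega) (by omega)
      · obtain ⟨o, o1, o2, o3⟩ := lo f τ h2 h3
        refine ⟨L - o, by omega, by omega, ?_⟩
        rw [(h1 _).1, Nat.sub_sub_self o2.le, o3]
  refine ⟨⟨P.A, P.ω, P.ι, P.own, lab, P.planar, fun z hz => ?_, P.ι_inj, P.own_ι,
    fun v u h => ?_, fun v u h o ho => ?_, fun v u h => ?_, fun v u h o h1 h2 => ?_,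
    fun v u v' u' h h' hc => ?_⟩⟩
  · rcases P.supp z hz with rfl | ⟨v, rfl⟩ | ⟨f, τ, h1, h2, rfl⟩
    · exact Near.refl trivial
    · exact (Near.of_adj (P.adj_ω v) (Set.mem_univ _) (Set.mem_univ _)).mono (by omega)
    · obtain ⟨o, -, o2, o3⟩ := lo f τ h1 h2
      have k := (ll f).near (S := Set.univ) (Nat.zero_le o) (by omega) fun _ _ _ => trivial
      rw [o3, l0, P.b_zero] at k
      exact (k.symm.trans (Near.of_adj (P.adj_ω _) trivial trivial)).mono (by omega)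
  · obtain ⟨f, -, ⟨e, h1⟩ | ⟨e, h1⟩⟩ := hlab v u h
    · rw [(h1 0).1, l0, P.b_zero, e]
    · rw [(h1 0).1, Nat.sub_zero, lL, P.b_last, e]
  · obtain ⟨f, -, ⟨-, h1⟩ | ⟨-, h1⟩⟩ := hlab v u h
    · rw [(h1 o).2, (h1 _).1]
    · rw [(h1 o).2, (h1 _).1, Nat.sub_sub_self ho]
  · intro i hi
    obtain ⟨f, -, ⟨-, h1⟩ | ⟨-, h1⟩⟩ := hlab v u h
    · rw [(h1 _).1, (h1 _).1]
      exact ll f i hi
    · have e : L - i = L - (i + 1) + 1 := by omega
      rw [(h1 _).1, (h1 _).1, e]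
      exact (ll f _ (by omega)).imp Eq.symm SimpleGraph.Adj.symm
  · obtain ⟨f, e, k1, -⟩ := hin v u h
    obtain ⟨τ, t1, t2, t3⟩ := k1 o h1 h2
    rw [t3, ← e]
    exact P.b_int f τ t1 t2
  · obtain ⟨f, e, -, k1⟩ := hin v u h
    obtain ⟨f', e', -, k2⟩ := hin v' u' h'
    rw [← e, ← e'] at hc
    obtain ⟨τ, σ, t1, t2, t3, t4, t5⟩ := P.share f f' hc
    obtain ⟨o, o1, o2, o3⟩ := k1 τ t1 t2
    obtain ⟨o', p1, p2, p3⟩ := k2 σ t3 t4
    exact ⟨o, o', o1, o2, p1, p2, by rw [o3, p3, t5]⟩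

theorem exists_rep [Finite V] {k : ℕ} {ch : Sym2 V → Finset (Sym2 V)} (h : Outer G k pos ch) :
    Nonempty (Rep G pos (2 * k + 2) (Nd G pos k)) := by
  obtain ⟨S⟩ := exists_slots h
  obtain ⟨P⟩ := S.preRep
  exact P.rep h.inj

end Pool.Agent.Lib.MP_e7c4c5_co.Out
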