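import Pool.Agent.Lib.MP_e7c4c5_co.Out.Stage
import Pool.Agent.Lib.MP_e7c4c5_co.Out.Augment
import Pool.Agent.Lib.MP_e7c4c5_co.Out.RepEx
import Pool.Agent.Lib.MP_e7c4c5_co.Out.Display

/-! Outer gap-planar graphs have bounded nonrepetitive chromatic number. -/

set_option autoImplicit false

namespace Pool.Agent.Lib.MP_e7c4c5_co.Out

variable {V W : Type} {G : SimpleGraph V} {pos : V → ℕ} {L : ℕ}

namespace Rep

variable (R : Rep G pos L W) (rk : W → ℕ)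

/-- The edge `v u` passes through `x`, the earliest of its inner labels. -/
def Thru (x : W) (v u : V) : Prop :=
  G.Adj v u ∧ (∃ o, 0 < o ∧ o < L ∧ R.lab v u o = x) ∧
    ∀ o, 0 < o → o < L → rk x ≤ rk (R.lab v u o)

/-- The edges through `x` that cross the edge to which `x` belongs. -/
def Rung (x : W) : Set (Sym2 V) :=
  {f | (∃ e, R.own x = some e ∧ Crs pos e f) ∧ ∃ v u, f = s(v, u) ∧ R.Thru rk x v u}

/-- The step from `v` to `u` lies below `x` and meets a wall. -/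
def Ctx (𝓦 : Set (Sym2 V)) (x : W) (v u : V) : Prop :=
  (∀ o < L, rk x ≤ rk (R.lab v u o)) ∧
    ∃ r ∈ 𝓦, Crs pos s(v, u) r ∨ v ∈ r ∨ u ∈ r ∧ rk x ≤ rk (R.ι u)

variable {R rk} {x : W} {v u : V}

theorem lab_last (h : G.Adj v u) : R.lab v u L = R.ι u := by
  rw [R.lab_rev u v h.symm L le_rfl, Nat.sub_self, R.lab_zero u v h.symm]

theorem Thru.symm (h : R.Thru rk x v u) : R.Thru rk x u v := by
  obtain ⟨h1, ⟨o, o1, o2, e⟩, h3⟩ := h
  refine ⟨h1.symm, ⟨L - o, by omega, by omega, ?_⟩, fun p p1 p2 => ?_⟩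
  · rw [R.lab_rev v u h1 _ (by omega), show L - (L - o) = o by omega, e]
  · rw [R.lab_rev v u h1 _ p2.le]
    exact h3 _ (by omega) (by omega)

theorem Thru.near_int (h : R.Thru rk x v u) {p : ℕ} (p1 : 0 < p) (p2 : p < L) :
    Near R.A {y | rk x ≤ rk y} L (R.lab v u p) x := by
  obtain ⟨h1, ⟨o, o1, o2, e⟩, h3⟩ := h
  rcases le_total p o with k | k
  · exact e ▸ ((R.lab_lazy v u h1).near k (by omega) fun q q1 q2 =>
      e ▸ h3 q (by omega) (by omega)).mono (by omega)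
  · exact e ▸ ((R.lab_lazy v u h1).near k (by omega) fun q q1 q2 =>
      e ▸ h3 q (by omega) (by omega)).symm.mono (by omega)

theorem Thru.near_end (h : R.Thru rk x v u) (hv : rk x ≤ rk (R.ι v)) :
    Near R.A {y | rk x ≤ rk y} L (R.ι v) x := by
  obtain ⟨h1, ⟨o, o1, o2, e⟩, h3⟩ := h
  have k := (R.lab_lazy v u h1).near (S := {y | rk x ≤ rk y}) (Nat.zero_le o) (by omega)
    fun q _ q2 => by
      rcases Nat.eq_zero_or_pos q with rfl | q1
      · rwa [R.lab_zero v u h1]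
      · exact h3 q q1 (by omega)
  rw [R.lab_zero v u h1, e] at k
  exact k.mono (by omega)

theorem Rung.thru {r : Sym2 V} (hr : r ∈ R.Rung rk x) (hv : v ∈ r) : ∃ q, R.Thru rk x v q := by
  obtain ⟨-, p, q, rfl, h⟩ := hr
  rcases Sym2.mem_iff.1 hv with rfl | rfl
  exacts [⟨q, h⟩, ⟨p, h.symm⟩]

theorem Ctx.near {𝓦 : Set (Sym2 V)} (hW : 𝓦 ⊆ R.Rung rk x) (hL : 0 < L) (ha : G.Adj v u)
    (h : R.Ctx rk 𝓦 x v u) : Near R.A {y | rk x ≤ rk y} (L + L) (R.ι v) x := by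
  obtain ⟨h1, r, hr, h2 | h2 | ⟨h2, h3⟩⟩ := h
  · obtain ⟨-, p, q, rfl, ht⟩ := hW hr
    obtain ⟨o, o', o1, o2, o3, o4, e⟩ := R.share v u p q ha ht.1 h2
    have k := (R.lab_lazy v u ha).near (S := {y | rk x ≤ rk y}) (Nat.zero_le o) (by omega)
      fun q _ q2 => h1 q (by omega)
    rw [R.lab_zero v u ha, e] at k
    exact (k.trans (ht.near_int o3 o4)).mono (by omega)
  · obtain ⟨q, ht⟩ := Rung.thru (hW hr) h2
    exact (ht.near_end (R.lab_zero v u ha ▸ h1 0 hL)).mono (by omega)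
  · obtain ⟨q, ht⟩ := Rung.thru (hW hr) h2
    have k := (R.lab_lazy v u ha).near (S := {y | rk x ≤ rk y}) (Nat.zero_le L) (by omega)
      fun q _ q2 => by
        rcases q2.eq_or_lt with rfl | q3
        · rwa [lab_last ha]
        · exact h1 q q3
    rw [R.lab_zero v u ha, lab_last ha] at k
    exact k.trans (ht.near_end h3)

end Rep

theorem main_seq (k : ℕ) : ∃ n : ℕ, ∀ (V : Type) [Finite V] (G : SimpleGraph V) (pos : V → ℕ)
    (ch : Sym2 V → Finset (Sym2 V)), Outer G k pos ch → ∃ col : V → Fin n,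
      ∀ (t : ℕ) (w : ℕ → V), 0 < t → (∀ j, j + 1 < 2 * t → G.Adj (w j) (w (j + 1))) →
        (∀ i < 2 * t, ∀ j < 2 * t, w i = w j → i = j) → ∃ i < t, col (w i) ≠ col (w (t + i)) := by
  classical
  obtain ⟨L, hL⟩ : ∃ L, L = 2 * k + 2 := ⟨_, rfl⟩
  have L0 : 0 < L := by omega
  obtain ⟨w₀, hw₀⟩ := planar_peo (L + 1) (L + L)
  obtain ⟨n₁, hn₁⟩ := kp w₀
  obtain ⟨n₂, hn₂⟩ := stage k
  obtain ⟨n, hn⟩ := display k ((Fin L → Fin n₁) × (Fin L → Prop) × (Fin n₁ → Option (Fin n₂)))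
  refine ⟨n, fun V _ G pos ch h => ?_⟩
  obtain ⟨R⟩ : Nonempty (Rep G pos L (Nd G pos k)) := hL ▸ exists_rep h
  obtain ⟨H, rk, hH, hN⟩ := hw₀ _ R.A R.ω R.planar R.rad
  obtain ⟨c, hc⟩ := hn₁ _ H rk hH
  have hst := fun x (e : Sym2 V) (he : R.own x = some e) =>
    hn₂ V G pos ch h e (R.Rung rk x) (by rintro _ ⟨-, v, u, rfl, ht⟩; exact ht.1)
      (by rintro f ⟨⟨e', h1, h2⟩, -⟩; rwa [Option.some.inj (he.symm.trans h1)])
  choose 𝓦 hW ξ hξ using hst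
  let P : V → V → Fin n₁ → Nd G pos k × Sym2 V → Prop := fun v u γ p =>
    H.Adj p.1 (R.ι v) ∧ rk p.1 < rk (R.ι v) ∧ c p.1 = γ ∧
      ∃ he : R.own p.1 = some p.2, R.Ctx rk (𝓦 p.1 p.2 he) p.1 v u
  let slot : V → V → Fin n₁ → Option (Fin n₂) := fun v u γ =>
    if hp : ∃ p, P v u γ p then some (ξ hp.choose.1 hp.choose.2 hp.choose_spec.2.2.2.1 v u)
    else none
  have hs : ∀ v u x e (he : R.own x = some e), H.Adj x (R.ι v) → rk x < rk (R.ι v) →
      slot v u (c x) = if R.Ctx rk (𝓦 x e he) x v u then some (ξ x e he v u) else none := by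
    intro v u x e he h1 h2
    have uq : ∀ p, P v u (c x) p → p = (x, e) := by
      rintro ⟨x', e'⟩ ⟨k1, k2, k3, k4, -⟩
      obtain rfl : x' = x := (hH.clique _ _ _ k1 h1 k2 h2).resolve_right fun q => hc.proper q k3
      exact Prod.ext rfl (Option.some.inj (k4.symm.trans he))
    have cg : ∀ p (hp : R.own p.1 = some p.2), p = (x, e) → ξ p.1 p.2 hp v u = ξ x e he v u := by
      rintro _ _ rfl
      rfl
    split_ifs with q
    · have hp : ∃ p, P v u (c x) p := ⟨(x, e), h1, h2, rfl, he, q⟩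
      simp only [slot, dif_pos hp]
      rw [cg _ _ (uq _ hp.choose_spec)]
    · refine dif_neg fun ⟨p, hp⟩ => q ?_
      obtain rfl := uq p hp
      exact hp.2.2.2.2
  obtain ⟨col, hcol⟩ := hn V G pos ch h fun v u => (fun o => c (R.lab v u o),
    fun o => R.own (R.lab v u o) = some s(v, u), slot v u)
  refine ⟨col, fun t w ht hw1 hw2 => ?_⟩
  by_contra hcon
  push Not at hcon
  obtain ⟨y, y1, y2, y3, y4⟩ := hcol t w ht hw1 hw2 hcon
  simp only [Prod.mk.injEq] at y4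
  let a : ℕ → Nd G pos k := fun j => R.lab (y (j / L)) (y (j / L + 1)) (j % L)
  have a1 : ∀ i o, o < L → a (i * L + o) = R.lab (y i) (y (i + 1)) o := fun i o ho => by
    simp only [a]
    rw [Nat.add_comm (i * L), Nat.add_mul_div_right _ _ L0, Nat.add_mul_mod_self_right,
      Nat.div_eq_of_lt ho, Nat.mod_eq_of_lt ho, Nat.zero_add]
  have a2 : ∀ i o, o < L → a (t * L + (i * L + o)) = R.lab (y (t + i)) (y (t + i + 1)) o :=
    fun i o ho => by rw [← a1 _ _ ho, Nat.add_mul, Nat.add_assoc]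
  have a3 : ∀ m j, j < m * L → ∃ i < m, ∃ o < L, j = i * L + o := fun m j hj =>
    ⟨j / L, (Nat.div_lt_iff_lt_mul L0).2 hj, j % L, Nat.mod_lt _ L0, (Nat.div_add_mod' j L).symm⟩
  have a4 : ∀ m i o, i < m → o < L → i * L + o < m * L := fun m i o h1 h2 => by
    have := Nat.mul_le_mul_right L (Nat.succ_le_of_lt h1)
    rw [Nat.succ_mul] at this
    omega
  have la : Lazy H a (2 * (t * L)) := by
    intro j hj
    obtain ⟨i, hi, o, ho, rfl⟩ := a3 (2 * t) j (by rw [Nat.mul_assoc]; omega)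
    have e : a (i * L + o + 1) = R.lab (y i) (y (i + 1)) (o + 1) := by
      rcases (Nat.succ_le_of_lt ho).eq_or_lt with q | q
      · have hi' : i + 1 < 2 * t := by
          refine lt_of_mul_lt_mul_right (a := L) ?_ L0.le
          rw [Nat.succ_mul, Nat.mul_assoc]
          omega
        rw [show i * L + o + 1 = (i + 1) * L + 0 by rw [Nat.succ_mul]; omega, a1 _ _ L0,
          R.lab_zero _ _ (y1 _ hi'), show o + 1 = L from q, Rep.lab_last (y1 i hi)]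
      · exact a1 i (o + 1) q
    rw [e, a1 i o ho]
    refine (R.lab_lazy _ _ (y1 i hi) o (by omega)).imp id fun q => ?_
    rcases le_total (rk (R.lab (y i) (y (i + 1)) o)) (rk (R.lab (y i) (y (i + 1)) (o + 1))) with
      r | r
    · exact hN _ _ q.ne' ((Near.of_adj q.symm r (Nat.le_refl _)).mono (by omega))
    · exact (hN _ _ q.ne ((Near.of_adj q r (Nat.le_refl _)).mono (by omega))).symm
  have lc : ∀ j < t * L, c (a j) = c (a (t * L + j)) := by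
    intro j hj
    obtain ⟨i, hi, o, ho, rfl⟩ := a3 t j hj
    rw [a1 i o ho, a2 i o ho]
    exact congrFun (y4 i hi).1 ⟨o, ho⟩
  obtain ⟨j, hj, x1, x2⟩ := hc.meet (Nat.mul_pos ht L0) la lc
  have x3 := hc _ a (a j) la lc ⟨j, by omega, rfl⟩ x2
  obtain ⟨i₀, hi₀, o₀, ho₀, rfl⟩ := a3 t j hj
  rw [a2 i₀ o₀ ho₀] at x1
  rw [a1 i₀ o₀ ho₀] at x1 x2 x3
  obtain ⟨x, hx⟩ : ∃ x, R.lab (y i₀) (y (i₀ + 1)) o₀ = x := ⟨_, rfl⟩
  rw [hx] at x1 x2 x3
  have b1 : ∀ i < 2 * t, ∀ o < L, rk x ≤ rk (R.lab (y i) (y (i + 1)) o) := fun i hi o ho =>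
    a1 i o ho ▸ x2 _ (Nat.mul_assoc 2 t L ▸ a4 _ i o hi ho)
  have b2 : ∀ i < 2 * t, rk x ≤ rk (R.ι (y i)) := fun i hi =>
    R.lab_zero _ _ (y1 i hi) ▸ b1 i hi 0 L0
  have b3 : ∀ i < t, H.Adj x (R.ι (y i)) ↔ H.Adj x (R.ι (y (t + i))) := fun i hi => by
    have := (x3 _ (a4 _ i 0 hi L0)).2
    rwa [a1 i 0 L0, a2 i 0 L0, R.lab_zero _ _ (y1 i (by omega)),
      R.lab_zero _ _ (y1 (t + i) (by omega))] at this
  rcases Nat.eq_zero_or_pos o₀ with rfl | o0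
  · rw [R.lab_zero _ _ (y1 _ (by omega))] at hx x1
    exact y2 i₀ hi₀ (R.ι_inj (hx.trans x1))
  obtain ⟨e, he, e1⟩ := R.lab_int _ _ (y1 i₀ (by omega)) o₀ o0 ho₀
  obtain ⟨e', he', e2⟩ := R.lab_int _ _ (y1 (t + i₀) (by omega)) o₀ o0 ho₀
  have fl := congrFun (y4 i₀ hi₀).2.1 ⟨o₀, ho₀⟩
  simp only [← x1, hx, eq_iff_iff] at fl he he'
  obtain rfl : e = e' := Option.some.inj (he.symm.trans he')
  rw [he, Option.some.injEq, Option.some.injEq] at fl
  have c1 : Crs pos e s(y i₀, y (i₀ + 1)) :=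
    e1.resolve_left fun q => y3 i₀ hi₀ (q.symm.trans (fl.1 q))
  have c2 : Crs pos e s(y (t + i₀), y (t + i₀ + 1)) :=
    e2.resolve_left fun q => y3 i₀ hi₀ ((fl.2 q).symm.trans q)
  have ne : ∀ v, R.ι v ≠ x := fun v q => by
    have := R.own_ι v
    rw [q, he] at this
    cases this
  have b4 : ∀ i < 2 * t, R.Ctx rk (𝓦 x e he) x (y i) (y (i + 1)) → H.Adj x (R.ι (y i)) :=
    fun i hi q => hN _ _ (ne _) (q.near (hW x e he) L0 (y1 i hi))
  have b5 : ∀ i < 2 * t, rk x < rk (R.ι (y i)) := fun i hi =>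
    (b2 i hi).lt_of_ne fun q => ne _ (hH.inj q).symm
  have b6 : ∀ i < 2 * t, ∀ p : Prop, (p → i + 1 < 2 * t) →
      ¬ R.Ctx rk (𝓦 x e he) x (y i) (y (i + 1)) → Free pos (𝓦 x e he) p (y i) (y (i + 1)) :=
    fun i hi p hp q r hr =>
      ⟨fun z => q ⟨b1 i hi, r, hr, Or.inl z⟩, fun z => q ⟨b1 i hi, r, hr, Or.inr (Or.inl z)⟩,
        fun z z' => q ⟨b1 i hi, r, hr, Or.inr (Or.inr ⟨z', b2 _ (hp z)⟩)⟩⟩
  refine hξ x e he t y y1 y2 y3 (fun i hi => ?_) i₀ hi₀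
    ⟨⟨e, he, c1⟩, _, _, rfl, y1 _ (by omega), ⟨o₀, o0, ho₀, hx⟩,
      fun o _ ho => b1 _ (by omega) o ho⟩
    ⟨⟨e, he, c2⟩, _, _, rfl, y1 _ (by omega), ⟨o₀, o0, ho₀, x1.symm⟩,
      fun o _ ho => b1 _ (by omega) o ho⟩
  by_cases q : R.Ctx rk (𝓦 x e he) x (y i) (y (i + 1)) ∨
      R.Ctx rk (𝓦 x e he) x (y (t + i)) (y (t + i + 1))
  · have d1 : H.Adj x (R.ι (y i)) :=
      q.elim (b4 i (by omega)) fun z => (b3 i hi).2 (b4 _ (by omega) z)
    have d2 := congrFun (y4 i hi).2.2 (c x)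
    rw [hs _ _ x e he d1 (b5 i (by omega)), hs _ _ x e he ((b3 i hi).1 d1) (b5 _ (by omega))] at d2
    split_ifs at d2 with z z' z'
    · exact Or.inl (Option.some.inj d2)
    · exact absurd q (not_or.2 ⟨z, z'⟩)
  · exact Or.inr ⟨b6 i (by omega) _ (by omega) fun z => q (Or.inl z),
      b6 _ (by omega) _ (by omega) fun z => q (Or.inr z)⟩

end Pool.Agent.Lib.MP_e7c4c5_co.Out
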