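import Pool.Agent.Lib.MP_e7c4c5_co.Out.Defs

/-! The objects along a ladder: slices, long vertices and long edges. -/

set_option autoImplicit false

namespace Pool.Agent.Lib.MP_e7c4c5_co.Out

variable {V : Type}

/-- Slices, vertices and edges. -/
abbrev Obj (V : Type) : Type := ℕ ⊕ V ⊕ Sym2 V

/-- The edge `v w` crosses more than `D` walls. -/
def LongE (D : ℕ) (lo hi : V → ℕ) (v w : V) : Prop := min (hi v) (hi w) + D < max (lo v) (lo w)

/-- The object that stands for a vertex. -/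
def beta (D : ℕ) (lo hi : V → ℕ) (v : V) : Obj V :=
  if lo v + D < hi v then .inr (.inl v) else .inl (lo v)

open Classical in
/-- The object that stands for a step from `v` to `w`. -/
noncomputable def mid (D : ℕ) (lo hi : V → ℕ) (v w : V) : Obj V :=
  if LongE D lo hi v w then .inr (.inr s(v, w)) else beta D lo hi v

/-- The left end of an object. -/
def lft (lo hi : V → ℕ) : Obj V → ℕ
  | .inl η => η
  | .inr (.inl v) => lo v
  | .inr (.inr f) => Sym2.lift ⟨fun v w => min (hi v) (hi w), fun _ _ => min_comm _ _⟩ f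

/-- The right end of an object. -/
def rgt (D : ℕ) (lo hi : V → ℕ) : Obj V → ℕ
  | .inl η => η + 2 * D
  | .inr (.inl v) => hi v + D
  | .inr (.inr f) => Sym2.lift ⟨fun v w => max (lo v) (lo w), fun _ _ => max_comm _ _⟩ f

/-- The objects that occur. -/
def Objs (G : SimpleGraph V) (D N : ℕ) (lo hi : V → ℕ) : Set (Obj V) :=
  {o | (∃ η ≤ N, o = .inl η) ∨ (∃ v, lo v + D < hi v ∧ o = .inr (.inl v)) ∨
    ∃ v w, G.Adj v w ∧ LongE D lo hi v w ∧ o = .inr (.inr s(v, w))}

/-- The two properties of the colouring of the objects. -/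
structure ObjCol {α : Type} (G : SimpleGraph V) (D N : ℕ) (lo hi : V → ℕ) (col : Obj V → α) :
    Prop where
  sep : ∀ o ∈ Objs G D N lo hi, ∀ o' ∈ Objs G D N lo hi, lft lo hi o ≤ rgt D lo hi o' + 2 * D →
    lft lo hi o' ≤ rgt D lo hi o + 2 * D → col o = col o' → o = o'
  meet : ∀ (T : ℕ) (b : ℕ → Obj V), 0 < T → (∀ i < 2 * T, b i ∈ Objs G D N lo hi) →
    (∀ i, i + 1 < 2 * T → lft lo hi (b i) ≤ rgt D lo hi (b (i + 1)) ∧
      lft lo hi (b (i + 1)) ≤ rgt D lo hi (b i)) →
    (∀ i < T, col (b i) = col (b (T + i))) → ∃ i < T, b i = b (T + i)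

/-- An index that separates the short edges of `𝓡` starting in the same slice. -/
def RungIdx {β : Type} (𝓡 : Set (Sym2 V)) (D : ℕ) (lo hi : V → ℕ) (ι : ℕ → Sym2 V → β) : Prop :=
  ∀ v w v' w', s(v, w) ∈ 𝓡 → s(v', w') ∈ 𝓡 → lo v = lo v' → hi v ≤ lo v + D →
    hi v' ≤ lo v' + D → ¬ LongE D lo hi v w → ¬ LongE D lo hi v' w' →
    ι (lo v) s(v, w) = ι (lo v') s(v', w') → s(v, w) = s(v', w')

/-- The step from `v` to `w` crosses no wall and does not start at a wall; if `p` holds it does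
not end at a wall. -/
def Still (lo hi : V → ℕ) (p : Prop) (v w : V) : Prop :=
  lo v = hi v ∧ lo w ≤ hi v ∧ lo v ≤ hi w ∧ (p → lo w = hi w)

end Pool.Agent.Lib.MP_e7c4c5_co.Out
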