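import Pool.Agent.Lib.MP_e7c4c5_co.Out.Obj
import Pool.Agent.Lib.MP_e7c4c5_co.Out.Interval

/-! The objects along a ladder have bounded ply. -/

set_option autoImplicit false

namespace Pool.Agent.Lib.MP_e7c4c5_co.Out

variable {V : Type} [Finite V] {G : SimpleGraph V} {k N : ℕ} {pos : V → ℕ}
  {ch : Sym2 V → Finset (Sym2 V)} {𝓦 : Set (Sym2 V)} {wall : ℕ → Sym2 V} {lo hi : V → ℕ}

/- Double counting.  An edge `f` that crosses the `2 * k + 1` distinct walls `s + 1, …, s + 2 * k + 1`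
has at most `k` of them in `ch f`, so it lies in `ch (wall i)` for at least `k + 1` indices `i`;
there are at most `(2 * k + 1) * k` pairs `(i, f)` with `f ∈ ch (wall i)`, and
`(2 * k + 1) * (k + 1) > (2 * k + 1) * k`. -/
theorem card_block (h : Outer G k pos ch) (hW : 𝓦 ⊆ G.edgeSet) (hL : Lad pos 𝓦 N wall lo hi)
    (s : ℕ) (hs : s + (2 * k + 1) ≤ N) :
    {f | f ∈ G.edgeSet ∧ ∀ i, s < i → i ≤ s + (2 * k + 1) → Crs pos f (wall i)}.ncard ≤ 2 * k := by
  classical
  set F := {f | f ∈ G.edgeSet ∧ ∀ i, s < i → i ≤ s + (2 * k + 1) → Crs pos f (wall i)} with hF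
  have hfin : F.Finite := Set.toFinite F
  have hI : ∀ i ∈ Finset.Ioc s (s + (2 * k + 1)), i ∈ Set.Icc 1 N := fun i hi' => by
    have := Finset.mem_Ioc.1 hi'
    exact ⟨by omega, by omega⟩
  have key := Finset.card_mul_le_card_mul (s := hfin.toFinset)
    (t := Finset.Ioc s (s + (2 * k + 1))) (m := k + 1) (n := k) (fun f i => f ∈ ch (wall i))
    (fun f hf => by
      obtain ⟨f1, f2⟩ := hfin.mem_toFinset.1 hf
      have h1 := Finset.card_filter_add_card_filter_not (s := Finset.Ioc s (s + (2 * k + 1)))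
        fun i => f ∈ ch (wall i)
      have h2 := Finset.card_le_card_of_injOn wall
        (s := (Finset.Ioc s (s + (2 * k + 1))).filter fun i => ¬ f ∈ ch (wall i)) (t := ch f)
        (fun i hi' => by
          obtain ⟨a1, a2⟩ := Finset.mem_filter.1 hi'
          have a3 := Finset.mem_Ioc.1 a1
          exact (h.pay f f1 _ (hW (hL.bij.mapsTo (hI i a1))) (f2 i a3.1 a3.2)).resolve_right a2)
        fun i hi' j hj e => hL.bij.injOn (hI i (Finset.mem_filter.1 hi').1)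
          (hI j (Finset.mem_filter.1 hj).1) e
      have h3 := h.card f
      rw [Nat.card_Ioc] at h1
      show k + 1 ≤ ((Finset.Ioc s (s + (2 * k + 1))).filter fun i => f ∈ ch (wall i)).card
      omega)
    fun i _ => (Finset.card_le_card fun f hf => (Finset.mem_filter.1 hf).2).trans (h.card _)
  rw [Nat.card_Ioc, Nat.add_sub_cancel_left] at key
  rw [Set.ncard_eq_toFinset_card F hfin]
  by_contra hn
  have h1 := Nat.mul_le_mul_right (k + 1) (show 2 * k + 1 ≤ hfin.toFinset.card by omega)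
  have h2 := Nat.le_of_mul_le_mul_left (h1.trans key) (by omega)
  omega

/- Let `D = 2 * (2 * k + 1)`.  Slices containing `p`: `η ∈ [p - 2 * D, p]`.  A long vertex `v` with
`lo v ≤ p ≤ hi v + D` is an end of a wall `i ∈ [p - D, p + 1]` (take `i = max p (lo v + 1)` if
`p ≤ hi v`, else `i = hi v`), and a wall has two ends.  A long edge whose interval contains `p`
crosses all walls `i` with `min hi < i ≤ max lo`, so one of the blocks starting at
`s = p - (2 * k + 1)` or `s = p`: `card_block`. -/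
theorem ply (h : Outer G k pos ch) (hW : 𝓦 ⊆ G.edgeSet) (hL : Lad pos 𝓦 N wall lo hi) (p : ℕ) :
    {o | o ∈ Objs G (2 * (2 * k + 1)) N lo hi ∧ lft lo hi o ≤ p ∧
      p ≤ rgt (2 * (2 * k + 1)) lo hi o}.ncard ≤ 20 * k + 13 := by
  classical
  have hE : ∀ s, ∃ E : Finset (Sym2 V), E.card ≤ 2 * k ∧ ∀ f ∈ G.edgeSet, s + (2 * k + 1) ≤ N →
      (∀ i, s < i → i ≤ s + (2 * k + 1) → Crs pos f (wall i)) → f ∈ E := by
    intro s
    by_cases hs : s + (2 * k + 1) ≤ N
    · have h1 := card_block h hW hL s hs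
      rw [Set.ncard_eq_toFinset_card _ (Set.toFinite _)] at h1
      exact ⟨_, h1, fun f a1 _ a2 => (Set.Finite.mem_toFinset _).2 ⟨a1, a2⟩⟩
    · exact ⟨∅, Nat.zero_le _, fun f _ a => absurd a hs⟩
  obtain ⟨E₁, e1, m1⟩ := hE p
  obtain ⟨E₂, e2, m2⟩ := hE (p - (2 * k + 1))
  obtain ⟨U, u1, u2⟩ : ∃ U : Finset V, U.card ≤ 8 * k + 8 ∧
      ∀ v i, p - 2 * (2 * k + 1) ≤ i → i ≤ p + 1 → v ∈ wall i → v ∈ U := by
    refine ⟨(Finset.Icc (p - 2 * (2 * k + 1)) (p + 1)).biUnion fun i => (wall i).toFinset, ?_,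
      fun v i a1 a2 a3 => Finset.mem_biUnion.2
        ⟨i, Finset.mem_Icc.2 ⟨a1, a2⟩, Sym2.mem_toFinset.2 a3⟩⟩
    refine (Finset.card_biUnion_le_card_mul _ _ 2 fun i _ => ?_).trans ?_
    · rw [Sym2.card_toFinset]
      split_ifs <;> omega
    · rw [Nat.card_Icc]
      omega
  have hsub : {o | o ∈ Objs G (2 * (2 * k + 1)) N lo hi ∧ lft lo hi o ≤ p ∧
      p ≤ rgt (2 * (2 * k + 1)) lo hi o} ⊆
      (((Finset.Icc (p - 2 * (2 * (2 * k + 1))) p).disjSum (U.disjSum (E₁ ∪ E₂)) :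
        Finset (Obj V)) : Set (Obj V)) := by
    rintro o ⟨⟨η, -, rfl⟩ | ⟨v, hv, rfl⟩ | ⟨v, w, hvw, hl, rfl⟩, a1, a2⟩
    · have b1 : η ≤ p := a1
      have b2 : p ≤ η + 2 * (2 * (2 * k + 1)) := a2
      exact Finset.mem_coe.2 (Finset.inl_mem_disjSum.2 (Finset.mem_Icc.2 ⟨by omega, b1⟩))
    · have b1 : lo v ≤ p := a1
      have b2 : p ≤ hi v + 2 * (2 * k + 1) := a2
      have b3 := hL.le_N v
      refine Finset.mem_coe.2 (Finset.inr_mem_disjSum.2 (Finset.inl_mem_disjSum.2 ?_))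
      by_cases b4 : p ≤ hi v
      · exact u2 v (max p (lo v + 1)) (by omega) (by omega)
          ((hL.mem v _ (by omega) (by omega)).2 ⟨by omega, by omega⟩)
      · exact u2 v (hi v) (by omega) (by omega)
          ((hL.mem v _ (by omega) (by omega)).2 ⟨by omega, le_rfl⟩)
    · have b1 : min (hi v) (hi w) ≤ p := a1
      have b2 : p ≤ max (lo v) (lo w) := a2
      have b3 := hL.le_N v
      have b4 := hL.le_N w
      have b5 := hL.le v
      have b6 := hL.le w
      unfold LongE at hl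
      refine Finset.mem_coe.2 (Finset.inr_mem_disjSum.2 (Finset.inr_mem_disjSum.2
        (Finset.mem_union.2 ?_)))
      by_cases b7 : p + (2 * k + 1) ≤ max (lo v) (lo w)
      · exact Or.inl (m1 _ hvw (by omega) fun i c1 c2 =>
          (hL.crs v w i (by omega) (by omega)).2 (by omega))
      · exact Or.inr (m2 _ hvw (by omega) fun i c1 c2 =>
          (hL.crs v w i (by omega) (by omega)).2 (by omega))
  refine (Set.ncard_le_ncard hsub (Finset.finite_toSet _)).trans ?_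
  have h1 := Finset.card_union_le E₁ E₂
  rw [Set.ncard_coe_finset, Finset.card_disjSum, Finset.card_disjSum, Nat.card_Icc]
  omega

/- `interval` with `P = 20 * k + 13`, `c = 2 * D`. -/
omit [Finite V] in
theorem exists_objCol (k : ℕ) : ∃ n : ℕ, ∀ (V : Type) [Finite V] (G : SimpleGraph V)
    (pos : V → ℕ) (ch : Sym2 V → Finset (Sym2 V)) (𝓦 : Set (Sym2 V)) (N : ℕ) (wall : ℕ → Sym2 V)
    (lo hi : V → ℕ), Outer G k pos ch → 𝓦 ⊆ G.edgeSet → Lad pos 𝓦 N wall lo hi →
    ∃ col : Obj V → Fin n, ObjCol G (2 * (2 * k + 1)) N lo hi col := by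
  obtain ⟨n, hn⟩ := interval (20 * k + 13) (2 * (2 * (2 * k + 1)))
  refine ⟨n, fun V _ G pos ch 𝓦 N wall lo hi h hW hL => ?_⟩
  obtain ⟨col, h1, h2⟩ := hn (Obj V) (Objs G (2 * (2 * k + 1)) N lo hi) (lft lo hi)
    (rgt (2 * (2 * k + 1)) lo hi)
    ((((Set.finite_Iic N).image Sum.inl).union (Set.finite_range Sum.inr)).subset (by
      rintro o (⟨η, a, rfl⟩ | ⟨v, -, rfl⟩ | ⟨v, w, -, -, rfl⟩)
      exacts [Or.inl ⟨η, a, rfl⟩, Or.inr ⟨_, rfl⟩, Or.inr ⟨_, rfl⟩]))
    (by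
      rintro o (⟨η, a, rfl⟩ | ⟨v, a, rfl⟩ | ⟨v, w, -, a, rfl⟩)
      · exact Nat.le_add_right _ _
      · exact (hL.le v).trans (Nat.le_add_right _ _)
      · exact (Nat.le_add_right _ _).trans (le_of_lt a))
    (ply h hW hL)
  exact ⟨col, h1, h2⟩

end Pool.Agent.Lib.MP_e7c4c5_co.Out
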