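import Pool.Agent.Lib.MP_e7c4c5_co.Out.Cells

/-! The walks of the edges in the graph of the branch sets. -/

set_option autoImplicit false

namespace Pool.Agent.Lib.MP_e7c4c5_co.Out

variable {V : Type} {G : SimpleGraph V} {pos : V → ℕ} {k : ℕ}

theorem Slots.PreEx_cnt [Finite V] (S : Slots G pos k) (f : OE G pos) (τ : ℕ) :
    S.cnt f τ < k + 1 :=
  Nat.lt_succ_of_le ((Set.ncard_le_ncard (fun _ hu => hu.1) (S.T_card f).1).trans (S.T_card f).2)

/- `τ = 0`: the cell is `(al f, al f)`; `τ = len f`: it is `(de f, de f)`; an inner time not in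
`T f` lies in the segment `(f, cnt f τ)` (`cnt ≤ k` by `T_card`); if `τ = xt f g` with `pay f g`
then the cell is `cell g (xt g f)` and `xt g f ∉ T g` by `xt_inj` and `pay_iff`. -/
theorem Slots.cell_mem [Finite V] (S : Slots G pos k) (f : OE G pos) :
    S.cell f 0 ∈ S.B (some (.inl f.1.1)) ∧ S.cell f (S.len f) ∈ S.B (some (.inl f.1.2)) ∧
      ∀ τ, 0 < τ → τ < S.len f → ∃ g j, S.cell f τ ∈ S.B (some (.inr (g, j))) ∧
        (g = f ∧ τ ∉ S.T f ∧ S.cnt f τ = j ∨ τ ∈ S.T f ∧ Crs pos g.e f.e) := by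
  have h1 := S.al_mem f
  have h2 := S.de_mem f
  have h3 := S.al_lt f
  refine ⟨?_, ?_, fun τ h0 hτ => ?_⟩
  · simp only [Slots.B, Slots.cell, Set.mem_ofPred_eq]
    omega
  · simp only [Slots.B, Slots.cell, Slots.len, Set.mem_ofPred_eq]
    omega
  · by_cases hT : τ ∈ S.T f
    · obtain ⟨g, hp, rfl⟩ := hT
      have hc := S.pay_crs f g hp
      have k1 := S.xt_spec hc
      have k2 := S.xt_spec hc.symm
      refine ⟨g, ⟨S.cnt g (S.xt g f), S.PreEx_cnt g _⟩,
        ⟨S.xt g f, k2.1, k2.2.1, ?_, rfl, k2.2.2.2⟩, Or.inr ⟨⟨g, hp, rfl⟩, hc.symm⟩⟩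
      rintro ⟨g', hp', e⟩
      obtain rfl : g' = f := S.xt_inj (S.pay_crs g g' hp') hc.symm e
      exact (S.pay_iff _ _ hc).1 hp hp'
    · exact ⟨f, ⟨S.cnt f τ, S.PreEx_cnt f _⟩, ⟨τ, h0, hτ, hT, rfl, rfl⟩, Or.inl ⟨rfl, hT, rfl⟩⟩

/- Let `br p` be the node whose branch set contains the cell `p` (`none` if there is none); by
`B_disj`, `p ∈ S.B z → br p = z`.  Take `A = S.A`, `ω = none`, `ι v = some (.inl v)`, `own = ownN`,
`n = S.len`, `b f τ = br (S.cell f τ)`.  The cells `(bl v + 1, bl v)` and `(bl v + 2, bl v)` give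
`adj_ω`.  A change happens only at `τ = 0`, `τ = len f - 1`, `τ ∈ T f` or `τ + 1 ∈ T f` (otherwise
both times are inner, not in `T f`, and have the same count).  `share` is `xt_spec`. -/
theorem Slots.preRep [Finite V] (S : Slots G pos k) :
    Nonempty (PreRep G pos (2 * k + 2) (Nd G pos k)) := by
  classical
  have hex : ∀ p : ℕ × ℕ, ∃ z : Nd G pos k, ∀ z', p ∈ S.B z' → z = z' := by
    intro p
    by_cases h : ∃ z, p ∈ S.B z
    · obtain ⟨z, hz⟩ := h
      refine ⟨z, fun z' hz' => ?_⟩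
      by_contra hne
      exact Set.disjoint_left.1 (S.B_disj hne) hz hz'
    · exact ⟨none, fun z' hz' => absurd ⟨z', hz'⟩ h⟩
  choose br hbr using hex
  have hmem : ∀ f τ, τ ≤ S.len f → S.cell f τ ∈ S.B (br (S.cell f τ)) := by
    intro f τ hτ
    obtain ⟨h1, h2, h3⟩ := S.cell_mem f
    rcases Nat.eq_zero_or_pos τ with rfl | h0
    · rw [hbr _ _ h1]; exact h1
    · rcases Nat.eq_or_lt_of_le hτ with rfl | h4
      · rw [hbr _ _ h2]; exact h2
      · obtain ⟨g, j, h5, -⟩ := h3 τ h0 h4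
        rw [hbr _ _ h5]; exact h5
  refine ⟨⟨S.A, none, fun v => some (.inl v), ownN, S.len, fun f τ => br (S.cell f τ),
    S.A_planar, ?_, fun _ => rfl, ?_, ?_, ?_, ?_, ?_, ?_, ?_, ?_, ?_⟩⟩
  · intro v w e
    simpa using e
  · intro v
    have h1 := S.bl_le v
    refine ⟨by simp, (S.bl v + 1, S.bl v), ?_, (S.bl v + 2, S.bl v), ?_, by simp [grid]⟩ <;>
    · simp only [Slots.B, Set.mem_ofPred_eq]
      omega
  · rintro z ⟨y, -, p, hp, -⟩
    rcases z with _ | v | ⟨f, j⟩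
    · exact Or.inl rfl
    · exact Or.inr (Or.inl ⟨v, rfl⟩)
    · have hp' := hp
      obtain ⟨τ, h0, h1, -, -, rfl⟩ := hp'
      exact Or.inr (Or.inr ⟨f, τ, h0, h1, (hbr _ _ hp).symm⟩)
  · intro f
    have h1 := S.al_lt f
    simp only [Slots.len]
    omega
  · exact fun f => hbr _ _ (S.cell_mem f).1
  · exact fun f => hbr _ _ (S.cell_mem f).2.1
  · intro f i hi
    by_cases e : br (S.cell f i) = br (S.cell f (i + 1))
    · exact Or.inl e
    · exact Or.inr ⟨e, _, hmem f i (by omega), _, hmem f (i + 1) (by omega), S.cell_adj f i⟩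
  · intro f τ h0 h1
    obtain ⟨g, j, h2, h3⟩ := (S.cell_mem f).2.2 τ h0 h1
    refine ⟨g.e, by simp only [hbr _ _ h2]; rfl, ?_⟩
    rcases h3 with ⟨rfl, -⟩ | ⟨-, h3⟩
    · exact Or.inl rfl
    · exact Or.inr h3
  · intro f
    obtain ⟨hfin, hcard⟩ := S.T_card f
    have hsub : {τ | τ < S.len f ∧ br (S.cell f τ) ≠ br (S.cell f (τ + 1))} ⊆
        insert 0 (insert (S.len f - 1) (S.T f ∪ (fun σ => σ - 1) '' S.T f)) := by
      rintro τ ⟨h1, h2⟩
      by_contra hn
      simp only [Set.mem_insert_iff, Set.mem_union, Set.mem_image, not_or, not_exists,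
        not_and] at hn
      obtain ⟨n1, n2, n3, n4⟩ := hn
      have n5 : τ + 1 ∉ S.T f := fun h => n4 _ h (by omega)
      obtain ⟨g, j, k1, k2⟩ := (S.cell_mem f).2.2 τ (by omega) h1
      obtain ⟨g', j', k3, k4⟩ := (S.cell_mem f).2.2 (τ + 1) (by omega) (by omega)
      rcases k2 with ⟨rfl, -, k2⟩ | ⟨k2, -⟩
      · rcases k4 with ⟨rfl, -, k4⟩ | ⟨k4, -⟩
        · have e : S.cnt g' (τ + 1) = S.cnt g' τ := by
            unfold Slots.cnt
            congr 1
            ext σ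
            simp only [Set.mem_ofPred_eq]
            refine ⟨fun h => ⟨h.1, ?_⟩, fun h => ⟨h.1, by omega⟩⟩
            have : σ ≠ τ := fun e => n3 (e ▸ h.1)
            omega
          obtain rfl : j = j' := Fin.ext (by omega)
          exact h2 ((hbr _ _ k1).trans (hbr _ _ k3).symm)
        · exact n5 k4
      · exact n3 k2
    have c1 := Set.ncard_le_ncard hsub (((hfin.union (hfin.image _)).insert _).insert _)
    have c2 := Set.ncard_insert_le 0 (insert (S.len f - 1) (S.T f ∪ (fun σ => σ - 1) '' S.T f))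
    have c3 := Set.ncard_insert_le (S.len f - 1) (S.T f ∪ (fun σ => σ - 1) '' S.T f)
    have c4 := Set.ncard_union_le (S.T f) ((fun σ => σ - 1) '' S.T f)
    have c5 := Set.ncard_image_le (f := fun σ => σ - 1) hfin
    omega
  · intro f g hc
    have k1 := S.xt_spec hc
    have k2 := S.xt_spec hc.symm
    exact ⟨_, _, k1.1, k1.2.1, k2.1, k2.2.1, by simp only [k1.2.2.2]⟩

end Pool.Agent.Lib.MP_e7c4c5_co.Out
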