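import Pool.Agent.Lib.MP_e7c4c5_co.Out.Defs

/-! The drawing of an outer gap-planar graph in the grid. -/

set_option autoImplicit false

namespace Pool.Agent.Lib.MP_e7c4c5_co.Out

open Pool.Agent.Lib.Common.Pl

variable {V : Type}

/-- The edges, oriented from left to right. -/
def OE (G : SimpleGraph V) (pos : V → ℕ) : Type :=
  {p : V × V // G.Adj p.1 p.2 ∧ pos p.1 < pos p.2}

instance [Finite V] (G : SimpleGraph V) (pos : V → ℕ) : Finite (OE G pos) := by
  unfold OE; infer_instance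

variable {G : SimpleGraph V} {pos : V → ℕ} {k : ℕ}

/-- The unoriented edge. -/
def OE.e (f : OE G pos) : Sym2 V := s(f.1.1, f.1.2)

/-- Every vertex `v` owns the interval `[bl v, br v]` of the diagonal, every edge `f` has its own
two even points `al f < de f`, and `pay f g` says that `f` pays for its crossing with `g`. -/
structure Slots (G : SimpleGraph V) (pos : V → ℕ) (k : ℕ) where
  bl : V → ℕ
  br : V → ℕ
  al : OE G pos → ℕ
  de : OE G pos → ℕ
  pay : OE G pos → OE G pos → Prop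
  bl_le : ∀ v, bl v ≤ br v
  sep : ∀ v w, v ≠ w → br v < bl w ∨ br w < bl v
  al_mem : ∀ f, bl f.1.1 ≤ al f ∧ al f ≤ br f.1.1
  de_mem : ∀ f, bl f.1.2 ≤ de f ∧ de f ≤ br f.1.2
  al_lt : ∀ f, al f < de f
  al_even : ∀ f, al f % 2 = 0
  de_even : ∀ f, de f % 2 = 0
  al_inj : Function.Injective al
  de_inj : Function.Injective de
  al_ne : ∀ f g, al f ≠ de g
  crs : ∀ f g, Crs pos f.e g.e ↔
    al f < al g ∧ al g < de f ∧ de f < de g ∨ al g < al f ∧ al f < de g ∧ de g < de f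
  pay_crs : ∀ f g, pay f g → Crs pos f.e g.e
  pay_iff : ∀ f g, Crs pos f.e g.e → (pay f g ↔ ¬ pay g f)
  pay_card : ∀ f, {g | pay f g}.ncard ≤ k

/-- The outer face, the vertices, and the segments of the edges. -/
abbrev Nd (G : SimpleGraph V) (pos : V → ℕ) (k : ℕ) : Type :=
  Option (V ⊕ OE G pos × Fin (k + 1))

namespace Slots

variable (S : Slots G pos k)

/-- The length of the grid path of an edge. -/
def len (f : OE G pos) : ℕ := 2 * (S.de f - S.al f)

/-- The grid path of an edge: up from `(al, al)` to `(al, de)`, then right to `(de, de)`. -/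
def cell (f : OE G pos) (τ : ℕ) : ℕ × ℕ :=
  (S.al f + (τ - (S.de f - S.al f)), S.al f + min τ (S.de f - S.al f))

/-- The time at which the path of `f` meets the path of a crossing edge `g`. -/
def xt (f g : OE G pos) : ℕ :=
  if S.al g < S.al f then S.de g - S.al f else S.de f - S.al f + (S.al g - S.al f)

/-- The times of the crossings for which `f` pays. -/
def T (f : OE G pos) : Set ℕ := {τ | ∃ g, S.pay f g ∧ S.xt f g = τ}

/-- The number of paid crossings before time `τ`. -/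
noncomputable def cnt (f : OE G pos) (τ : ℕ) : ℕ := {σ | σ ∈ S.T f ∧ σ < τ}.ncard

/-- The branch sets. -/
def B : Nd G pos k → Set (ℕ × ℕ)
  | none => {p | p.2 + 2 ≤ p.1}
  | some (.inl v) => {p | S.bl v ≤ p.2 ∧ p.2 ≤ S.br v ∧ p.2 ≤ p.1 ∧ p.1 ≤ p.2 + 1}
  | some (.inr (f, j)) =>
      {p | ∃ τ, 0 < τ ∧ τ < S.len f ∧ τ ∉ S.T f ∧ S.cnt f τ = j ∧ S.cell f τ = p}

/-- The graph of the branch sets. -/
def A : SimpleGraph (Nd G pos k) where
  Adj x y := x ≠ y ∧ SAdj grid (S.B x) (S.B y)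
  symm := ⟨fun _ _ h => ⟨h.1.symm, h.2.symm⟩⟩
  loopless := ⟨fun _ h => h.1 rfl⟩

end Slots

/-- The edge to which a segment belongs. -/
def ownN : Nd G pos k → Option (Sym2 V)
  | some (.inr (f, _)) => some f.e
  | _ => none

/-- The edges are lazy walks with few changes in a planar graph. -/
structure PreRep (G : SimpleGraph V) (pos : V → ℕ) (L : ℕ) (W : Type) where
  A : SimpleGraph W
  ω : W
  ι : V → W
  own : W → Option (Sym2 V)
  n : OE G pos → ℕ
  b : OE G pos → ℕ → W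
  planar : Planar A
  ι_inj : Function.Injective ι
  own_ι : ∀ v, own (ι v) = none
  adj_ω : ∀ v, A.Adj (ι v) ω
  supp : ∀ z ∈ A.support, z = ω ∨ (∃ v, z = ι v) ∨ ∃ f τ, 0 < τ ∧ τ < n f ∧ z = b f τ
  two_le : ∀ f, 2 ≤ n f
  b_zero : ∀ f, b f 0 = ι f.1.1
  b_last : ∀ f, b f (n f) = ι f.1.2
  b_lazy : ∀ f, Lazy A (b f) (n f + 1)
  b_int : ∀ f τ, 0 < τ → τ < n f → ∃ e, own (b f τ) = some e ∧ (e = f.e ∨ Crs pos e f.e)
  change : ∀ f, {τ | τ < n f ∧ b f τ ≠ b f (τ + 1)}.ncard ≤ L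
  share : ∀ f g, Crs pos f.e g.e →
    ∃ τ σ, 0 < τ ∧ τ < n f ∧ 0 < σ ∧ σ < n g ∧ b f τ = b g σ

end Pool.Agent.Lib.MP_e7c4c5_co.Out
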