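import Pool.Agent.Lib.MP_e7c4c5_co.Out.Obj
import Pool.Agent.Lib.MP_e7c4c5_co.Out.Colour

/-! Few short rungs start in a slice. -/

set_option autoImplicit false

namespace Pool.Agent.Lib.MP_e7c4c5_co.Out

variable {V : Type} [Finite V] {G : SimpleGraph V} {k N : ℕ} {pos : V → ℕ}
  {ch : Sym2 V → Finset (Sym2 V)} {𝓦 𝓡 : Set (Sym2 V)} {wall : ℕ → Sym2 V} {lo hi : V → ℕ}

/- `colour_out` on `Sym2 V` for `R e f := f ∈ ch e`, and a largest colour class
(crossing edges are distinct by `Crs.irrefl`). -/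
theorem exists_noncross (h : Outer G k pos ch) (F : Set (Sym2 V)) (hF : F ⊆ G.edgeSet) :
    ∃ F' ⊆ F, (∀ e ∈ F', ∀ f ∈ F', ¬ Crs pos e f) ∧ F.ncard ≤ (2 * k + 1) * F'.ncard := by
  classical
  obtain ⟨c, hc⟩ := colour_out (fun e f : Sym2 V => f ∈ ch e) k fun e => by
    simpa using h.card e
  obtain ⟨j, -, hj⟩ := (Finset.univ : Finset (Fin (2 * k + 1))).exists_max_image
    (fun j => (F.toFinite.toFinset.filter fun e => c e = j).card) Finset.univ_nonempty
  refine ⟨F.toFinite.toFinset.filter fun e => c e = j, fun e he => ?_, fun e he f hf hef => ?_, ?_⟩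
  · simpa using (Finset.mem_filter.1 he).1
  · have he' := Finset.mem_filter.1 he
    have hf' := Finset.mem_filter.1 hf
    have hne : e ≠ f := fun hh => Crs.irrefl (hh ▸ hef)
    rcases h.pay e (hF (by simpa using he'.1)) f (hF (by simpa using hf'.1)) hef with k1 | k1
    · exact hc e f hne k1 (he'.2.trans hf'.2.symm)
    · exact hc f e hne.symm k1 (hf'.2.trans he'.2.symm)
  · rw [Set.ncard_coe_finset, Set.ncard_eq_toFinset_card F, mul_comm]
    simpa using Finset.card_le_mul_card_image_of_maps_to (s := F.toFinite.toFinset)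
      (t := Finset.univ) (f := c) (fun _ _ => Finset.mem_univ _) _ fun b _ =>
        hj b (Finset.mem_univ b)

/- For fixed `η` let `F` be the set of `s(v, w) ∈ 𝓡` with `lo v = η`, `hi v ≤ η + D`,
`¬ LongE D lo hi v w`.  Such an edge crosses only walls `i` of the window `η < i + D`,
`i ≤ η + 2 * D` (`Lad.crs`), and if it is the wall `i` then `v ∈ wall i` puts `i` in the window
(`Lad.mem`).  The window has at most `3 * D` indices.  Take `F'` from `exists_noncross`; the walls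
outside the window together with `F'` form a non-crossing subset of `𝓡`, a disjoint union, so
maximality gives `F'.ncard ≤ 3 * D`.  Hence `F.ncard ≤ (2 * k + 1) * (3 * D)`, and `ι η` is any map
that is injective on `F` (`Set.Finite.exists_injOn_of_encard_le` or `Finset.equivFin`). -/
theorem exists_rungIdx (h : Outer G k pos ch) (hR : 𝓡 ⊆ G.edgeSet) (hW : 𝓦 ⊆ 𝓡)
    (hn : ∀ r ∈ 𝓦, ∀ r' ∈ 𝓦, ¬ Crs pos r r')
    (hmax : ∀ 𝓤 ⊆ 𝓡, (∀ r ∈ 𝓤, ∀ r' ∈ 𝓤, ¬ Crs pos r r') → 𝓤.ncard ≤ 𝓦.ncard)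
    (hL : Lad pos 𝓦 N wall lo hi) (D : ℕ) :
    ∃ ι : ℕ → Sym2 V → Fin ((2 * k + 1) * (3 * D) + 1), RungIdx 𝓡 D lo hi ι := by
  have key : ∀ η : ℕ, {e | e ∈ 𝓡 ∧ ∃ v w, e = s(v, w) ∧ lo v = η ∧ hi v ≤ η + D ∧
      ¬ LongE D lo hi v w}.ncard ≤ (2 * k + 1) * (3 * D) := by
    intro η
    obtain ⟨F', hF', hn', hcard⟩ := exists_noncross h {e | e ∈ 𝓡 ∧ ∃ v w, e = s(v, w) ∧ lo v = η ∧
      hi v ≤ η + D ∧ ¬ LongE D lo hi v w} fun e he => hR he.1
    refine hcard.trans (Nat.mul_le_mul_left _ ?_)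
    have hWd : (wall '' Set.Ioc (η - D) (η + 2 * D)).ncard ≤ 3 * D := by
      refine (Set.ncard_image_le (Set.finite_Ioc _ _)).trans ?_
      rw [Set.ncard_Ioc_nat]
      omega
    have hout : ∀ r ∈ 𝓦 \ wall '' Set.Ioc (η - D) (η + 2 * D), ∀ e ∈ F',
        ¬ Crs pos e r ∧ e ≠ r := by
      rintro r ⟨hr, hr'⟩ e he
      obtain ⟨i, ⟨i1, i2⟩, rfl⟩ := hL.bij.surjOn hr
      obtain ⟨-, v, w, rfl, a1, a2, a3⟩ := hF' he
      have hi' : ¬ (η - D < i ∧ i ≤ η + 2 * D) := fun hh => hr' ⟨i, hh, rfl⟩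
      have l1 := hL.le v
      have l2 := hL.le w
      unfold LongE at a3
      refine ⟨fun hc => ?_, fun hc => ?_⟩
      · rw [hL.crs v w i i1 i2] at hc
        omega
      · have := (hL.mem v i i1 i2).1 (hc ▸ Sym2.mem_mk_left v w)
        omega
    have h1 := hmax ((𝓦 \ wall '' Set.Ioc (η - D) (η + 2 * D)) ∪ F')
      (Set.union_subset (fun r hr => hW hr.1) fun e he => (hF' he).1) (by
        rintro r (hr | hr) r' (hr' | hr')
        · exact hn r hr.1 r' hr'.1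
        · exact fun hc => (hout r hr r' hr').1 hc.symm
        · exact (hout r' hr' r hr).1
        · exact hn' r hr r' hr')
    rw [Set.ncard_union_eq (Set.disjoint_left.2 fun r hr hr' => (hout r hr r hr').2 rfl)] at h1
    have h2 := Set.ncard_le_ncard_sdiff_add_ncard 𝓦 (wall '' Set.Ioc (η - D) (η + 2 * D))
    omega
  have key2 : ∀ η : ℕ, ∃ f : Sym2 V → Fin ((2 * k + 1) * (3 * D) + 1),
      Set.InjOn f {e | e ∈ 𝓡 ∧ ∃ v w, e = s(v, w) ∧ lo v = η ∧ hi v ≤ η + D ∧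
        ¬ LongE D lo hi v w} := by
    intro η
    obtain ⟨f, -, hf⟩ := Set.Finite.exists_injOn_of_encard_le
      (s := {e | e ∈ 𝓡 ∧ ∃ v w, e = s(v, w) ∧ lo v = η ∧ hi v ≤ η + D ∧ ¬ LongE D lo hi v w})
      (t := (Set.univ : Set (Fin ((2 * k + 1) * (3 * D) + 1)))) (Set.toFinite _) (by
        rw [← (Set.toFinite _).cast_ncard_eq, ← (Set.toFinite _).cast_ncard_eq, Nat.cast_le,
          Set.ncard_univ, Nat.card_fin]
        exact (key η).trans (Nat.le_succ _))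
    exact ⟨f, hf⟩
  choose ι hι using key2
  refine ⟨ι, fun v w v' w' h1 h2 h3 h4 h5 h6 h7 h8 => ?_⟩
  exact hι (lo v) ⟨h1, v, w, rfl, rfl, h4, h6⟩ ⟨h2, v', w', rfl, h3.symm, h3 ▸ h5, h7⟩
    (h8.trans (by rw [h3]))

end Pool.Agent.Lib.MP_e7c4c5_co.Out
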