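import Pool.Agent.Lib.MP_e7c4c5_co.Out.Obj

/-! The two halves of a repetitive path run through the same slices. -/

set_option autoImplicit false

namespace Pool.Agent.Lib.MP_e7c4c5_co.Out

variable {V α β : Type} {G : SimpleGraph V} {D N : ℕ} {lo hi : V → ℕ}

theorem Slide_lft (v : V) : lft lo hi (beta D lo hi v) = lo v := by
  unfold beta
  split_ifs <;> rfl

theorem Slide_rgt (v : V) : hi v + D ≤ rgt D lo hi (beta D lo hi v) := by
  unfold beta
  split_ifs with h
  · exact le_rfl
  · show hi v + D ≤ lo v + 2 * D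
    omega

theorem Slide_beta_mem (h1 : ∀ v, lo v ≤ hi v) (h2 : ∀ v, hi v ≤ N) (v : V) :
    beta D lo hi v ∈ Objs G D N lo hi := by
  unfold beta
  split_ifs with h
  · exact Or.inr (Or.inl ⟨v, h, rfl⟩)
  · exact Or.inl ⟨lo v, (h1 v).trans (h2 v), rfl⟩

theorem Slide_mid_mem (h1 : ∀ v, lo v ≤ hi v) (h2 : ∀ v, hi v ≤ N) {v w : V} (ha : G.Adj v w) :
    mid D lo hi v w ∈ Objs G D N lo hi := by
  unfold mid
  split_ifs with h
  · exact Or.inr (Or.inr ⟨v, w, ha, h, rfl⟩)
  · exact Slide_beta_mem h1 h2 v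

theorem Slide_short {v w : V} (h : ¬ LongE D lo hi v w) : mid D lo hi v w = beta D lo hi v :=
  if_neg h

theorem Slide_meet (h1 : ∀ v, lo v ≤ hi v) (v w : V) {u : V} (hu : u = v ∨ u = w) :
    lft lo hi (beta D lo hi u) ≤ rgt D lo hi (mid D lo hi v w) ∧
      lft lo hi (mid D lo hi v w) ≤ rgt D lo hi (beta D lo hi u) := by
  have a1 := Slide_rgt (D := D) (lo := lo) (hi := hi) u
  have a2 := Slide_rgt (D := D) (lo := lo) (hi := hi) v
  have a3 := h1 v
  have a4 := h1 w
  rw [Slide_lft]
  by_cases h : LongE D lo hi v w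
  · have e : mid D lo hi v w = .inr (.inr s(v, w)) := if_pos h
    have e1 : lft lo hi (.inr (.inr s(v, w))) = min (hi v) (hi w) := rfl
    have e2 : rgt D lo hi (.inr (.inr s(v, w))) = max (lo v) (lo w) := rfl
    rw [e, e1, e2]
    rcases hu with rfl | rfl <;> omega
  · rw [Slide_short h, Slide_lft]
    unfold LongE at h
    rcases hu with rfl | rfl <;> omega

theorem Slide_still {p : Prop} {v w : V} (h : Still lo hi p v w) :
    mid D lo hi v w = beta D lo hi v ∧ (p → beta D lo hi w = beta D lo hi v) := by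
  obtain ⟨a1, a2, a3, a4⟩ := h
  refine ⟨Slide_short (by unfold LongE; omega), fun hp => ?_⟩
  have a5 := a4 hp
  have e : lo w = lo v := by omega
  unfold beta
  rw [if_neg (by omega), if_neg (by omega), e]

theorem Slide_mid_eq {v w v' w' : V} (h : mid D lo hi v w = mid D lo hi v' w')
    (hn : s(v, w) ≠ s(v', w')) : ¬ LongE D lo hi v w ∧ ¬ LongE D lo hi v' w' ∧
      beta D lo hi v = beta D lo hi v' := by
  have key : ∀ (u : V) (f : Sym2 V), beta D lo hi u ≠ .inr (.inr f) := by
    intro u f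
    unfold beta
    split_ifs <;> simp
  unfold mid at h
  split_ifs at h with a1 a2 a2
  · exact absurd (Sum.inr_injective (Sum.inr_injective h)) hn
  · exact absurd h.symm (key _ _)
  · exact absurd h (key _ _)
  · exact ⟨a1, a2, h⟩

theorem Slide_beta_eq {v v' : V} (h : beta D lo hi v = beta D lo hi v') (hn : v ≠ v') :
    lo v = lo v' ∧ hi v ≤ lo v + D ∧ hi v' ≤ lo v' + D ∧ beta D lo hi v = .inl (lo v) := by
  unfold beta at h ⊢
  split_ifs at h ⊢ with a1 a2 a2
  · exact absurd (Sum.inl_injective (Sum.inr_injective h)) hn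
  · exact ⟨Sum.inl_injective h, by omega, by omega, rfl⟩

theorem Slide_sep {col : Obj V → α} (hc : ObjCol G D N lo hi col) {o o' s : Obj V} {η : ℕ}
    (hs : s = .inl η) (ho : o ∈ Objs G D N lo hi) (ho' : o' ∈ Objs G D N lo hi)
    (a1 : lft lo hi o ≤ rgt D lo hi s) (a2 : lft lo hi s ≤ rgt D lo hi o)
    (a3 : lft lo hi o' ≤ rgt D lo hi s) (a4 : lft lo hi s ≤ rgt D lo hi o')
    (e : col o = col o') : o = o' := by
  subst hs
  have e1 : lft lo hi (.inl η : Obj V) = η := rfl
  have e2 : rgt D lo hi (.inl η : Obj V) = η + 2 * D := rfl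
  exact hc.sep o ho o' ho' (by omega) (by omega) e

theorem Slide_chain {P : ℕ → Prop} {t : ℕ} (h : ∀ i, i + 1 < t → (P i ↔ P (i + 1))) {i j : ℕ}
    (hi : i < t) (hj : j < t) (hp : P i) : P j := by
  have key : ∀ i < t, P i ↔ P 0 := by
    intro i
    induction i with
    | zero => exact fun _ => Iff.rfl
    | succ i ih => exact fun h1 => (h i h1).symm.trans (ih (by omega))
  exact (key j hj).2 ((key i hi).1 hp)

/- Write `B i = beta D lo hi (y i)`, `M i = mid D lo hi (y i) (y (i + 1))`.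
(0) These lie in `Objs`; `lft (B i) = lo (y i)`, `hi (y i) + D ≤ rgt (B i)`; so `M i` meets both
`B i` and `B (i + 1)` (in the sense `lft ≤ rgt` both ways).
(1) If `Still p v w` then `¬ LongE v w`, `beta v = inl (lo v)`, and if `p` holds `beta w = beta v`.
(2) `col (B i) = col (B (t + i))` for all `i < t`: true at `i₀`; from `i` to `i + 1 < t` and from
`i + 1 < t` to `i` use `h i` (first case: directly; second case: (1)).  Hence also
`col (M i) = col (M (t + i))` (second case: `M i = B i`, `M (t + i) = B (t + i)`).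
(3) `ObjCol.meet` for `T = 2 * t`, `b (2 * i) = B i`, `b (2 * i + 1) = M i` gives `i < t` with
`B i = B (t + i)` or `M i = M (t + i)`.  In the second case neither step is long (two long edges
would be equal, and `beta` is never an edge), so again `B i = B (t + i)`.  Since
`y i ≠ y (t + i)`, this means that both are the same slice `inl η`.
(4) If `B i = B (t + i) = inl η` then `M i` and `M (t + i)` both meet `[η, η + 2 * D]`, so they are
equal by `ObjCol.sep`, hence not long edges; if `i + 1 < t` then `B (i + 1)` and `B (t + i + 1)`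
meet `M i = inl η`, so they are equal.  If `B (i + 1) = B (t + i + 1) = inl η` with `i + 1 < t`
then `M i = M (t + i)` in the same way, so `B i = B (t + i)`.  Hence `B i₀ = B (t + i₀)` and
the steps at `i₀` are not long, so `RungIdx` gives equal edges. -/
theorem slide {col : Obj V → α} (hc : ObjCol G D N lo hi col) (h1 : ∀ v, lo v ≤ hi v)
    (h2 : ∀ v, hi v ≤ N) {𝓡 : Set (Sym2 V)} {ι : ℕ → Sym2 V → β} (hι : RungIdx 𝓡 D lo hi ι)
    {ξ : V → V → α × α × α × β}
    (hξ : ∀ v w, ξ v w = (col (beta D lo hi v), col (mid D lo hi v w), col (beta D lo hi w),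
      ι (lo v) s(v, w)))
    {t : ℕ} {y : ℕ → V} (ha : ∀ i < 2 * t, G.Adj (y i) (y (i + 1))) (hv : ∀ i < t, y i ≠ y (t + i))
    (he : ∀ i < t, s(y i, y (i + 1)) ≠ s(y (t + i), y (t + i + 1)))
    (h : ∀ i < t, ξ (y i) (y (i + 1)) = ξ (y (t + i)) (y (t + i + 1)) ∨
      Still lo hi (i + 1 < t) (y i) (y (i + 1)) ∧
        Still lo hi (i + 1 < t) (y (t + i)) (y (t + i + 1)))
    {i₀ : ℕ} (hi₀ : i₀ < t) (hr : s(y i₀, y (i₀ + 1)) ∈ 𝓡) (hr' : s(y (t + i₀), y (t + i₀ + 1)) ∈ 𝓡)
    (h₀ : ξ (y i₀) (y (i₀ + 1)) = ξ (y (t + i₀)) (y (t + i₀ + 1))) : False := by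
  simp only [hξ, Prod.mk.injEq] at h h₀
  have hB := Slide_beta_mem (G := G) (D := D) h1 h2
  have hM : ∀ i < 2 * t, mid D lo hi (y i) (y (i + 1)) ∈ Objs G D N lo hi :=
    fun i hi => Slide_mid_mem h1 h2 (ha i hi)
  have m1 := fun i => Slide_meet (D := D) h1 (y i) (y (i + 1)) (Or.inl rfl)
  have m2 := fun i => Slide_meet (D := D) h1 (y i) (y (i + 1)) (Or.inr rfl)
  have cB : ∀ i < t, col (beta D lo hi (y i)) = col (beta D lo hi (y (t + i))) := by
    intro i hi'
    refine Slide_chain (P := fun i => col (beta D lo hi (y i)) = col (beta D lo hi (y (t + i))))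
      (fun i hi' => ?_) hi₀ hi' h₀.1
    rcases h i (by omega) with k | ⟨k1, k2⟩
    · exact ⟨fun _ => k.2.2.1, fun _ => k.1⟩
    · rw [← add_assoc, (Slide_still k1).2 hi', (Slide_still k2).2 hi']
  have cM : ∀ i < t, col (mid D lo hi (y i) (y (i + 1))) =
      col (mid D lo hi (y (t + i)) (y (t + i + 1))) := by
    intro i hi'
    rcases h i hi' with k | ⟨k1, k2⟩
    · exact k.2.1
    · rw [(Slide_still k1).1, (Slide_still k2).1, cB i hi']
  have qM : ∀ i < t, beta D lo hi (y i) = beta D lo hi (y (t + i)) →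
      mid D lo hi (y i) (y (i + 1)) = mid D lo hi (y (t + i)) (y (t + i + 1)) := by
    intro i hi' e
    exact Slide_sep hc (Slide_beta_eq e (hv i hi')).2.2.2 (hM i (by omega)) (hM (t + i) (by omega))
      (m1 i).2 (m1 i).1 (e ▸ (m1 (t + i)).2) (e ▸ (m1 (t + i)).1) (cM i hi')
  have step : ∀ i, i + 1 < t → (beta D lo hi (y i) = beta D lo hi (y (t + i)) ↔
      beta D lo hi (y (i + 1)) = beta D lo hi (y (t + (i + 1)))) := by
    intro i hi'
    refine ⟨fun e => ?_, fun e => ?_⟩
    · have e1 := qM i (by omega) e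
      have e2 := Slide_short (Slide_mid_eq e1 (he i (by omega))).1
      exact Slide_sep hc (e2.trans (Slide_beta_eq e (hv i (by omega))).2.2.2) (hB _) (hB _)
        (m2 i).1 (m2 i).2 (e1 ▸ (m2 (t + i)).1) (e1 ▸ (m2 (t + i)).2) (cB (i + 1) hi')
    · have e1 := Slide_sep hc (Slide_beta_eq e (hv _ hi')).2.2.2 (hM i (by omega))
        (hM (t + i) (by omega)) (m2 i).2 (m2 i).1 (e ▸ (m2 (t + i)).2) (e ▸ (m2 (t + i)).1)
        (cM i (by omega))
      exact (Slide_mid_eq e1 (he i (by omega))).2.2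
  obtain ⟨j, hj, ej⟩ := hc.meet (2 * t) (fun j => if j % 2 = 0 then beta D lo hi (y (j / 2))
      else mid D lo hi (y (j / 2)) (y (j / 2 + 1))) (by omega)
    (fun j hj => by
      split_ifs
      · exact hB _
      · exact hM _ (by omega))
    (fun j hj => by
      by_cases a : j % 2 = 0
      · have e : (j + 1) / 2 = j / 2 := by omega
        simp only [if_pos a, if_neg (show ¬ (j + 1) % 2 = 0 by omega), e]
        exact m1 _
      · have e : (j + 1) / 2 = j / 2 + 1 := by omega
        simp only [if_neg a, if_pos (show (j + 1) % 2 = 0 by omega), e]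
        exact (m2 _).symm)
    (fun j hj => by
      have e : (2 * t + j) / 2 = t + j / 2 := by omega
      have e' : (2 * t + j) % 2 = j % 2 := by omega
      simp only [e, e']
      split_ifs
      · exact cB _ (by omega)
      · exact cM _ (by omega))
  have q : beta D lo hi (y (j / 2)) = beta D lo hi (y (t + j / 2)) := by
    have e : (2 * t + j) / 2 = t + j / 2 := by omega
    have e' : (2 * t + j) % 2 = j % 2 := by omega
    simp only [e, e'] at ej
    split_ifs at ej
    · exact ej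
    · exact (Slide_mid_eq ej (he _ (by omega))).2.2
  have q₀ : beta D lo hi (y i₀) = beta D lo hi (y (t + i₀)) :=
    Slide_chain (P := fun i => beta D lo hi (y i) = beta D lo hi (y (t + i))) step
      (show j / 2 < t by omega) hi₀ q
  obtain ⟨b1, b2, b3, -⟩ := Slide_beta_eq q₀ (hv _ hi₀)
  obtain ⟨c1, c2, -⟩ := Slide_mid_eq (qM _ hi₀ q₀) (he _ hi₀)
  exact he _ hi₀ (hι _ _ _ _ hr hr' b1 b2 b3 c1 c2 h₀.2.2.2)

end Pool.Agent.Lib.MP_e7c4c5_co.Out
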