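import Pool.Agent.Lib.MP_e7c4c5_co.Out.Ladder
import Pool.Agent.Lib.MP_e7c4c5_co.Out.Ply
import Pool.Agent.Lib.MP_e7c4c5_co.Out.Rung
import Pool.Agent.Lib.MP_e7c4c5_co.Out.Slide

/-! A repetitive path cannot cross a chord at corresponding steps of its two halves. -/

set_option autoImplicit false

namespace Pool.Agent.Lib.MP_e7c4c5_co.Out

/-- The step from `v` to `u` crosses no chord of `𝓦` and does not start at one; if `p` holds it
does not end at one. -/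
def Free {V : Type} (pos : V → ℕ) (𝓦 : Set (Sym2 V)) (p : Prop) (v u : V) : Prop :=
  ∀ r ∈ 𝓦, ¬ Crs pos s(v, u) r ∧ v ∉ r ∧ (p → u ∉ r)

theorem Free.still {V : Type} {pos : V → ℕ} {𝓦 : Set (Sym2 V)} {N : ℕ} {wall : ℕ → Sym2 V}
    {lo hi : V → ℕ} (hL : Lad pos 𝓦 N wall lo hi) {p : Prop} {v u : V} (h : Free pos 𝓦 p v u) :
    Still lo hi p v u := by
  have a1 := hL.le v
  have a2 := hL.le u
  have a3 := hL.le_N v
  have a4 := hL.le_N u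
  have k := fun i (h1 : 1 ≤ i) (h2 : i ≤ N) => h (wall i) (hL.bij.mapsTo ⟨h1, h2⟩)
  refine ⟨?_, ?_, ?_, fun hp => ?_⟩ <;> by_contra hc
  · exact (k (hi v) (by omega) a3).2.1 ((hL.mem v _ (by omega) a3).2 (by omega))
  · exact (k (lo u) (by omega) (by omega)).1 ((hL.crs v u _ (by omega) (by omega)).2 (by omega))
  · exact (k (lo v) (by omega) (by omega)).1 ((hL.crs v u _ (by omega) (by omega)).2 (by omega))
  · exact (k (hi u) (by omega) a4).2.2 hp ((hL.mem u _ (by omega) a4).2 (by omega))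

theorem stage (k : ℕ) : ∃ n : ℕ, ∀ (V : Type) [Finite V] (G : SimpleGraph V) (pos : V → ℕ)
    (ch : Sym2 V → Finset (Sym2 V)), Outer G k pos ch → ∀ (e : Sym2 V) (𝓡 : Set (Sym2 V)),
    𝓡 ⊆ G.edgeSet → (∀ f ∈ 𝓡, Crs pos e f) → ∃ 𝓦 ⊆ 𝓡, ∃ ξ : V → V → Fin n,
      ∀ (t : ℕ) (y : ℕ → V), (∀ i < 2 * t, G.Adj (y i) (y (i + 1))) → (∀ i < t, y i ≠ y (t + i)) →
        (∀ i < t, s(y i, y (i + 1)) ≠ s(y (t + i), y (t + i + 1))) →
        (∀ i < t, ξ (y i) (y (i + 1)) = ξ (y (t + i)) (y (t + i + 1)) ∨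
          Free pos 𝓦 (i + 1 < t) (y i) (y (i + 1)) ∧
            Free pos 𝓦 (i + 1 < t) (y (t + i)) (y (t + i + 1))) →
        ∀ i < t, s(y i, y (i + 1)) ∈ 𝓡 → s(y (t + i), y (t + i + 1)) ∉ 𝓡 := by
  classical
  obtain ⟨n, hn⟩ := exists_objCol k
  let C := Fin n × Fin n × Fin n × Fin ((2 * k + 1) * (3 * (2 * (2 * k + 1))) + 1)
  refine ⟨Fintype.card C, fun V _ G pos ch h e 𝓡 hR he => ?_⟩
  obtain ⟨𝓦, ⟨hW, hnc⟩, hmax⟩ := Set.exists_max_image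
    {𝓤 : Set (Sym2 V) | 𝓤 ⊆ 𝓡 ∧ ∀ r ∈ 𝓤, ∀ r' ∈ 𝓤, ¬ Crs pos r r'} Set.ncard (Set.toFinite _)
    ⟨∅, by simp⟩
  obtain ⟨N, wall, lo, hi, hL⟩ := ladder h.inj e 𝓦 (fun r hr => he r (hW hr)) hnc
  obtain ⟨col, hc⟩ := hn V G pos ch 𝓦 N wall lo hi h (hW.trans hR) hL
  obtain ⟨ι, hι⟩ := exists_rungIdx h hR hW hnc (fun 𝓤 h1 h2 => hmax 𝓤 ⟨h1, h2⟩) hL
    (2 * (2 * k + 1))
  let ξ : V → V → C := fun v w => (col (beta (2 * (2 * k + 1)) lo hi v),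
    col (mid (2 * (2 * k + 1)) lo hi v w), col (beta (2 * (2 * k + 1)) lo hi w), ι (lo v) s(v, w))
  refine ⟨𝓦, hW, fun v w => Fintype.equivFin C (ξ v w), fun t y ha hv hne hs i hi hr hr' => ?_⟩
  refine slide (ξ := ξ) hc hL.le hL.le_N hι (fun _ _ => rfl) ha hv hne
    (fun j hj => (hs j hj).imp (fun q => (Fintype.equivFin C).injective q)
      fun q => ⟨q.1.still hL, q.2.still hL⟩) hi hr hr' ?_
  refine (Fintype.equivFin C).injective ((hs i hi).resolve_right fun q => ?_)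
  have k1 : s(y i, y (i + 1)) ∉ 𝓦 := fun hm => (q.1 _ hm).2.1 (Sym2.mem_mk_left _ _)
  have k2 := hmax (insert s(y i, y (i + 1)) 𝓦) ⟨Set.insert_subset hr hW, by
    rintro r (rfl | h1) r' (rfl | h2)
    · exact Crs.irrefl
    · exact (q.1 _ h2).1
    · exact fun c => (q.1 _ h1).1 c.symm
    · exact hnc r h1 r' h2⟩
  rw [Set.ncard_insert_of_notMem k1] at k2
  omega

end Pool.Agent.Lib.MP_e7c4c5_co.Out
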